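import Pool.Agent.P.MP_e86632_nt.Lex.Iface

/-! The addition lemma for words. -/

namespace Pool.Agent.P.MP_e86632_nt.Lex

namespace Add

def Pa (k : ℕ) (a b : Wd) : Prop := ∃ g κ, Step k a g (min (sw b k) (1 - sw a k)) κ ∧
  tw a k - tw g k ≤ 1 - tw b k ∧ κ * (q k - 2) ≤ 1 - tw b k

lemma sI (w : Wd) (k : ℕ) : sw (.I w) k * q k = sw w (k + 1) := by
  have := (q_pos k).ne'
  simp only [sw]; field_simp
lemma sJ (w : Wd) (k : ℕ) : sw (.J w) k * q k = 1 + (q k - 1) * sw w (k + 1) := by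
  have := (q_pos k).ne'
  simp only [sw]; field_simp
lemma tI (w : Wd) (k : ℕ) : tw (.I w) k * q k = 1 + (q k - 1) * tw w (k + 1) := by
  have := (q_pos k).ne'
  simp only [tw]; field_simp
lemma tJ (w : Wd) (k : ℕ) : tw (.J w) k * q k = tw w (k + 1) := by
  have := (q_pos k).ne'
  simp only [tw]; field_simp
lemma kJ (w : Wd) (k : ℕ) : kap (.J w) k * q k = tw w (k + 1) + kap w (k + 1) := by
  have := (q_pos k).ne'
  simp only [kap]; field_simp

lemma can {k : ℕ} {x y : ℝ} (h : x * q k ≤ y * q k) : x ≤ y := le_of_mul_le_mul_right h (q_pos k)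

lemma dq (k : ℕ) (x : ℝ) : x / q k * q k = x := div_mul_cancel₀ _ (q_pos k).ne'

variable (B1 : BW1) (B3 : BW3)

include B1 in
lemma min0 (k : ℕ) (a b : Wd) : 0 ≤ min (sw b k) (1 - sw a k) :=
  le_min (B1.s0 _ _) (by linarith [B1.st a k, B1.t0 a k])

include B1 in
lemma fin {k : ℕ} {a b g : Wd} {ξ κ : ℝ} (h : Step k a g ξ κ)
    (h1 : sw b k ≤ ξ ∨ 1 - sw a k ≤ ξ) (h2 : tw a k - tw g k ≤ 1 - tw b k)
    (h3 : κ * (q k - 2) ≤ 1 - tw b k) : Pa k a b :=
  ⟨g, κ, h.mono (min0 B1 k a b) (min_le_iff.2 h1) le_rfl, h2, h3⟩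

include B1 B3 in
lemma gen {k : ℕ} {a b : Wd} (g : Wd)
    (h1 : sw b k ≤ sw g k - sw a k ∨ 1 - sw a k ≤ sw g k - sw a k)
    (h2 : tw a k - tw g k ≤ 1 - tw b k) (h3 : kap g k * (q k - 2) ≤ 1 - tw b k) : Pa k a b :=
  fin B1 (B3.gen k a g (by linarith [(min0 B1 k a b).trans (min_le_iff.2 h1)])) h1 h2 h3

include B1 in
lemma tk {k : ℕ} (hk : 1 ≤ k) (w : Wd) : tw w k + kap w k ≤ 1 := by
  have h1 := B1.kap w k hk
  have h2 := B1.k0 w k
  have h3 := q_ge_three hk
  nlinarith

include B1 in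
lemma kJ_le {k : ℕ} (w : Wd) : kap (.J w) k * (q k - 2) * q k ≤ q k - 2 := by
  have h1 := tk B1 (k := k + 1) (by omega) w
  have h2 := kJ w k
  have h3 := q_ge_two k
  have h4 : kap (.J w) k * (q k - 2) * q k = kap (.J w) k * q k * (q k - 2) := by ring
  rw [h4, h2]
  nlinarith

include B1 in
lemma hh {k : ℕ} (hk : 2 ≤ k) {w : Wd} (h : 1 / 2 ≤ sw w (k + 1)) :
    tw w (k + 1) * (q k - 1) ≤ 1 - sw w (k + 1) := by
  have h1 := q_succ (k := k) (by omega)
  have h2 := q_ge_five hk
  have h3 : 2 / q (k + 1) ≤ sw w (k + 1) := by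
    refine le_trans ?_ h
    rw [div_le_div_iff₀ (q_pos _) two_pos]
    linarith
  have h4 := (B1.HH w (k + 1) (by omega) h3).1
  have h5 := B1.t0 w (k + 1)
  have h6 : q k - 1 ≤ q (k + 1) ^ 2 - 1 := by nlinarith
  exact (mul_le_mul_of_nonneg_left h6 h5).trans h4

include B1 B3 in
lemma cIJ {k : ℕ} (hk : 2 ≤ k) {a b : Wd} (ih : Pa (k + 1) b a) : Pa k (.I a) (.J b) := by
  obtain ⟨g, κ, ⟨-, -, h1, -, -⟩, h2, -⟩ := ih
  have r5 := q_ge_five hk
  have e1 := sI a k
  have e2 := sJ b k
  have e3 := sJ g k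
  have e4 := tI a k
  have e5 := tJ b k
  have e6 := tJ g k
  have a0 := B1.s0 a (k + 1)
  have a1 := B1.st a (k + 1)
  have b0 := B1.s0 b (k + 1)
  have b1 := B1.st b (k + 1)
  refine gen B1 B3 (.J g) ?_ (can (k := k) ?_) (can (k := k) ?_)
  · rcases le_total (sw a (k + 1)) (1 - sw b (k + 1)) with h | h
    · rw [min_eq_left h] at h1
      refine .inl (can (k := k) ?_)
      have := mul_le_mul_of_nonneg_left h1 (show 0 ≤ q k - 1 by linarith)
      have := mul_nonneg a0 (show 0 ≤ q k - 2 by linarith)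
      linarith
    · rw [min_eq_right h] at h1
      refine .inr (can (k := k) ?_)
      have := mul_le_mul_of_nonneg_left h1 (show 0 ≤ q k - 1 by linarith)
      linarith
  · have := mul_nonneg (show 0 ≤ 1 - tw a (k + 1) by linarith) (show 0 ≤ q k - 2 by linarith)
    linarith
  · have := kJ_le B1 (k := k) g
    linarith

include B1 B3 in
lemma cJI {k : ℕ} (hk : 2 ≤ k) {a b : Wd} (ih : Pa (k + 1) a b) : Pa k (.J a) (.I b) := by
  obtain ⟨g, κ, h1, h2, h3⟩ := ih
  have r5 := q_ge_five hk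
  have r' := q_succ (k := k) (by omega)
  have e1 := sJ a k
  have e2 := sI b k
  have e4 := tJ a k
  have e5 := tI b k
  have e6 := tJ g k
  have a0 := B1.t0 a (k + 1)
  have a1 := B1.st a (k + 1)
  have b0 := B1.s0 b (k + 1)
  have b1 := B1.st b (k + 1)
  have p := mul_nonneg (show 0 ≤ 1 - tw b (k + 1) by linarith) (show 0 ≤ q k - 2 by linarith)
  refine fin B1 (B3.stepJ k a g _ _ h1) ?_ (can (k := k) ?_) (can (k := k) ?_)
  · rcases le_total (sw b (k + 1)) (1 - sw a (k + 1)) with h | h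
    · rw [min_eq_left h]
      refine .inl (can (k := k) ?_)
      have := mul_nonneg b0 (show 0 ≤ q k - 2 by linarith)
      rw [dq]; linarith
    · rw [min_eq_right h]
      refine .inr (can (k := k) ?_)
      rw [dq]; linarith
  · linarith
  · have k0 := h1.2.1
    have := mul_le_mul_of_nonneg_left (show q k - 2 ≤ q (k + 1) - 2 by linarith) k0
    rw [mul_right_comm, dq]
    linarith

include B1 B3 in
lemma cII1 {k : ℕ} (hk : 2 ≤ k) {a b : Wd} (ih : Pa (k + 1) a b)
    (h : sw b (k + 1) ≤ 1 - sw a (k + 1)) : Pa k (.I a) (.I b) := by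
  obtain ⟨g, κ, h1, h2, h3⟩ := ih
  rw [min_eq_left h] at h1
  have r5 := q_ge_five hk
  have r' := q_succ (k := k) (by omega)
  have e2 := sI b k
  have e4 := tI a k
  have e5 := tI b k
  have e6 := tI g k
  have b0 := B1.s0 b (k + 1)
  have b1 := B1.st b (k + 1)
  refine fin B1 (B3.stepI k a g _ _ h1) (.inl (can (k := k) ?_)) (can (k := k) ?_)
    (can (k := k) ?_)
  · rw [dq]; linarith
  · have := mul_le_mul_of_nonneg_left h2 (show 0 ≤ q k - 1 by linarith)
    linarith
  · have k0 := h1.2.1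
    have := mul_le_mul_of_nonneg_left (show q k - 2 ≤ q (k + 1) - 2 by linarith) k0
    have := mul_le_mul_of_nonneg_right (show sw b (k + 1) ≤ 1 - tw b (k + 1) by linarith)
      (show 0 ≤ q k - 2 by linarith)
    rw [mul_right_comm, dq]
    linarith

include B1 B3 in
lemma cII2 {k : ℕ} (hk : 2 ≤ k) {a b : Wd} (h : 1 - sw a (k + 1) ≤ sw b (k + 1))
    (h' : sw b (k + 1) ≤ sw a (k + 1)) : Pa k (.I a) (.I b) := by
  have r5 := q_ge_five hk
  have r' := q_succ (k := k) (by omega)
  have e2 := sI b k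
  have e4 := tI a k
  have e5 := tI b k
  have e6 := tJ b k
  have b0 := B1.s0 b (k + 1)
  have b1 := B1.st b (k + 1)
  have h4 := hh B1 hk (w := a) (by linarith)
  have p := mul_nonneg (show 0 ≤ 1 - tw b (k + 1) by linarith) (show 0 ≤ q k - 3 by linarith)
  refine fin B1 (B3.branch k a b) (.inl (can (k := k) ?_)) (can (k := k) ?_) (can (k := k) ?_)
  · have := mul_nonneg b0 (show 0 ≤ q k - 2 by linarith)
    rw [dq]; linarith
  · linarith
  · have h3 := B1.kap b (k + 1) (by omega)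
    have := mul_le_mul_of_nonneg_left (show q k - 2 ≤ q (k + 1) - 2 by linarith)
      (B1.k0 b (k + 1))
    rw [mul_right_comm, dq]
    linarith

include B1 B3 in
lemma cII3 {k : ℕ} (hk : 2 ≤ k) {a b : Wd} (h : 1 - sw a (k + 1) ≤ sw b (k + 1))
    (h' : sw a (k + 1) ≤ sw b (k + 1)) : Pa k (.I a) (.I b) := by
  have r5 := q_ge_five hk
  have e1 := sI a k
  have e2 := sI b k
  have e3 := sJ a k
  have e4 := tI a k
  have e5 := tI b k
  have e6 := tJ a k
  have a0 := B1.s0 a (k + 1)
  have a1 := B1.st a (k + 1)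
  have b0 := B1.t0 b (k + 1)
  have b1 := B1.st b (k + 1)
  have h4 := hh B1 hk (w := b) (by linarith)
  refine gen B1 B3 (.J a) (.inl (can (k := k) ?_)) (can (k := k) ?_) (can (k := k) ?_)
  · have := mul_nonneg a0 (show 0 ≤ q k - 2 by linarith)
    linarith
  · have := mul_nonneg (show 0 ≤ 1 - tw a (k + 1) by linarith) (show 0 ≤ q k - 3 by linarith)
    linarith
  · have := kJ_le B1 (k := k) a
    linarith

include B1 B3 in
lemma cJJ {k : ℕ} (hk : 2 ≤ k) (a b : Wd) : Pa k (.J a) (.J b) := by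
  have r5 := q_ge_five hk
  have e4 := tJ a k
  have e5 := tJ b k
  have a0 := B1.s0 a (k + 1)
  have a1 := B1.st a (k + 1)
  have b0 := B1.s0 b (k + 1)
  have b1 := B1.st b (k + 1)
  have c0 := B1.s0 (.J b) k
  have c1 := B1.st (.J b) k
  refine gen B1 B3 .top (.inr le_rfl) (can (k := k) ?_) ?_
  · rw [show tw .top k = 0 from rfl]
    linarith
  · rw [show kap .top k = 0 from rfl]
    linarith

include B1 B3 in
lemma cTop (k : ℕ) (a : Wd) : Pa k a .top := by
  have c0 := B1.s0 a k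
  have c1 := B1.st a k
  refine gen B1 B3 .top (.inr le_rfl) ?_ ?_
  · rw [show tw .top k = 0 from rfl]
    linarith
  · rw [show kap .top k = 0 from rfl, show tw .top k = 0 from rfl]
    linarith

include B1 B3 in
lemma main (n : ℕ) : ∀ k (a b : Wd), a.len ≤ n → b.len ≤ n → 2 ≤ k → Pa k a b := by
  have z1 : ∀ k (a : Wd), Pa k a .bot := fun k a =>
    fin B1 (B3.refl k a) (.inl le_rfl) (by simp [tw]) (by simp [tw])
  have z2 : ∀ k (b : Wd), Pa k .top b := fun k b => by
    have c0 := B1.s0 b k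
    have c1 := B1.st b k
    exact fin B1 (B3.refl k _) (.inr (by simp [sw])) (by linarith) (by linarith)
  have z3 : ∀ k (b : Wd), 2 ≤ k → Pa k .bot b := fun k b hk =>
    gen B1 B3 b (.inl (by simp [sw])) le_rfl (B1.kap b k (by omega))
  induction n with
  | zero =>
    intro k a b ha hb hk
    cases a with
    | bot => exact z3 k b hk
    | top => exact z2 k b
    | I a => simp [Wd.len] at ha
    | J a => simp [Wd.len] at ha
  | succ n ih =>
    intro k a b ha hb hk
    cases a with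
    | bot => exact z3 k b hk
    | top => exact z2 k b
    | I a =>
      have ha' : a.len ≤ n := by simpa [Wd.len] using ha
      cases b with
      | bot => exact z1 k _
      | top => exact cTop B1 B3 k _
      | I b =>
        have hb' : b.len ≤ n := by simpa [Wd.len] using hb
        rcases le_total (sw b (k + 1)) (1 - sw a (k + 1)) with h | h
        · exact cII1 B1 B3 hk (ih _ a b ha' hb' (by omega)) h
        · rcases le_total (sw b (k + 1)) (sw a (k + 1)) with h' | h'
          · exact cII2 B1 B3 hk h h'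
          · exact cII3 B1 B3 hk h h'
      | J b =>
        have hb' : b.len ≤ n := by simpa [Wd.len] using hb
        exact cIJ B1 B3 hk (ih _ b a hb' ha' (by omega))
    | J a =>
      have ha' : a.len ≤ n := by simpa [Wd.len] using ha
      cases b with
      | bot => exact z1 k _
      | top => exact cTop B1 B3 k _
      | I b =>
        have hb' : b.len ≤ n := by simpa [Wd.len] using hb
        exact cJI B1 B3 hk (ih _ a b ha' hb' (by omega))
      | J b => exact cJJ B1 B3 hk a b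

end Add

theorem t_ADD (B1 : BW1) (B3 : BW3) : S_ADD := fun k a b hk =>
  Add.main B1 B3 (max a.len b.len) k a b (le_max_left _ _) (le_max_right _ _) hk

end Pool.Agent.P.MP_e86632_nt.Lex
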