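import Pool.Agent.P.MP_e86632_nt.Lex.Iface

/-! Addition of words with product bounds for the losses. -/

namespace Pool.Agent.P.MP_e86632_nt.Lex

namespace Addp

lemma mono {x P r r' : ℝ} (hP : 0 ≤ P) (h1 : 1 < r) (h2 : r ≤ r') (h : x * (r' - 1) ≤ r' * P) :
    x * (r - 1) ≤ r * P := by
  have h3 : 0 < r' - 1 := by linarith
  apply le_of_mul_le_mul_right _ h3
  have h4 := mul_le_mul_of_nonneg_left h (show 0 ≤ r - 1 by linarith)
  have h5 := mul_le_mul_of_nonneg_right h2 hP
  nlinarith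

lemma lowI (B1 : BW1) (w : Wd) (k : ℕ) : sw (.I w) k ≤ 1 / q k := by
  have := B1.st w (k + 1)
  have := B1.t0 w (k + 1)
  exact div_le_div_of_nonneg_right (by linarith) (q_pos k).le

lemma split (B1 : BW1) {k : ℕ} {a b : Wd} (h : sw b k ≤ tw (.J a) k) :
    ∃ b1, sw b k = sw b1 (k + 1) / q k ∧ sw b1 (k + 1) ≤ tw a (k + 1) ∧
      q k ^ 2 * ((1 - sw (.J a) k) * (1 - tw b k)) =
        (q k - 1) ^ 2 * ((1 - sw a (k + 1)) * (1 - tw b1 (k + 1))) := by
  have hq := q_pos k
  have h1 := B1.st a (k + 1)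
  have h2 := B1.s0 a (k + 1)
  have h3 : sw b k ≤ 1 / q k :=
    h.trans (div_le_div_of_nonneg_right (show tw a (k + 1) ≤ 1 by linarith) hq.le)
  obtain ⟨b1, e1, e2, -⟩ := B1.asI b k h3
  refine ⟨b1, e1, ?_, ?_⟩
  · rw [e1] at h
    exact (div_le_div_iff_of_pos_right hq).1 h
  · rw [e2]
    simp only [sw, tw]
    field_simp
    ring

lemma P0 (B1 : BW1) (k : ℕ) (a b : Wd) : 0 ≤ (1 - sw a k) * (1 - tw b k) := by
  have := B1.st a k
  have := B1.t0 a k
  have := B1.st b k
  have := B1.s0 b k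
  exact mul_nonneg (by linarith) (by linarith)

lemma psi_low {k : ℕ} {a : Wd} (h : sw a k ≤ 1 / q k) : q k - 1 ≤ q k * (1 - sw a k) := by
  have := (le_div_iff₀ (q_pos k)).1 h
  linarith

/-- for a low word `a` the product controls `1 - tw b k` -/
lemma phi_low (B1 : BW1) {k : ℕ} {a : Wd} (b : Wd) (h : sw a k ≤ 1 / q k) :
    (q k - 1) * (1 - tw b k) ≤ q k * ((1 - sw a k) * (1 - tw b k)) := by
  have := B1.st b k
  have := B1.s0 b k
  rw [← mul_assoc]
  exact mul_le_mul_of_nonneg_right (psi_low h) (by linarith)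

lemma aux_low (B1 : BW1) {k : ℕ} {a : Wd} (b : Wd) (h : sw a k ≤ 1 / q k) :
    sw b k * (q k - 1) ≤ q k * ((1 - sw a k) * (1 - tw b k)) ∧
    (sw b k ≤ 1 / q k → sw b k * (q k - 1) ^ 3 ≤ q k ^ 2 * ((1 - sw a k) * (1 - tw b k))) := by
  have h1 := phi_low B1 b h
  have h2 := B1.st b k
  have h3 := B1.s0 b k
  have hq := q_ge_two k
  refine ⟨by nlinarith, fun hb => ?_⟩
  have h4 := (B1.low b k hb).2
  have h5 := mul_le_mul_of_nonneg_left h1 (q_pos k).le
  have h6 := mul_le_mul_of_nonneg_left h4 (show 0 ≤ q k * (q k - 1) by nlinarith)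
  have h7 : 0 ≤ sw b k * (q k - 1) ^ 2 := by positivity
  nlinarith

lemma th_le {r : ℝ} (h : 5 ≤ r) : th r ≤ 1 / 2 := by
  have h1 : 1 / (r - 1) ≤ 1 / 4 := one_div_le_one_div_of_le (by norm_num) (by linarith)
  have h2 : om (r + 2) ≤ 1 / 4 := by
    unfold om
    rw [div_le_iff₀ (mul_pos (by positivity) (by linarith))]
    nlinarith [mul_le_mul h h (by norm_num) (by linarith)]
  unfold th
  linarith

lemma addp_low (B1 : BW1) (hA : S_ADD) (hM : S_MUL) {k : ℕ} {a b : Wd} (hk : 2 ≤ k)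
    (h : sw b k ≤ tw a k) (ha : sw a k ≤ 1 / q k) : ∃ g κ, Step k a g (sw b k) κ ∧
      (tw a k - tw g k) * (q k ^ 2 - 1) ≤ q k ^ 2 * ((1 - sw a k) * (1 - tw b k)) ∧
      κ * ((q k - 1) * (q k - 2)) ≤ q k * ((1 - sw a k) * (1 - tw b k)) := by
  have hq := q_ge_five hk
  have h1 := phi_low B1 b ha
  have h2 := B1.st a k
  have h3 := B1.st b k
  have h4 := B1.s0 b k
  have hP := P0 B1 k a b
  have hmin : min (sw b k) (1 - sw a k) = sw b k := min_eq_left (by linarith)
  have hκ : ∀ κ : ℝ, κ * (q k - 2) ≤ 1 - tw b k →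
      κ * ((q k - 1) * (q k - 2)) ≤ q k * ((1 - sw a k) * (1 - tw b k)) := fun κ hκ => by
    have := mul_le_mul_of_nonneg_left hκ (show 0 ≤ q k - 1 by linarith)
    linarith
  have hq2 : 0 ≤ q k ^ 2 - 1 := by nlinarith
  by_cases c1 : sw a k ≤ 1 / q k ^ 2
  · obtain ⟨g, κ, s1, s2, s3⟩ := hA k a b hk
    rw [hmin] at s1
    refine ⟨g, κ, s1, ?_, hκ κ s3⟩
    have h5 := (le_div_iff₀ (by positivity)).1 c1
    have h6 := mul_le_mul_of_nonneg_right s2 hq2
    have h7 := mul_le_mul_of_nonneg_right h5 (show 0 ≤ 1 - tw b k by linarith)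
    nlinarith
  push Not at c1
  by_cases c2 : sw b k ≤ sw a k
  · obtain ⟨g, κ, s1, s2, s3⟩ := hM k a b 1 hk zero_le_one (by linarith) c2
    rw [one_mul, hmin] at s1
    refine ⟨g, κ, s1, ?_, hκ κ s3⟩
    have h5 := mul_le_mul_of_nonneg_right (th_le hq) (show 0 ≤ 1 - tw b k by linarith)
    have h6 := mul_le_mul_of_nonneg_right (s2.trans h5) hq2
    have h7 := mul_le_mul_of_nonneg_left h1 (q_pos k).le
    have h8 : 0 ≤ (1 - tw b k) * (q k - 1) ^ 2 := mul_nonneg (by linarith) (sq_nonneg _)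
    nlinarith
  · push Not at c2
    obtain ⟨g, κ, s1, -, s3⟩ := hA k a b hk
    rw [hmin] at s1
    refine ⟨g, κ, s1, ?_, hκ κ s3⟩
    have h5 := B1.T1 a k c1.le
    have h6 := B1.T1 b k (c1.trans c2).le
    have h7 := B1.t0 g k
    have h8 : 1 / q k ≤ 1 / 5 := one_div_le_one_div_of_le (by norm_num) hq
    have h9 : (16 / 25 : ℝ) ≤ (1 - 1 / q k) ^ 2 := by nlinarith
    have h10 : (4 / 5 : ℝ) * (16 / 25) ≤ (1 - sw a k) * (1 - tw b k) :=
      mul_le_mul (by linarith) (by linarith) (by norm_num) (by linarith)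
    have h11 : tw a k - tw g k ≤ (1 - sw a k) * (1 - tw b k) := by linarith
    have h12 := mul_le_mul_of_nonneg_right h11 hq2
    nlinarith

end Addp

open Addp

theorem t_AUX (B1 : BW1) : S_AUX := by
  intro k a
  induction a generalizing k with
  | bot => exact fun b _ _ => aux_low B1 b (one_div_pos.2 (q_pos k)).le
  | I a _ => exact fun b _ _ => aux_low B1 b (lowI B1 a k)
  | top =>
    intro b _ h
    have h0 : sw b k = 0 := le_antisymm h (B1.s0 b k)
    simp [h0, sw]
  | J a ih =>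
    intro b hk h
    obtain ⟨b1, e1, e2, e3⟩ := split B1 h
    have hq := q_ge_three hk
    have hP := P0 B1 (k + 1) a b1
    have h1 := mono hP (show 1 < q k by linarith) (q_le (Nat.le_succ k))
      (ih (k + 1) b1 (by omega) e2).1
    have h2 : sw b k * q k = sw b1 (k + 1) := by rw [e1]; field_simp
    have h3 := B1.s0 b k
    constructor
    · apply le_of_mul_le_mul_left _ (q_pos k)
      have h4 : q k ≤ (q k - 1) ^ 2 := by nlinarith
      have h5 := mul_le_mul_of_nonneg_right h4 hP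
      nlinarith
    · intro _
      rw [e3]
      apply le_of_mul_le_mul_left _ (q_pos k)
      have h4 := mul_le_mul_of_nonneg_left h1 (sq_nonneg (q k - 1))
      rw [← h2] at h4
      nlinarith

theorem t_ADDP (B1 : BW1) (B3 : BW3) (hA : S_ADD) (hM : S_MUL) : S_ADDP := by
  intro k a
  induction a generalizing k with
  | bot => exact fun b hk h => addp_low B1 hA hM hk h (one_div_pos.2 (q_pos k)).le
  | I a _ => exact fun b hk h => addp_low B1 hA hM hk h (lowI B1 a k)
  | top =>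
    intro b _ h
    have h0 : sw b k = 0 := le_antisymm h (B1.s0 b k)
    exact ⟨.top, 0, h0 ▸ B3.refl k .top, by simp [sw], by simp [sw]⟩
  | J a ih =>
    intro b hk h
    obtain ⟨b1, e1, e2, e3⟩ := split B1 h
    have hq := q_ge_five hk
    have hq' := q_le (Nat.le_succ k)
    have hP := P0 B1 (k + 1) a b1
    obtain ⟨g, κ, s1, s2, s3⟩ := ih (k + 1) b1 (by omega) e2
    have h3 := B1.s0 b1 (k + 1)
    refine ⟨.J g, κ / q k, (B3.stepJ k a g _ κ s1).mono (B1.s0 b k) ?_ le_rfl, ?_, ?_⟩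
    · rw [e1]
      exact div_le_div_of_nonneg_right (by nlinarith) (q_pos k).le
    · have h1 := mono hP (show 1 < q k ^ 2 by nlinarith)
        (pow_le_pow_left₀ (q_pos k).le hq' 2) s2
      rw [e3]
      simp only [tw]
      rw [← sub_div, div_mul_eq_mul_div, div_le_iff₀ (q_pos k)]
      have h4 : q k ≤ (q k - 1) ^ 2 := by nlinarith
      have h5 := mul_le_mul_of_nonneg_right h4 (mul_nonneg hP (q_pos k).le)
      nlinarith
    · have h0 : 0 ≤ κ := s1.2.1
      have h1 : κ ≤ (1 - sw a (k + 1)) * (1 - tw b1 (k + 1)) := by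
        apply le_of_mul_le_mul_left _ (q_pos (k + 1))
        have h2 : q (k + 1) ≤ (q (k + 1) - 1) * (q (k + 1) - 2) := by
          simp only [Nat.succ_eq_add_one] at hq'
          nlinarith
        nlinarith [mul_le_mul_of_nonneg_left h2 h0]
      apply le_of_mul_le_mul_left _ (q_pos k)
      have h2 : q k * (κ / q k * ((q k - 1) * (q k - 2))) = κ * ((q k - 1) * (q k - 2)) := by
        field_simp
      have h4 := mul_le_mul_of_nonneg_right h1
        (show 0 ≤ (q k - 1) * (q k - 2) from mul_nonneg (by linarith) (by linarith))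
      have h5 := mul_nonneg hP (show 0 ≤ q k - 1 by linarith)
      rw [h2]
      nlinarith

end Pool.Agent.P.MP_e86632_nt.Lex
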