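import Pool.Agent.P.MP_e86632_nt.Lex.Iface

/-! The bracket lemma at level `1`. -/

namespace Pool.Agent.P.MP_e86632_nt.Lex

open Finset

namespace Br

/-- the gain on one pair of sections in conflict -/
lemma pair (hC : S_COR) {n : ℕ} {S T0 S1 T : Set (Gam (n + 1) 1)} {α γ : Gam (n + 1) 1 → ℝ}
    {c : Gam (n + 1) 1} (h0 : Closed S T0) (h1 : Closed S1 T) (sa : ∀ x, x ∉ S → α x = 0)
    (sc : ∀ x, x ∉ T → γ x = 0) (con : ∀ x, α x + γ (x + c) ≤ 1) (v : ZMod (pr 1)) :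
    mu (fun y => α (cons v y)) + mu (fun y => γ (cons (v + hd c) y)) ≤
      1 - 43 / 50 * (1 - ms (sec S v)) * (1 - ms (sec T (v + hd c))) := by
  have e1 := h0.secS v
  have e2 := h1.secT (v + hd c)
  have h2 := conf (A := Nb (oth T0 v)) (B := Nb (oth S1 (v + hd c))) (f := fun y => α (cons v y))
    (h := fun y => γ (cons (v + hd c) y)) (tl c)
    (fun y hy => sa _ fun e => (e1.le e) hy) (fun y hy => sc _ fun e => (e2.le e) hy)
    (fun y => con (cons v y))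
  have h3 := hC n (1 + 1) (oth T0 v) (oth S1 (v + hd c)) (tl c) (by omega)
  rw [show Cc (1 + 1) = 43 / 50 from Cc_two] at h3
  rw [e1, e2, ms_compl, ms_compl, sub_sub_cancel, sub_sub_cancel]
  linarith

lemma gain {s t a b : ℝ} (hs : s ≤ a) (ht : t ≤ 1 - b) (ha : a ≤ 1) (hb : 0 ≤ b) :
    43 / 50 * (1 - a) * b ≤ 43 / 50 * (1 - s) * (1 - t) := by
  have : (1 - a) * b ≤ (1 - s) * (1 - t) :=
    mul_le_mul (by linarith) (by linarith) hb (by linarith)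
  linarith

/-- the bookkeeping over the three residues -/
lemma arith (F G H sA sB tB : ZMod (pr 1) → ℝ) (c v0 x1 : ZMod (pr 1)) (x z1 z2 n1 n2 : ℝ)
    (hF : ∀ v, F v ≤ sA v) (hG : ∀ v, G v ≤ sB v) (hH : ∀ v, H v ≤ tB v)
    (a1 : ∀ v, sA v ≤ 1) (b1 : ∀ v, tB v ≤ 1)
    (FH : ∀ v, F v + H (v + c) ≤ 1 - 43 / 50 * (1 - sA v) * (1 - tB (v + c)))
    (GH : ∀ v, G v + H v ≤ 1 - 43 / 50 * (1 - sB v) * (1 - tB v))
    (h1 : ∀ v, v ≠ v0 → sA v ≤ x) (h2 : sB x1 ≤ z1) (h3 : ∀ v, v ≠ x1 → sB v ≤ z2)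
    (h4 : ∀ v, v ≠ x1 → tB v ≤ 1 - n1) (h5 : tB x1 ≤ 1 - n2) (p1 : 0 ≤ n1) (p2 : 0 ≤ n2)
    (px : x ≤ 1) (pz : z1 ≤ 1) :
    ∑ v, H v ≤ 3 - 2 * n1 ∧ ∑ v, G v ≤ z1 + 2 * z2 ∧
      ∑ v, F v + ∑ v, G v + ∑ v, H v ≤ 3 - brk x z1 z2 n1 n2 := by
  have one : (1 : ZMod (pr 1)) ≠ 0 := one_ne_zero
  have ne1 : ∀ a : ZMod (pr 1), a ≠ a + 1 := fun a e => one (by simpa using e)
  have FH1 : ∀ v, F v + H (v + c) ≤ 1 := fun v => by
    have := mul_nonneg (sub_nonneg.2 (a1 v)) (sub_nonneg.2 (b1 (v + c)))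
    linarith [FH v]
  have sH : ∑ v, H (v + c) = ∑ v, H v := Equiv.sum_comp (Equiv.addRight c) H
  obtain ⟨w, w1, w2, hw⟩ := three x1 (x1 + 1) (ne1 x1)
  have w3 := (ne1 x1).symm
  have sG : ∑ v, G v ≤ z1 + 2 * z2 := by
    rw [hw]; linarith [hG x1, hG (x1 + 1), hG w, h3 _ w1, h3 _ w3]
  have sG' : ∑ v, G v ≤ G x1 + 2 * z2 := by
    rw [hw]; linarith [hG (x1 + 1), hG w, h3 _ w1, h3 _ w3]
  refine ⟨?_, sG, ?_⟩
  · rw [hw]; linarith [hH x1, hH (x1 + 1), hH w, h4 _ w1, h4 _ w3, b1 x1]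
  have good : ∀ v, v ≠ v0 → v + c ≠ x1 → F v + H (v + c) ≤ 1 - 43 / 50 * (1 - x) * n1 ∧
      F v + H (v + c) ≤ x + 1 - n1 := fun v e1 e2 =>
    ⟨by linarith [FH v, gain (h1 v e1) (h4 _ e2) px p1],
      by linarith [hF v, h1 v e1, hH (v + c), h4 _ e2]⟩
  rw [le_sub_comm, brk, max_le_iff, min_le_iff, ← sH]
  by_cases e : x1 = v0 + c
  · obtain ⟨y, y1, y2, hy⟩ := three v0 (v0 + 1) (ne1 v0)
    have g1 := good (v0 + 1) (ne1 v0).symm (fun e' => ne1 v0 (add_right_cancel (e.symm.trans e'.symm)))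
    have g2 := good y y1 (fun e' => y1 (add_right_cancel (e'.trans e)))
    rw [hy F, hy fun v => H (v + c)]
    exact ⟨by linarith [FH1 v0, FH1 y, g1.1], Or.inr (by linarith [FH1 v0, g1.2, g2.2])⟩
  · have d : v0 ≠ x1 - c := fun e' => e (by rw [e', sub_add_cancel])
    obtain ⟨y, y1, y2, hy⟩ := three v0 (x1 - c) d
    have g2 := good y y1 (fun e' => y2 (by rw [← e', add_sub_cancel_right]))
    have g3 := FH1 (x1 - c)
    have g4 := gain h2 h5 pz p2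
    rw [hy F, hy fun v => H (v + c)]
    rw [sub_add_cancel] at g3 ⊢
    exact ⟨by linarith [FH1 v0, g2.1],
      Or.inl (by linarith [FH1 v0, g2.2, GH x1, hF (x1 - c), h1 _ d.symm])⟩

end Br

theorem t_BR (hC : S_COR) : S_BR := by
  intro n SA TA SB TB c αA γA αB γB v0 x1 x z1 z2 n1 n2 cA cB h h1 h2 h3 h4 h5 p1 p2 px pz
  have key := Br.arith (fun v => mu fun y => αA (cons v y)) (fun v => mu fun y => αB (cons v y))
    (fun v => mu fun y => γB (cons v y)) (fun v => ms (sec SA v)) (fun v => ms (sec SB v))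
    (fun v => ms (sec TB v)) (hd c) v0 x1 x z1 z2 n1 n2
    (fun v => mu_le_ms (fun _ => h.hA.a1 _) fun _ hy => h.hA.sa _ hy)
    (fun v => mu_le_ms (fun _ => h.hB.a1 _) fun _ hy => h.hB.sa _ hy)
    (fun v => mu_le_ms (fun _ => h.hB.c1 _) fun _ hy => h.hB.sc _ hy)
    (fun v => ms_le_one _) (fun v => ms_le_one _)
    (Br.pair hC cA cB h.hA.sa h.hB.sc h.con)
    (fun v => by
      have := Br.pair hC cB cB h.hB.sa h.hB.sc (fun y => h.hB.loc 1 y le_rfl) v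
      rwa [hd_emb, cast_pr_self, add_zero] at this)
    h1 h2 h3 h4 h5 p1 p2 px pz
  rw [← mu_succ, ← mu_succ, ← mu_succ, q_one] at key
  refine ⟨key.1, key.2.1, by linarith [key.2.2]⟩

end Pool.Agent.P.MP_e86632_nt.Lex
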