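import Pool.Agent.P.MP_e86632_nt.Lex.Iface

/-! Measures of words. -/

namespace Pool.Agent.P.MP_e86632_nt.Lex

namespace Bw1

lemma r_pos (k : ℕ) : 0 < 1 / q k := one_div_pos.2 (q_pos k)
lemma r_half (k : ℕ) : 1 / q k ≤ 1 / 2 := one_div_le_one_div_of_le two_pos (q_ge_two k)
lemma r_mul (k : ℕ) : q k * (1 / q k) = 1 := mul_one_div_cancel (q_pos k).ne'
lemma r_lt (k : ℕ) : 1 / q (k + 1) < 1 / q k :=
  one_div_lt_one_div_of_lt (q_pos k) (by linarith [q_succ_one k])

lemma sI_eq (w : Wd) (k : ℕ) : sw (.I w) k = 1 / q k * sw w (k + 1) := by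
  simp only [sw]; ring
lemma tI_eq (w : Wd) (k : ℕ) : tw (.I w) k = 1 / q k + (1 - 1 / q k) * tw w (k + 1) := rfl
lemma sJ_eq (w : Wd) (k : ℕ) : sw (.J w) k = 1 / q k + (1 - 1 / q k) * sw w (k + 1) := rfl
lemma tJ_eq (w : Wd) (k : ℕ) : tw (.J w) k = 1 / q k * tw w (k + 1) := by
  simp only [tw]; ring

lemma rng (w : Wd) : ∀ k, 0 ≤ sw w k ∧ 0 ≤ tw w k ∧ sw w k + tw w k ≤ 1 := by
  induction w with
  | bot => intro k; simp [sw, tw]
  | top => intro k; simp [sw, tw]
  | I w ih =>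
    intro k
    obtain ⟨h1, h2, h3⟩ := ih (k + 1)
    have a := r_pos k
    have b := r_half k
    rw [sI_eq, tI_eq]
    refine ⟨by positivity, by nlinarith, by nlinarith⟩
  | J w ih =>
    intro k
    obtain ⟨h1, h2, h3⟩ := ih (k + 1)
    have a := r_pos k
    have b := r_half k
    rw [sJ_eq, tJ_eq]
    refine ⟨by nlinarith, by positivity, by nlinarith⟩

lemma s0 (w : Wd) (k : ℕ) : 0 ≤ sw w k := (rng w k).1
lemma t0 (w : Wd) (k : ℕ) : 0 ≤ tw w k := (rng w k).2.1
lemma st (w : Wd) (k : ℕ) : sw w k + tw w k ≤ 1 := (rng w k).2.2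
lemma s1 (w : Wd) (k : ℕ) : sw w k ≤ 1 := by linarith [st w k, t0 w k]
lemma t1 (w : Wd) (k : ℕ) : tw w k ≤ 1 := by linarith [st w k, s0 w k]

lemma k0 (w : Wd) : ∀ k, 0 ≤ kap w k := by
  induction w with
  | bot => intro k; simp [kap]
  | top => intro k; simp [kap]
  | I w ih => intro k; exact div_nonneg (add_nonneg (s0 _ _) (ih _)) (q_pos k).le
  | J w ih => intro k; exact div_nonneg (add_nonneg (t0 _ _) (ih _)) (q_pos k).le

lemma I_s (w : Wd) (k : ℕ) : sw (.I w) k ≤ 1 / q k := by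
  rw [sI_eq]; nlinarith [r_pos k, s1 w (k + 1)]
lemma I_t (w : Wd) (k : ℕ) : 1 / q k ≤ tw (.I w) k := by
  rw [tI_eq]; nlinarith [r_half k, t0 w (k + 1)]
lemma J_s (w : Wd) (k : ℕ) : 1 / q k ≤ sw (.J w) k := by
  rw [sJ_eq]; nlinarith [r_half k, s0 w (k + 1)]
lemma J_t (w : Wd) (k : ℕ) : tw (.J w) k ≤ 1 / q k := by
  rw [tJ_eq]; nlinarith [r_pos k, t1 w (k + 1)]

lemma lemA (w : Wd) : ∀ k, sw w k = 1 ↔ tw w k = 0 := by
  induction w with
  | bot => intro k; simp [sw, tw]
  | top => intro k; simp [sw, tw]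
  | I w _ =>
    intro k
    have h1 := I_s w k
    have h2 := I_t w k
    have a := r_pos k
    have b := r_half k
    constructor <;> intro h <;> linarith
  | J w ih =>
    intro k
    have a := r_pos k
    have b := r_half k
    rw [sJ_eq, tJ_eq]
    constructor
    · intro h
      have e : (1 - 1 / q k) * (sw w (k + 1) - 1) = 0 := by linarith
      have : sw w (k + 1) = 1 := by
        rcases mul_eq_zero.1 e with e | e <;> linarith
      rw [(ih _).1 this, mul_zero]
    · intro h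
      have : tw w (k + 1) = 0 := by
        rcases mul_eq_zero.1 h with e | e <;> linarith
      rw [(ih _).2 this]; ring

lemma lemA' (w : Wd) (k : ℕ) : sw w k = 0 ↔ tw w k = 1 := by
  have := lemA w.flip k
  rw [sw_flip, tw_flip] at this
  exact this.symm

lemma lemB (w : Wd) : ∀ k, sw w k = 0 → ∀ σ, Vw w k σ = σ.WT := by
  induction w with
  | bot => intro k _ σ; rfl
  | top => intro k h; simp [sw] at h
  | I w ih =>
    intro k h σ
    rw [sI_eq] at h
    have : sw w (k + 1) = 0 := by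
      rcases mul_eq_zero.1 h with e | e
      · exact absurd e (r_pos k).ne'
      · exact e
    simp only [Vw, ih _ this, sI_WT]
    have := (q_pos k).ne'
    field_simp
    ring
  | J w _ =>
    intro k h
    linarith [J_s w k, r_pos k]

lemma ord1 (a : Wd) : ∀ b k, sw a k ≤ sw b k → tw b k ≤ tw a k := by
  induction a with
  | bot => intro b k _; exact t1 b k
  | top =>
    intro b k h
    have : sw b k = 1 := le_antisymm (s1 b k) h
    rw [(lemA b k).1 this]; exact t0 _ _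
  | I a ih =>
    intro b k h
    have a1 := r_pos k
    have a2 := r_half k
    cases b with
    | bot =>
      have : sw (.I a) k = 0 := le_antisymm h (s0 _ _)
      rw [(lemA' _ k).1 this]; exact t1 _ _
    | top => exact t0 _ _
    | I b =>
      rw [sI_eq, sI_eq] at h
      have := ih b (k + 1) (le_of_mul_le_mul_left h a1)
      rw [tI_eq, tI_eq]
      nlinarith
    | J b => exact (J_t b k).trans (I_t a k)
  | J a ih =>
    intro b k h
    have a1 := r_pos k
    have a2 := r_half k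
    cases b with
    | bot =>
      have : sw (.J a) k = 0 := le_antisymm h (s0 _ _)
      rw [(lemA' _ k).1 this]; exact t1 _ _
    | top => exact t0 _ _
    | I b =>
      rw [sJ_eq, sI_eq] at h
      have b1 := s0 a (k + 1)
      have b2 := s1 b (k + 1)
      have e1 : sw a (k + 1) = 0 := by nlinarith
      have e2 : sw b (k + 1) = 1 := by nlinarith
      rw [tI_eq, tJ_eq, (lemA _ _).1 e2, (lemA' _ _).1 e1]
      linarith
    | J b =>
      rw [sJ_eq, sJ_eq] at h
      have := ih b (k + 1) (by nlinarith)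
      rw [tJ_eq, tJ_eq]
      nlinarith

lemma ord (a b : Wd) (k : ℕ) : sw a k ≤ sw b k ↔ tw b k ≤ tw a k := by
  refine ⟨ord1 a b k, fun h => ?_⟩
  have := ord1 b.flip a.flip k (by simpa using h)
  simpa using this

lemma dich (w : Wd) (k : ℕ) : sw w k ≤ 1 / q k ∨ tw w k ≤ 1 / q k := by
  cases w with
  | bot => left; exact (r_pos k).le
  | top => right; exact (r_pos k).le
  | I w => left; exact I_s w k
  | J w => right; exact J_t w k

lemma asI (w : Wd) (k : ℕ) (h : sw w k ≤ 1 / q k) : ∃ w', Eqv k w (.I w') := by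
  have a1 := r_pos k
  have a2 := r_half k
  have a3 := (q_pos k).ne'
  cases w with
  | bot =>
    refine ⟨.bot, ?_, ?_, fun σ => ?_⟩
    · simp [sw]
    · simp [tw]
    · simp only [Vw, sI_WT]; field_simp; ring
  | top => exact absurd h (by simp only [sw]; linarith)
  | I w => exact ⟨w, rfl, rfl, fun _ => rfl⟩
  | J w =>
    rw [sJ_eq] at h
    have b1 := s0 w (k + 1)
    have e1 : sw w (k + 1) = 0 := by nlinarith
    refine ⟨.top, ?_, ?_, fun σ => ?_⟩
    · rw [sJ_eq, sI_eq, e1]; simp [sw]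
    · rw [tJ_eq, tI_eq, (lemA' _ _).1 e1]; simp [tw]
    · simp only [Vw, lemB w _ e1, sJ_WT, sI_WS]; ring

lemma asJ (w : Wd) (k : ℕ) (h : tw w k ≤ 1 / q k) : ∃ w', Eqv k w (.J w') := by
  obtain ⟨w', h1, h2, h3⟩ := asI w.flip k (by simpa using h)
  refine ⟨w'.flip, ?_, ?_, fun σ => ?_⟩
  · have := sw_flip (Wd.I w') k
    rw [tw_flip] at h2
    rw [h2, ← this]; rfl
  · have := tw_flip (Wd.I w') k
    rw [sw_flip] at h1
    rw [h1, ← this]; rfl
  · have := Vw_flip (Wd.I w') k σ.swap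
    rw [← Vw_flip w k σ, h3, ← this]; rfl

lemma low (w : Wd) (k : ℕ) (h : sw w k ≤ 1 / q k) :
    1 / q k ≤ tw w k ∧ sw w k * (q k - 1) ≤ 1 - tw w k := by
  obtain ⟨w', h1, h2, -⟩ := asI w k h
  rw [h1, h2]
  refine ⟨I_t _ _, ?_⟩
  rw [sI_eq, tI_eq]
  have a1 := r_pos k
  have a2 := r_half k
  have a3 := r_mul k
  have b := st w' (k + 1)
  have e : 1 / q k * sw w' (k + 1) * (q k - 1) = (1 - 1 / q k) * sw w' (k + 1) := by
    linear_combination (sw w' (k + 1)) * a3
  rw [e]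
  nlinarith

lemma high (w : Wd) (k : ℕ) (h : tw w k ≤ 1 / q k) :
    1 / q k ≤ sw w k ∧ tw w k * (q k - 1) ≤ 1 - sw w k := by
  simpa using low w.flip k (by simpa using h)

lemma HH (w : Wd) (k : ℕ) (hk : 1 ≤ k) (h : 2 / q k ≤ sw w k) :
    tw w k * (q k ^ 2 - 1) ≤ 1 - sw w k ∧ tw w k ≤ 1 / (q k * (q k + 2)) := by
  have a1 := r_pos k
  have a2 := r_half k
  have a3 := r_mul k
  have a4 := r_lt k
  have a5 := q_succ hk
  have a6 := q_ge_three hk
  have e2 : 2 / q k = 2 * (1 / q k) := by ring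
  rw [e2] at h
  obtain ⟨w', h1, h2, -⟩ := asJ w k ((dich w k).resolve_left (by linarith))
  rw [h1, sJ_eq] at h
  rw [h1, h2, sJ_eq, tJ_eq]
  have b0 := s0 w' (k + 1)
  have b1 : 1 / q (k + 1) < sw w' (k + 1) := by nlinarith
  have b2 := (dich w' (k + 1)).resolve_left (by linarith)
  obtain ⟨-, b3⟩ := high w' (k + 1) b2
  have b4 := t0 w' (k + 1)
  constructor
  · have e : 1 / q k * tw w' (k + 1) * (q k ^ 2 - 1) =
        (1 - 1 / q k) * (tw w' (k + 1) * (q k + 1)) := by
      linear_combination (tw w' (k + 1) * (q k + 1)) * a3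
    rw [e]
    have : tw w' (k + 1) * (q k + 1) ≤ 1 - sw w' (k + 1) := by nlinarith
    nlinarith
  · have b5 : 1 / q (k + 1) ≤ 1 / (q k + 2) := one_div_le_one_div_of_le (by linarith) a5
    have e : 1 / (q k * (q k + 2)) = 1 / q k * (1 / (q k + 2)) := by
      rw [one_div_mul_one_div]
    rw [e]
    exact mul_le_mul_of_nonneg_left (b2.trans b5) a1.le

lemma LL (w : Wd) (k : ℕ) (hk : 1 ≤ k) (h : 2 / q k ≤ tw w k) :
    sw w k * (q k ^ 2 - 1) ≤ 1 - tw w k ∧ sw w k ≤ 1 / (q k * (q k + 2)) := by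
  simpa using HH w.flip k hk (by simpa using h)

lemma T1 (w : Wd) (k : ℕ) (h : 1 / q k ^ 2 ≤ sw w k) : (1 - 1 / q k) ^ 2 ≤ 1 - tw w k := by
  have a1 := r_pos k
  have a2 := r_half k
  have a4 := r_lt k
  have e2 : 1 / q k ^ 2 = 1 / q k * (1 / q k) := by rw [one_div_mul_one_div, sq]
  rw [e2] at h
  rcases dich w k with d | d
  · obtain ⟨w', h1, h2, -⟩ := asI w k d
    rw [h1, sI_eq] at h
    rw [h2, tI_eq]
    have b1 := le_of_mul_le_mul_left h a1
    have b2 := (dich w' (k + 1)).resolve_left (by linarith)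
    nlinarith
  · nlinarith

lemma T2 (w : Wd) (k : ℕ) (h : 2 / q k ^ 2 ≤ sw w k) : tw w k ≤ 1 / q k + 1 / q k ^ 2 := by
  have a1 := r_pos k
  have a2 := r_half k
  have a4 := r_lt k
  have a5 := q_succ_one k
  have a6 := q_pos k
  have e2 : 1 / q k ^ 2 = 1 / q k * (1 / q k) := by rw [one_div_mul_one_div, sq]
  have e3 : 2 / q k ^ 2 = 1 / q k * (2 * (1 / q k)) := by
    rw [show 2 / q k ^ 2 = 2 * (1 / q k ^ 2) by ring, e2]; ring
  rw [e3] at h
  rcases dich w k with d | d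
  · obtain ⟨w', h1, h2, -⟩ := asI w k d
    rw [h1, sI_eq] at h
    rw [h2, tI_eq]
    have b1 := le_of_mul_le_mul_left h a1
    have e4 : 2 / q (k + 1) = 2 * (1 / q (k + 1)) := by ring
    obtain ⟨-, b2⟩ := HH w' (k + 1) (by omega) (by rw [e4]; linarith)
    have b3 : 1 / (q (k + 1) * (q (k + 1) + 2)) ≤ 1 / q k ^ 2 :=
      one_div_le_one_div_of_le (by positivity) (by nlinarith)
    have b4 := t0 w' (k + 1)
    nlinarith
  · rw [e2]; nlinarith

lemma LLphi (w : Wd) (k : ℕ) (hk : 1 ≤ k) (h : 1 - tw w k < (1 - 1 / q k) ^ 2) :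
    sw w k * (q k ^ 2 - 1) ≤ 1 - tw w k := by
  have a1 := r_pos k
  have a2 := r_half k
  have a3 := r_mul k
  have a4 := r_lt k
  have a5 := q_succ hk
  obtain ⟨w', h1, h2, -⟩ := asI w k ((dich w k).resolve_right (by nlinarith))
  rw [h2, tI_eq] at h
  rw [h1, h2, sI_eq, tI_eq]
  have b1 : 1 / q k < tw w' (k + 1) := by nlinarith
  obtain ⟨-, b3⟩ := low w' (k + 1) ((dich w' (k + 1)).resolve_right (by linarith))
  have b4 := s0 w' (k + 1)
  have e : 1 / q k * sw w' (k + 1) * (q k ^ 2 - 1) =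
      (1 - 1 / q k) * (sw w' (k + 1) * (q k + 1)) := by
    linear_combination (sw w' (k + 1) * (q k + 1)) * a3
  rw [e]
  have : sw w' (k + 1) * (q k + 1) ≤ 1 - tw w' (k + 1) := by nlinarith
  nlinarith

lemma kap_le (w : Wd) : ∀ k, 1 ≤ k → kap w k * (q k - 2) ≤ 1 - tw w k := by
  induction w with
  | bot => intro k _; simp [kap, tw]
  | top => intro k _; simp [kap, tw]
  | I w ih =>
    intro k hk
    have a1 := r_pos k
    have a3 := r_mul k
    have a5 := q_succ hk
    have a6 := q_ge_three hk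
    have b1 := ih (k + 1) (by omega)
    have b2 := k0 w (k + 1)
    have b3 := st w (k + 1)
    have b4 := t1 w (k + 1)
    have b5 : kap w (k + 1) * q k ≤ 1 - tw w (k + 1) := by nlinarith
    have e : kap (.I w) k * (q k - 2) = 1 / q k * (1 / q k *
        ((sw w (k + 1) * q k + kap w (k + 1) * q k) * (q k - 2))) := by
      simp only [kap]; field_simp
    have e' : 1 - tw (.I w) k = 1 / q k * (1 / q k *
        ((1 - tw w (k + 1)) * (q k * (q k - 1)))) := by
      rw [tI_eq]; field_simp; ring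
    rw [e, e']
    refine mul_le_mul_of_nonneg_left (mul_le_mul_of_nonneg_left ?_ a1.le) a1.le
    have b6 : sw w (k + 1) * q k + kap w (k + 1) * q k ≤ (1 - tw w (k + 1)) * (q k + 1) := by
      nlinarith
    have b7 := mul_le_mul_of_nonneg_right b6 (by linarith : 0 ≤ q k - 2)
    nlinarith
  | J w ih =>
    intro k hk
    have a1 := r_pos k
    have a3 := r_mul k
    have a5 := q_succ hk
    have a6 := q_ge_three hk
    have b1 := ih (k + 1) (by omega)
    have b2 := k0 w (k + 1)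
    have b5 : tw w (k + 1) + kap w (k + 1) ≤ 1 := by nlinarith
    have b6 := J_t w k
    have e : kap (.J w) k = 1 / q k * (tw w (k + 1) + kap w (k + 1)) := by
      simp only [kap]; ring
    have b7 : kap (.J w) k ≤ 1 / q k := by rw [e]; nlinarith
    have b8 := mul_le_mul_of_nonneg_right b7 (by linarith : 0 ≤ q k - 2)
    nlinarith

end Bw1

theorem t_BW1 : BW1 :=
  ⟨Bw1.s0, Bw1.t0, Bw1.st, Bw1.k0, Bw1.ord, Bw1.dich, Bw1.asI, Bw1.asJ, Bw1.low, Bw1.high,
    Bw1.HH, Bw1.LL, Bw1.T1, Bw1.T2, Bw1.LLphi, Bw1.kap_le⟩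

end Pool.Agent.P.MP_e86632_nt.Lex
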