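import Pool.Agent.P.MP_e86632_nt.Lex.Iface

/-! Invariants of the states. -/

namespace Pool.Agent.P.MP_e86632_nt.Lex

namespace Bw2

lemma usum {k : ℕ} {σ : St} {m : ℝ} (h : Ok k σ) (hm : m ≤ mw σ k) (F : Finset ℕ)
    (h1 : ∀ j ∈ F, k + 1 ≤ j) (h2 : ∀ i ∈ F, ∀ j ∈ F, pr i ≡ pr j [MOD σ.MS] → i = j) :
    ∑ j ∈ F, (if pr j ≡ pr k [MOD σ.MS] then σ.u (pr j) - m else σ.u (pr j)) ≤ σ.WS - m := by
  by_cases he : ∃ j0 ∈ F, pr j0 ≡ pr k [MOD σ.MS]
  · obtain ⟨j0, hj0, e0⟩ := he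
    have h3 := h.usum F (fun j hj => by have := h1 j hj; omega) h2
    rw [← Finset.add_sum_erase _ _ hj0] at h3 ⊢
    rw [if_pos e0, Finset.sum_congr rfl fun j hj => if_neg fun e => (Finset.ne_of_mem_erase hj)
      (h2 j (Finset.mem_of_mem_erase hj) j0 hj0 (e.trans e0.symm))]
    linarith
  · push Not at he
    have hk : k ∉ F := fun hk => by have := h1 k hk; omega
    have h3 := h.usum (insert k F) (fun j hj => by
      rcases Finset.mem_insert.1 hj with rfl | hj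
      · exact le_rfl
      · have := h1 j hj; omega) fun i hi j hj e => by
      rcases Finset.mem_insert.1 hi with e1 | hi' <;> rcases Finset.mem_insert.1 hj with e2 | hj'
      · rw [e1, e2]
      · exact absurd (e1 ▸ e.symm) (he j hj')
      · exact absurd (e2 ▸ e) (he i hi')
      · exact h2 i hi' j hj' e
    rw [Finset.sum_insert hk] at h3
    rw [Finset.sum_congr rfl fun j hj => if_neg (he j hj)]
    have h4 : m ≤ σ.u (pr k) := hm.trans (min_le_left _ _)
    linarith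

lemma vsum {k : ℕ} {σ : St} (h : Ok k σ) (F : Finset ℕ) (h1 : ∀ j ∈ F, k + 1 ≤ j)
    (h2 : ∀ i ∈ F, ∀ j ∈ F, pr i ≡ pr j [MOD σ.MT * pr k] → i = j) :
    ∑ j ∈ F, σ.v (pr j) ≤ ((pr k : ℝ) - 1) * σ.WT := by
  have hp := (pr_prime k).pos
  have hm : ∀ j ∈ F, pr j % pr k ∈ (Finset.range (pr k)).erase 0 := fun j hj => by
    refine Finset.mem_erase.2 ⟨fun e => ?_, Finset.mem_range.2 (Nat.mod_lt _ hp)⟩
    have := pr_inj ((Nat.prime_dvd_prime_iff_eq (pr_prime k) (pr_prime j)).1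
      (Nat.dvd_of_mod_eq_zero e))
    have := h1 j hj
    omega
  rw [← Finset.sum_fiberwise_of_maps_to hm]
  refine (Finset.sum_le_card_nsmul _ _ σ.WT fun r _ => ?_).trans (le_of_eq ?_)
  · refine h.vsum _ (fun j hj => ?_) fun i hi j hj e => ?_
    · have := h1 j (Finset.mem_filter.1 hj).1
      omega
    · obtain ⟨hi1, hi2⟩ := Finset.mem_filter.1 hi
      obtain ⟨hj1, hj2⟩ := Finset.mem_filter.1 hj
      exact h2 i hi1 j hj1 ((Nat.modEq_and_modEq_iff_modEq_mul (h.cT k le_rfl)).1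
        ⟨e, hi2.trans hj2.symm⟩)
  · rw [Finset.card_erase_of_mem (Finset.mem_range.2 hp), Finset.card_range, nsmul_eq_mul,
      Nat.cast_sub hp, Nat.cast_one]

lemma okI (k : ℕ) (σ : St) (m : ℝ) (h : Ok k σ) (hm : m ≤ mw σ k) :
    Ok (k + 1) (σ.stepI (pr k) m) := by
  refine ⟨fun j hj => h.cS j (by omega), fun j hj => ?_, fun j hj => ?_,
    fun j hj => h.v0 j (by omega), fun i j hi hj e => ?_,
    fun i j hi hj e => h.vper i j (by omega) (by omega) (Nat.ModEq.of_mul_right _ e),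
    usum h hm, vsum h⟩
  · exact Nat.Coprime.mul_left (h.cT j (by omega)) (pr_coprime (by omega))
  · change 0 ≤ if pr j ≡ pr k [MOD σ.MS] then σ.u (pr j) - m else σ.u (pr j)
    split_ifs with e
    · rw [h.uper j k (by omega) le_rfl e]
      exact sub_nonneg.2 (hm.trans (min_le_left _ _))
    · exact h.u0 j (by omega)
  · have e' : pr i ≡ pr j [MOD σ.MS] := e
    change (if pr i ≡ pr k [MOD σ.MS] then σ.u (pr i) - m else σ.u (pr i)) =
      if pr j ≡ pr k [MOD σ.MS] then σ.u (pr j) - m else σ.u (pr j)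
    rw [h.uper i j (by omega) (by omega) e']
    exact if_congr ⟨fun e1 => e'.symm.trans e1, fun e1 => e'.trans e1⟩ rfl rfl

lemma mbI (k : ℕ) (σ : St) (m m' : ℝ) (h : MB k σ m) (h0 : 0 ≤ m') :
    MB (k + 1) (σ.stepI (pr k) m') m := fun j hj => by
  refine le_trans (min_le_min ?_ le_rfl) (h j (by omega))
  change (if pr j ≡ pr k [MOD σ.MS] then σ.u (pr j) - m' else σ.u (pr j)) ≤ σ.u (pr j)
  split_ifs
  · linarith
  · exact le_rfl

lemma hypI (k : ℕ) (fl : Bool) (σ : St) (m : ℝ) (hk : 1 ≤ k) (h : Hyp k fl σ)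
    (hm : m ≤ mw σ k) : Hyp (k + 1) false (σ.stepI (pr k) m) := by
  obtain ⟨h1, -, h3, h4⟩ := h
  have ho := okI k σ m h1 hm
  refine ⟨ho, ⟨min (σ.WS - m) σ.WT, fun j hj => le_min (ho.mw_WS hj) ?_, ?_, ?_⟩,
    fun hk2 j hj => ?_, fun hk1 => by omega⟩
  · exact (min_le_right _ _).trans (h1.v_le (j := j) (by omega))
  · simp only [NS, Bool.false_eq_true, if_false, one_mul]
    exact min_le_left _ _
  · simp only [NT, Bool.false_eq_true, if_false, Nat.add_sub_cancel]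
    exact mul_le_mul_of_nonneg_left (min_le_right _ _) (by linarith [q_ge_two k])
  · obtain rfl : k = 1 := by omega
    have hd := (h4 le_rfl).1
    have a1 := h3 (by omega) j (by omega)
    have a2 := h3 (by omega) (1 + 1) (by omega)
    refine ⟨ho.uper j (1 + 1) hj le_rfl ?_, a1.2.trans a2.2.symm⟩
    exact Nat.ModEq.of_dvd hd (pr_modEq_two (by omega) (by omega))

end Bw2

theorem t_BW2 : BW2 where
  okI k σ m h _ hm := Bw2.okI k σ m h hm
  okJ k σ m h _ hm := (Bw2.okI k σ.swap m h.swap (by rwa [mw_swap])).swap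
  mbI := Bw2.mbI
  mbJ k σ m m' h h0 := (Bw2.mbI k σ.swap m m' h.swap h0).swap
  hypI k fl σ m hk h _ hm := Bw2.hypI k fl σ m hk h hm

end Pool.Agent.P.MP_e86632_nt.Lex
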