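import Pool.Agent.P.MP_e86632_nt.Lex.Iface

/-! Values of words: upper and lower bounds, and the elementary steps. -/

namespace Pool.Agent.P.MP_e86632_nt.Lex

namespace Bw3

lemma fin (k : ℕ) {x y a b : ℝ} (h : a ≤ b) (hx : x = a / q k) (hy : y = b / q k) : x ≤ y :=
  hx ▸ hy ▸ div_le_div_of_nonneg_right h (q_pos k).le

variable (B1 : BW1) (B2 : BW2)
include B2

lemma okI {k : ℕ} {σ : St} (h : Ok k σ) : Ok (k + 1) (sI σ k) :=
  B2.okI k σ _ h (h.mw0 le_rfl) le_rfl
lemma okJ {k : ℕ} {σ : St} (h : Ok k σ) : Ok (k + 1) (sJ σ k) :=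
  B2.okJ k σ _ h (h.mw0 le_rfl) le_rfl
lemma mbI {k : ℕ} {σ : St} {m : ℝ} (h : Ok k σ) (hm : MB k σ m) : MB (k + 1) (sI σ k) m :=
  B2.mbI k σ m _ hm (h.mw0 le_rfl)
lemma mbJ {k : ℕ} {σ : St} {m : ℝ} (h : Ok k σ) (hm : MB k σ m) : MB (k + 1) (sJ σ k) m :=
  B2.mbJ k σ m _ hm (h.mw0 le_rfl)

include B1

lemma ret (w : Wd) : ∀ k σ, Ok k σ →
    Vw w k σ ≤ σ.WS * sw w k + σ.WT * tw w k - mw σ k * min (sw w k) (tw w k) := by
  induction w with
  | bot => intro k σ _; simp [Vw, sw, tw]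
  | top => intro k σ _; simp [Vw, sw, tw]
  | I w ih =>
    intro k σ h
    have h0 := (q_pos k).ne'
    have h1 := ih _ _ (okI B2 h)
    have h2 := mul_nonneg ((okI B2 h).mw0 le_rfl) (le_min (B1.s0 w (k + 1)) (B1.t0 w (k + 1)))
    rw [sI_WS, sI_WT] at h1
    refine le_trans ?_ (sub_le_sub_left
      (mul_le_mul_of_nonneg_left (min_le_left _ _) (h.mw0 le_rfl)) _)
    refine fin k (b := σ.WT + (σ.WS - mw σ k) * sw w (k + 1) + (q k - 1) * σ.WT * tw w (k + 1))
      (by linarith) rfl ?_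
    simp only [sw, tw]
    field_simp
    ring
  | J w ih =>
    intro k σ h
    have h0 := (q_pos k).ne'
    have h1 := ih _ _ (okJ B2 h)
    have h2 := mul_nonneg ((okJ B2 h).mw0 le_rfl) (le_min (B1.s0 w (k + 1)) (B1.t0 w (k + 1)))
    rw [sJ_WS, sJ_WT] at h1
    refine le_trans ?_ (sub_le_sub_left
      (mul_le_mul_of_nonneg_left (min_le_right _ _) (h.mw0 le_rfl)) _)
    refine fin k (b := σ.WS + (q k - 1) * σ.WS * sw w (k + 1) + (σ.WT - mw σ k) * tw w (k + 1))
      (by linarith) rfl ?_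
    simp only [sw, tw]
    field_simp
    ring

lemma up (w : Wd) (k : ℕ) (σ : St) (h : Ok k σ) : Vw w k σ ≤ σ.WS * sw w k + σ.WT * tw w k :=
  (ret B1 B2 w k σ h).trans
    (sub_le_self _ (mul_nonneg (h.mw0 le_rfl) (le_min (B1.s0 w k) (B1.t0 w k))))

lemma lo (w : Wd) : ∀ k σ m, Ok k σ → MB k σ m →
    σ.WS * sw w k + σ.WT * tw w k - m * kap w k ≤ Vw w k σ := by
  induction w with
  | bot => intro k σ m _ _; simp [Vw, sw, tw, kap]
  | top => intro k σ m _ _; simp [Vw, sw, tw, kap]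
  | I w ih =>
    intro k σ m h hm
    have h0 := (q_pos k).ne'
    have h1 := ih _ _ m (okI B2 h) (mbI B2 h hm)
    have h2 := mul_le_mul_of_nonneg_right (hm k le_rfl) (B1.s0 w (k + 1))
    rw [sI_WS, sI_WT] at h1
    refine fin k (a := σ.WT + (σ.WS - m) * sw w (k + 1) + (q k - 1) * σ.WT * tw w (k + 1) -
      m * kap w (k + 1)) (by linarith) ?_ rfl
    simp only [sw, tw, kap]
    field_simp
    ring
  | J w ih =>
    intro k σ m h hm
    have h0 := (q_pos k).ne'
    have h1 := ih _ _ m (okJ B2 h) (mbJ B2 h hm)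
    have h2 := mul_le_mul_of_nonneg_right (hm k le_rfl) (B1.t0 w (k + 1))
    rw [sJ_WS, sJ_WT] at h1
    refine fin k (a := σ.WS + (q k - 1) * σ.WS * sw w (k + 1) + (σ.WT - m) * tw w (k + 1) -
      m * kap w (k + 1)) (by linarith) ?_ rfl
    simp only [sw, tw, kap]
    field_simp
    ring

end Bw3

open Bw3 in
theorem t_BW3 (B1 : BW1) (B2 : BW2) : BW3 where
  up := up B1 B2
  ret := ret B1 B2
  lo := lo B1 B2
  refl k a := ⟨le_rfl, le_rfl, by simp, le_rfl, fun σ m _ _ => by simp⟩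
  gen k a a' h := ⟨by linarith, B1.k0 _ _, by linarith, (B1.ord _ _ _).1 h, fun σ m ho hm => by
    have h1 := up B1 B2 a k σ ho
    have h2 := lo B1 B2 a' k σ m ho hm
    linarith⟩
  stepI k a a' ξ κ := fun ⟨a1, a2, a3, a4, a5⟩ => by
    have h0 := q_pos k
    have h2 := q_ge_two k
    refine ⟨by positivity, by positivity, fin k a3 (add_div _ _ _).symm rfl,
      fin k (a := 1 + (q k - 1) * tw a' (k + 1)) (b := 1 + (q k - 1) * tw a (k + 1))
        (by nlinarith) ?_ ?_, fun σ m ho hm => ?_⟩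
    · simp only [tw]
      field_simp
    · simp only [tw]
      field_simp
    · have h3 := a5 _ m (okI B2 ho) (mbI B2 ho hm)
      have h4 := mul_le_mul_of_nonneg_right (hm k le_rfl) a1
      rw [sI_WS, sI_WT] at h3
      refine fin k (a := σ.WT + Vw a (k + 1) (sI σ k) -
        (q k - 1) * σ.WT * (tw a (k + 1) - tw a' (k + 1)) + (σ.WS - m) * ξ - m * κ)
        (by linarith) ?_ rfl
      simp only [Vw, tw]
      field_simp
      ring
  stepJ k a a' ξ κ := fun ⟨a1, a2, a3, a4, a5⟩ => by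
    have h0 := q_pos k
    have h2 : 0 ≤ q k - 1 := by linarith [q_ge_two k]
    refine ⟨by positivity, by positivity,
      fin k (a := 1 + (q k - 1) * (sw a (k + 1) + ξ)) (b := 1 + (q k - 1) * sw a' (k + 1))
        (by gcongr) ?_ ?_, fin k a4 rfl rfl, fun σ m ho hm => ?_⟩
    · simp only [sw]
      field_simp
      ring
    · simp only [sw]
      field_simp
    · have h3 := a5 _ m (okJ B2 ho) (mbJ B2 ho hm)
      have h4 := mul_nonneg (ho.mw0 le_rfl) (sub_nonneg.2 a4)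
      rw [sJ_WS, sJ_WT] at h3
      refine fin k (a := σ.WS + Vw a (k + 1) (sJ σ k) -
        σ.WT * (tw a (k + 1) - tw a' (k + 1)) + (q k - 1) * σ.WS * ξ - m * κ)
        (by linarith) ?_ rfl
      simp only [Vw, tw]
      field_simp
  branch k a b := by
    have h0 := q_pos k
    have h2 : 0 ≤ q k - 1 := by linarith [q_ge_two k]
    have s0 := B1.s0 b (k + 1)
    have k0 := B1.k0 b (k + 1)
    have t0 := B1.t0 a (k + 1)
    have s1 : sw a (k + 1) ≤ 1 := by linarith [B1.st a (k + 1)]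
    have t1 : tw b (k + 1) ≤ 1 := by linarith [B1.st b (k + 1)]
    refine ⟨by positivity, by positivity,
      fin k (a := sw a (k + 1) + (q k - 1) * sw b (k + 1)) (b := 1 + (q k - 1) * sw b (k + 1))
        (by linarith) (add_div _ _ _).symm ?_,
      fin k (b := 1 + (q k - 1) * tw a (k + 1)) (by linarith [mul_nonneg h2 t0]) rfl ?_,
      fun σ m ho hm => ?_⟩
    · simp only [sw]
      field_simp
    · simp only [tw]
      field_simp
    · have h3 := up B1 B2 a _ _ (okI B2 ho)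
      have h4 := lo B1 B2 b _ _ m (okJ B2 ho) (mbJ B2 ho hm)
      have h5 := mul_le_mul_of_nonneg_left s1 (sub_nonneg.2 (ho.mw_WS le_rfl))
      have h6 := mul_le_mul_of_nonneg_left t1 (ho.mw0 le_rfl)
      rw [sI_WS, sI_WT] at h3
      rw [sJ_WS, sJ_WT] at h4
      refine fin k (a := Vw a (k + 1) (sI σ k) - (q k - 1) * σ.WT * tw a (k + 1) +
        σ.WT * tw b (k + 1) + (q k - 1) * σ.WS * sw b (k + 1) - m * kap b (k + 1))
        (by linarith) ?_ rfl
      simp only [Vw, tw]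
      field_simp
      ring

end Pool.Agent.P.MP_e86632_nt.Lex
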