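import Pool.Agent.P.MP_e86632_nt.Lex.Iface

/-! The two ways of finishing a one-level lemma. -/

namespace Pool.Agent.P.MP_e86632_nt.Lex

namespace Bw4

lemma Cc_le (k : ℕ) : Cc k ≤ 1 := by
  have := q_ge_two k
  have h : 0 ≤ 1 / (2 * (q k - 2)) := div_nonneg zero_le_one (by linarith)
  unfold Cc
  split_ifs <;> linarith

lemma q_sw (g : Wd) (k : ℕ) : q k * sw (.I g) k = sw g (k + 1) := by
  have := (q_pos k).ne'
  simp only [sw]
  field_simp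

lemma q_tw (g : Wd) (k : ℕ) : q k * tw (.I g) k = 1 + (q k - 1) * tw g (k + 1) := by
  have := (q_pos k).ne'
  simp only [tw]
  field_simp

lemma q_Vw (g : Wd) (k : ℕ) (σ : St) : q k * Vw (.I g) k σ = σ.WT + Vw g (k + 1) (sI σ k) := by
  have := (q_pos k).ne'
  simp only [Vw]
  field_simp

lemma fin {m x A B NS NT WS WT : ℝ} (hm : 0 ≤ m) (hA : 0 ≤ A) (hB : 0 ≤ B) (h1 : NS * m ≤ WS)
    (h2 : NT * m ≤ WT) (h : x ≤ NS * A + NT * B) : m * x ≤ WS * A + WT * B := by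
  have a1 := mul_le_mul_of_nonneg_left h hm
  have a2 := mul_le_mul_of_nonneg_right h1 hA
  have a3 := mul_le_mul_of_nonneg_right h2 hB
  linarith

lemma red (B2 : BW2) {k : ℕ} {fl : Bool} {e1 g : Wd} {ξ κ b c sav : ℝ}
    (hs : Step (k + 1) e1 g ξ κ) (h0 : 0 ≤ sav) (h1 : (q k - 1) * b ≤ ξ)
    (h2 : (q k - 1) * (tw e1 (k + 1) - tw g (k + 1)) ≤ 1 - c)
    (h3 : sav + ξ + κ ≤ NS k fl * (ξ - (q k - 1) * b) +
      NT k fl * (1 - c - (q k - 1) * (tw e1 (k + 1) - tw g (k + 1)))) :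
    Tgt k e1 b c (.I g) ∧ ∀ σ X, Hyp k fl σ →
      X ≤ Vw e1 (k + 1) (sI σ k) + (q k - 1) * σ.WS * b + σ.WT * c + mw σ k * sav →
      X ≤ q k * Vw (.I g) k σ := by
  obtain ⟨a1, a2, a3, -, a5⟩ := hs
  refine ⟨⟨by rw [q_sw]; linarith, by rw [q_tw]; linarith⟩, ?_⟩
  rintro σ X ⟨ho, ⟨m, hm, hS, hT⟩, -⟩ hX
  have m0 := ho.mw0 le_rfl
  have b1 := a5 (sI σ k) m (B2.okI k σ _ ho m0 le_rfl) (B2.mbI k σ m _ hm m0)
  have b2 := fin (hm.nonneg ho) (sub_nonneg.2 h1) (sub_nonneg.2 h2) hS hT h3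
  have b3 := mul_le_mul_of_nonneg_right (hm k le_rfl) (add_nonneg h0 a1)
  rw [sI_WS, sI_WT] at b1
  rw [q_Vw]
  linarith

end Bw4

open Bw4 in
theorem t_BW4 (B1 : BW1) (B2 : BW2) (B3 : BW3) : BW4 := by
  refine ⟨fun k fl e1 e2 g ξ κ hs h1 h2 h3 => ?_, fun k fl e1 e2 g ξ κ hs h1 h2 h3 => ?_,
    fun k fl e1 e2 h1 h2 h3 => ?_⟩
  · have a1 := B1.s0 e1 (k + 1)
    have a2 := B1.t0 e1 (k + 1)
    have a3 := B1.st e1 (k + 1)
    have a4 := B1.s0 e2 (k + 1)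
    have a5 := B1.st e2 (k + 1)
    have a6 := mul_le_mul_of_nonneg_right (Cc_le (k + 1)) (by linarith : 0 ≤ 1 - sw e1 (k + 1))
    obtain ⟨r1, r2⟩ := red B2 hs (mul_nonneg (by linarith) (by linarith)) h1 h2 h3
    refine ⟨_, r1, fun σ X hh hX => r2 σ X hh ?_⟩
    unfold FIc at hX
    linarith
  · obtain ⟨r1, r2⟩ := red B2 hs (B1.s0 e1 (k + 1)) h1 h2 h3
    refine ⟨_, r1, fun σ X hh _ hX _ => r2 σ X hh ?_⟩
    unfold FIu at hX
    linarith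
  · refine ⟨.I .top, ⟨by rw [q_sw]; exact h1, by rw [q_tw]; simpa [tw] using h2⟩, ?_⟩
    rintro σ X ⟨ho, ⟨m, hm, hS, hT⟩, hc, -⟩ - - hX
    have m0 := ho.mw0 le_rfl
    have o1 : Ok (k + 1) (sI0 σ k) := B2.okI k σ 0 ho le_rfl m0
    have b2 := fin (hm.nonneg ho) (by linarith) (by linarith) hS hT h3
    have a1 := B1.t0 e1 (k + 1)
    have a2 := B1.st e1 (k + 1)
    unfold FI0 at hX
    rw [q_Vw]
    simp only [Vw, sI_WS]
    split_ifs at b2 with hk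
    · have b1 := B3.ret e1 (k + 1) _ o1
      have e : mw σ (k + 1) = mw σ k := by
        obtain ⟨c1, c2⟩ := hc hk (k + 1) k.le_succ
        simp only [mw, St.m, c1, c2]
      rw [mw_sI0, e, sI0_WS, sI0_WT] at b1
      have b3 := mul_le_mul_of_nonneg_right (hm k le_rfl)
        (by linarith [min_le_left (sw e1 (k + 1)) (tw e1 (k + 1))] :
          0 ≤ 1 - min (sw e1 (k + 1)) (tw e1 (k + 1)))
      linarith
    · have b1 := B3.up e1 (k + 1) _ o1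
      rw [sI0_WS, sI0_WT] at b1
      linarith [hm k le_rfl]

end Pool.Agent.P.MP_e86632_nt.Lex
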