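import Pool.Agent.P.MP_e86632_nt.Lex.Iface

namespace Pool.Agent.P.MP_e86632_nt.Lex

open Finset

namespace Cor

lemma profile {n k : ℕ} (S : Set (Gam (n + 1) k)) (v : ZMod (pr k)) :
    (q k - 1) * ms (sec (Nb S) v) ≤ q k * ms (Nb S) := by
  classical
  rw [ms_succ]
  simp only [sec_Nb, ms]
  rw [← mu_mul, ← mu_sum]
  refine mu_mono fun y => ?_
  by_cases hy : y ∈ Nb (oth S v)
  · obtain ⟨x, ⟨w, -, hx⟩, hd⟩ := hy
    have h1 : ∑ v' ∈ univ.erase w, ind (Nb (oth S v')) y = q k - 1 := by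
      rw [sum_congr rfl fun v' hv' =>
        ind_mem (S := Nb (oth S v')) ⟨x, ⟨w, (mem_erase.1 hv').1.symm, hx⟩, hd⟩]
      rw [sum_const, card_erase_of_mem (mem_univ w), card_univ, nsmul_eq_mul, mul_one,
        Nat.cast_sub Fintype.card_pos, card_zmod, Nat.cast_one]
    have h2 : ∑ v' ∈ univ.erase w, ind (Nb (oth S v')) y ≤ ∑ v', ind (Nb (oth S v')) y :=
      sum_le_sum_of_subset_of_nonneg (subset_univ _) fun _ _ _ => ind_nonneg _ _
    have h3 := ind_le_one (Nb (oth S v)) y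
    have h4 := q_ge_two k
    nlinarith
  · rw [ind_not hy, mul_zero]
    exact sum_nonneg fun _ _ => ind_nonneg _ _

lemma step {n k : ℕ} (C : ℝ)
    (ih : ∀ (S T : Set (Gam n (k + 1))) (c : Gam n (k + 1)),
      C * ms (Nb S) * ms (Nb T) ≤ ms {x | x ∈ Nb S ∧ x + c ∈ Nb T})
    (S T : Set (Gam (n + 1) k)) (c : Gam (n + 1) k) :
    C * ∑ v, ms (sec (Nb S) v) * ms (sec (Nb T) (v + hd c)) ≤
      q k * ms {x | x ∈ Nb S ∧ x + c ∈ Nb T} := by
  rw [ms_succ, mul_sum]
  refine sum_le_sum fun v _ => ?_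
  have e : sec {x | x ∈ Nb S ∧ x + c ∈ Nb T} v =
      {y | y ∈ Nb (oth S v) ∧ y + tl c ∈ Nb (oth T (v + hd c))} := by
    rw [← sec_Nb, ← sec_Nb]
    rfl
  rw [e, sec_Nb, sec_Nb, ← mul_assoc]
  exact ih _ _ _

lemma shift {n k : ℕ} (T : Set (Gam (n + 1) k)) (a : ZMod (pr k)) :
    ∑ v, ms (sec T (v + a)) = q k * ms T := by
  rw [ms_succ]
  exact Equiv.sum_comp (Equiv.addRight a) fun v => ms (sec T v)

lemma cc_facts {k : ℕ} (hk : 1 ≤ k) : 0 ≤ Cc k ∧ Cc k ≤ 1 ∧
    Cc k * (q k - 1) ^ 2 ≤ Cc (k + 1) * (q k * (q k - 2)) := by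
  obtain rfl | rfl | rfl | h : k = 1 ∨ k = 2 ∨ k = 3 ∨ 4 ≤ k := by omega
  · rw [Cc_one, Cc_two, q_one]; norm_num
  · rw [Cc_two, Cc_three, q_two]; norm_num
  · rw [Cc_three, Cc_ge le_rfl, q_three, q_four]; norm_num
  · rw [Cc_ge h, Cc_ge (k := k + 1) (by omega)]
    have h1 := q_ge_eleven h
    have h2 := q_succ hk
    set p := q k
    set r := q (k + 1)
    have a1 : 1 / (2 * (p - 2)) ≤ 1 := by
      rw [div_le_one (by linarith)]; linarith
    have a0 : 0 ≤ 1 / (2 * (p - 2)) := div_nonneg zero_le_one (by linarith)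
    refine ⟨by linarith, by linarith, ?_⟩
    have a2 : 1 / (2 * (r - 2)) ≤ 1 / (2 * p) :=
      one_div_le_one_div_of_le (by linarith) (by linarith)
    have a3 : (1 - 1 / (2 * p)) * (p * (p - 2)) ≤ (1 - 1 / (2 * (r - 2))) * (p * (p - 2)) :=
      mul_le_mul_of_nonneg_right (by linarith) (by nlinarith)
    refine le_trans ?_ a3
    have e1 : (1 - 1 / (2 * p)) * (p * (p - 2)) = (p - 1 / 2) * (p - 2) := by
      have : p ≠ 0 := by linarith
      field_simp
    have e2 : (1 - 1 / (2 * (p - 2))) * (p - 1) ^ 2 =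
        (p - 1) ^ 2 - p / 2 - 1 / (2 * (p - 2)) := by
      have : p - 2 ≠ 0 := by linarith
      field_simp
      ring
    rw [e1, e2]
    nlinarith

end Cor

theorem t_COR : S_COR := by
  intro n
  induction n with
  | zero =>
    intro k S T c hk
    obtain ⟨h0, h1, -⟩ := Cor.cc_facts hk
    simp only [ms]
    rw [mu_zero _ c, mu_zero _ c, mu_zero _ c]
    by_cases hS : c ∈ Nb S
    · by_cases hT : c ∈ Nb T
      · rw [ind_mem hS, ind_mem hT, ind_mem (S := {x | x ∈ Nb S ∧ x + c ∈ Nb T}) ⟨hS, hT⟩]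
        linarith
      · rw [ind_not hT, mul_zero]
        exact ind_nonneg _ _
    · rw [ind_not hS, mul_zero, zero_mul]
      exact ind_nonneg _ _
  | succ n ih =>
    intro k S T c hk
    obtain ⟨h0, -, h2⟩ := Cor.cc_facts hk
    obtain ⟨h0', -, -⟩ := Cor.cc_facts (k := k + 1) (by omega)
    have st := Cor.step (Cc (k + 1)) (fun S T c => ih (k + 1) S T c (by omega)) S T c
    have hq := q_ge_three hk
    set p := q k with hp
    set a := ms (Nb S) with ha
    set b := ms (Nb T) with hb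
    have a0 : 0 ≤ a := ms_nonneg _
    have b0 : 0 ≤ b := ms_nonneg _
    have hE : ∑ v, ms (sec (Nb S) v) = p * a := (ms_succ _).symm
    have hF : ∑ v, ms (sec (Nb T) (v + hd c)) = p * b := Cor.shift _ _
    have key : 0 ≤ ∑ v, (p * a - (p - 1) * ms (sec (Nb S) v)) *
        (p * b - (p - 1) * ms (sec (Nb T) (v + hd c))) :=
      sum_nonneg fun v _ => mul_nonneg (sub_nonneg.2 (Cor.profile S v))
        (sub_nonneg.2 (Cor.profile T _))
    have ex : ∑ v, (p * a - (p - 1) * ms (sec (Nb S) v)) *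
        (p * b - (p - 1) * ms (sec (Nb T) (v + hd c))) =
        ∑ v, (p * a * (p * b) - (p - 1) * (p * b) * ms (sec (Nb S) v) -
          (p - 1) * (p * a) * ms (sec (Nb T) (v + hd c)) +
          (p - 1) ^ 2 * (ms (sec (Nb S) v) * ms (sec (Nb T) (v + hd c)))) :=
      sum_congr rfl fun v _ => by ring
    rw [ex, sum_add_distrib, sum_sub_distrib, sum_sub_distrib, sum_const, ← mul_sum, ← mul_sum,
      ← mul_sum, hE, hF, card_univ, nsmul_eq_mul, card_zmod, ← hp] at key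
    set G := ∑ v, ms (sec (Nb S) v) * ms (sec (Nb T) (v + hd c)) with hG
    set M := ms {x | x ∈ Nb S ∧ x + c ∈ Nb T} with hM
    have k1 : p * (p * (p - 2)) * (a * b) ≤ (p - 1) ^ 2 * G := by nlinarith
    have k2 : Cc (k + 1) * (p * (p * (p - 2)) * (a * b)) ≤ Cc (k + 1) * ((p - 1) ^ 2 * G) :=
      mul_le_mul_of_nonneg_left k1 h0'
    have k3 : (p - 1) ^ 2 * (Cc (k + 1) * G) ≤ (p - 1) ^ 2 * (p * M) :=
      mul_le_mul_of_nonneg_left st (by positivity)
    have k4 : p * (a * b) * (Cc k * (p - 1) ^ 2) ≤ p * (a * b) * (Cc (k + 1) * (p * (p - 2))) :=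
      mul_le_mul_of_nonneg_left h2 (by positivity)
    have k5 : (p * (p - 1) ^ 2) * (Cc k * a * b) ≤ (p * (p - 1) ^ 2) * M := by nlinarith
    have hpos : 0 < p * (p - 1) ^ 2 := by
      have : 0 < p - 1 := by linarith
      positivity
    exact le_of_mul_le_mul_left k5 hpos

theorem t_COR3 : S_COR3 := by
  intro n S T c h
  have st := Cor.step (k := 1) (Cc 2) (fun S T c => t_COR n 2 S T c (by omega)) S T c
  have hc : Cc 2 = 43 / 50 := Cc_two
  have hF : ∑ v, ms (sec (Nb T) (v + hd c)) = q 1 * ms (Nb T) := Cor.shift _ _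
  have hp := fun v => Cor.profile T (v + hd c)
  rw [q_one] at st hF hp
  rw [hc] at st
  obtain ⟨w, hw0, hw1, hs⟩ := three 0 1 zero_ne_one
  rw [hs] at st hF
  have p0 := hp 0
  have p1 := hp 1
  have p2 := hp w
  have h01 := h 0 1 zero_ne_one
  have h0w := h 0 w hw0.symm
  have h1w := h 1 w hw1.symm
  set f0 := ms (sec (Nb S) 0)
  set f1 := ms (sec (Nb S) 1)
  set f2 := ms (sec (Nb S) w)
  set e0 := ms (sec (Nb T) (0 + hd c))
  set e1 := ms (sec (Nb T) (1 + hd c))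
  set e2 := ms (sec (Nb T) (w + hd c))
  set b := ms (Nb T)
  have g0 : 0 ≤ e1 + e2 - e0 := by linarith
  have g1 : 0 ≤ e0 + e2 - e1 := by linarith
  have g2 : 0 ≤ e0 + e1 - e2 := by linarith
  have k0 := mul_le_mul_of_nonneg_left h1w g0
  have k1 := mul_le_mul_of_nonneg_left h0w g1
  have k2 := mul_le_mul_of_nonneg_left h01 g2
  nlinarith

end Pool.Agent.P.MP_e86632_nt.Lex
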