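import Pool.Agent.P.MP_e86632_nt.Lex.Iface

/-! The Chinese remainder theorem for the products `Gam n k`. -/

namespace Pool.Agent.P.MP_e86632_nt.Lex

open Finset

namespace Crt

lemma PP_zero (k : ℕ) : PP 0 k = 1 := by simp [PP]

lemma PP_succ (n k : ℕ) : PP (n + 1) k = pr k * PP n (k + 1) := by
  unfold PP
  rw [prod_range_succ', mul_comm, add_zero]
  congr 1
  exact prod_congr rfl fun j _ => by rw [show k + (j + 1) = k + 1 + j by omega]

lemma PP_pos (n k : ℕ) : 0 < PP n k := prod_pos fun _ _ => (pr_prime _).pos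

lemma cop (n k : ℕ) : (pr k).Coprime (PP n (k + 1)) :=
  Nat.Coprime.prod_right fun j _ => pr_coprime (by omega)

lemma emb_iff : ∀ (n k a b : ℕ), (emb a : Gam n k) = emb b ↔ a ≡ b [MOD PP n k]
  | 0, k, a, b => by
    rw [PP_zero]
    exact ⟨fun _ => Nat.modEq_one, fun _ => rfl⟩
  | n + 1, k, a, b => by
    rw [PP_succ, ← Nat.modEq_and_modEq_iff_modEq_mul (cop n k), ← emb_iff n (k + 1) a b,
      ← ZMod.natCast_eq_natCast_iff]
    exact ⟨fun h => ⟨congrArg hd h, congrArg tl h⟩, fun h => gam_ext h.1 h.2⟩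

lemma card_eq : ∀ n k : ℕ, Fintype.card (Gam n k) = PP n k
  | 0, k => by
    have : Unique (Gam 0 k) := ⟨⟨0⟩, fun _ => rfl⟩
    rw [PP_zero, Fintype.card_unique]
  | n + 1, k => by
    have h := card_succ (n := n) (k := k)
    rw [card_eq n (k + 1), q] at h
    rw [PP_succ]
    exact_mod_cast h

lemma inj (n k : ℕ) : Set.InjOn (emb : ℕ → Gam n k) (range (PP n k) : Finset ℕ) :=
  fun a ha b hb h => Nat.ModEq.eq_of_lt_of_lt ((emb_iff n k a b).1 h)
    (mem_range.1 (mem_coe.1 ha)) (mem_range.1 (mem_coe.1 hb))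

open Classical in
lemma image_eq (n k : ℕ) : (range (PP n k)).image (emb : ℕ → Gam n k) = univ :=
  eq_univ_of_card _ (by rw [card_image_of_injOn (inj n k), card_range, card_eq])

lemma dis_iff : ∀ (n k a u : ℕ), Dis (emb a : Gam n k) (emb (a + u)) ↔ u.Coprime (PP n k)
  | 0, k, a, u => by
    rw [PP_zero]
    exact ⟨fun _ => Nat.coprime_one_right u, fun _ => trivial⟩
  | n + 1, k, a, u => by
    rw [PP_succ, Nat.coprime_mul_iff_right, ← dis_iff n (k + 1) a u, dis_succ, hd_emb, hd_emb,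
      tl_emb, tl_emb, Nat.coprime_comm, (pr_prime k).coprime_iff_not_dvd,
      ← ZMod.natCast_eq_zero_iff, Nat.cast_add]
    simp

end Crt

open Classical in
theorem t_CRT : S_CRT := fun n k => by
  refine ⟨fun x => ?_, Crt.emb_iff n k, fun f => ?_, Crt.dis_iff n k⟩
  · have hx : x ∈ (range (PP n k)).image (emb : ℕ → Gam n k) := by
      rw [Crt.image_eq]; exact mem_univ x
    obtain ⟨m, _, hm⟩ := mem_image.1 hx
    exact ⟨m, hm⟩
  · rw [mu, Crt.card_eq, ← Crt.image_eq, sum_image (Crt.inj n k)]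

end Pool.Agent.P.MP_e86632_nt.Lex
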