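import Pool.Agent.P.MP_e86632_nt.Lex.IfaceG

/-! Transfer between the periodic model and the product groups. -/

namespace Pool.Agent.P.MP_e86632_nt.Lex

open Finset

namespace CrtG

lemma PP_pos (n k : ℕ) : 0 < PP n k := Finset.prod_pos fun j _ => (pr_prime (k + j)).pos

lemma lt_pr (j : ℕ) : j < pr j := by
  induction j with
  | zero => rw [pr_zero]; norm_num
  | succ j ih => have := pr_lt (Nat.lt_succ_self j); simp only [Nat.succ_eq_add_one] at this; omega

lemma cop {m u : ℕ} (hm : 0 < m) (h : u.Coprime (PP (m + 2) 0)) : u.Coprime m := by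
  refine Nat.Coprime.symm (Nat.coprime_of_dvd fun p hp hpm hpu => ?_)
  obtain ⟨j, rfl⟩ := pr_surj hp
  have h1 : j < m + 2 := by
    have := Nat.le_of_dvd hm hpm
    have := lt_pr j
    omega
  have h2 : pr j ∣ PP (m + 2) 0 := by
    have := Finset.dvd_prod_of_mem (fun i => pr (0 + i)) (Finset.mem_range.2 h1)
    simpa [PP] using this
  have := Nat.dvd_gcd hpu h2
  rw [h.gcd_eq_one] at this
  exact hp.one_lt.ne' (Nat.dvd_one.1 this)

lemma per_modEq {f : ℕ → ℝ} {P : ℕ} (h : ∀ n, f (n + P) = f n) {a b : ℕ} (hab : a ≡ b [MOD P]) :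
    f a = f b := by
  have e : ∀ c, f c = f (c % P) := fun c => by
    conv_lhs => rw [← Nat.mod_add_div c P]
    exact per_mul h _ _
  rw [e a, e b, hab]

lemma avg_ne {f : ℕ → ℝ} {W V s : ℕ} (h : avg W V f s ≠ 0) : ∃ i, f (s + W * i) ≠ 0 := by
  by_contra hc
  push Not at hc
  apply h
  simp [avg, mean, hc]

end CrtG

open CrtG

theorem t_CRTD (h : S_CRT) : S_CRTD := by
  intro n S T α γ hc hf
  obtain ⟨-, h2, h3, h4⟩ := h n 0
  have per : ∀ m, (emb (m + PP n 0) : Gam n 0) = emb m := fun m =>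
    (h2 _ _).2 (by simp [Nat.ModEq])
  refine ⟨PP n 0, fun m => α (emb m), fun m => γ (emb m), PP_pos n 0,
    ⟨fun m => by rw [per], fun m => by rw [per], fun m => hf.a0 _, fun m => hf.c0 _,
      fun m p hp => ?_, fun m u hu => ?_⟩, h3 α, h3 γ⟩
  · obtain ⟨j, rfl⟩ := pr_surj hp
    rw [emb_add]
    exact hf.loc j _ (Nat.zero_le j)
  · by_cases hS : (emb m : Gam n 0) ∈ S
    · right
      exact hf.sc _ fun hT => hc _ hS _ hT ((h4 m u).2 hu)
    · exact Or.inl (hf.sa _ hS)

theorem t_CRTU (h : S_CRT) : S_CRTU := by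
  intro m α γ hm hf
  obtain ⟨h1, h2, h3, h4⟩ := h (m + 2) 0
  set P := PP (m + 2) 0 with hP
  have hP0 : 0 < P := PP_pos _ _
  set σ := Function.surjInv h1 with hσ
  have hσ1 : ∀ x, (emb (σ x) : Gam (m + 2) 0) = x := Function.surjInv_eq h1
  have pa : ∀ s, avg P m α (s + P) = avg P m α s := avg_per hf.pa
  have pc : ∀ s, avg P m γ (s + P) = avg P m γ s := avg_per hf.pc
  have ea : ∀ s, avg P m α (σ (emb s)) = avg P m α s := fun s =>
    per_modEq pa ((h2 _ _).1 (hσ1 _))
  have ec : ∀ s, avg P m γ (σ (emb s)) = avg P m γ s := fun s =>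
    per_modEq pc ((h2 _ _).1 (hσ1 _))
  have eshift : ∀ s i, (emb (s + P * i) : Gam (m + 2) 0) = emb s := fun s i =>
    (h2 _ _).2 (by simp [Nat.ModEq])
  refine ⟨m, {x | avg P m α (σ x) ≠ 0}, {x | avg P m γ (σ x) ≠ 0}, fun x => avg P m α (σ x),
    fun x => avg P m γ (σ x), ?_, ⟨fun x => mean_nonneg fun _ => hf.a0 _,
      fun x => mean_le_one hm fun _ => hf.a1 _, fun x => mean_nonneg fun _ => hf.c0 _,
      fun x => mean_le_one hm fun _ => hf.c1 hm _, fun x hx => not_not.1 hx,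
      fun x hx => not_not.1 hx, fun j x _ => ?_⟩, ?_, ?_⟩
  · intro x hx y hy hd
    obtain ⟨i, hi⟩ := avg_ne hx
    obtain ⟨l, hl⟩ := avg_ne hy
    set n0 := σ x + P * i with hn0
    set n1 := σ y + P * l with hn1
    have hle : n0 ≤ n1 + m * (P * n0) := by
      have : 1 ≤ m * P := Nat.mul_pos hm hP0
      nlinarith
    obtain ⟨u, hu⟩ := Nat.exists_eq_add_of_le hle
    have e0 : (emb n0 : Gam (m + 2) 0) = x := by rw [hn0, eshift, hσ1]
    have e1 : (emb (n0 + u) : Gam (m + 2) 0) = y := by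
      rw [← hu, show n1 + m * (P * n0) = σ y + P * (l + m * n0) by rw [hn1]; ring, eshift, hσ1]
    have hcop : u.Coprime m := cop hm ((h4 n0 u).1 (by rw [e0, e1]; exact hd))
    rcases hf.un n0 u hcop with k | k
    · exact hi k
    · rw [← hu, per_mul hf.pc] at k
      exact hl k
  · obtain ⟨s, rfl⟩ := h1 x
    show avg P m α (σ (emb s)) + avg P m γ (σ (emb s + emb (pr j))) ≤ 1
    rw [← emb_add, ea, ec]
    have := mean_lin m (fun i => α (s + P * i)) (fun i => γ (s + pr j + P * i)) 1 1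
    simp only [one_mul] at this
    unfold avg
    rw [← this]
    refine mean_le_one hm fun i => ?_
    rw [add_right_comm]
    exact hf.loc _ _ (pr_prime j)
  · rw [← h3, ← mean_avg hf.pa hP0]
    simp only [ea]
    rfl
  · rw [← h3, ← mean_avg hf.pc hP0]
    simp only [ec]
    rfl

end Pool.Agent.P.MP_e86632_nt.Lex
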