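import Mathlib

/-! The explicit recursion that computes the extremal values for `A + primes`. -/

namespace Pool.Agent.P.MP_e86632_nt.Lex

/-- the `k`-th prime, `pr 0 = 2` -/
noncomputable def pr (k : ℕ) : ℕ := Nat.nth Nat.Prime k

/-- state of the recursion: two moduli, two total weights, two weight functions -/
structure St where
  MS : ℕ
  MT : ℕ
  WS : ℝ
  WT : ℝ
  u : ℕ → ℝ
  v : ℕ → ℝ

/-- `min (u p) (v p)` -/
noncomputable def St.m (σ : St) (p : ℕ) : ℝ := min (σ.u p) (σ.v p)

/-- the prime `p` is put into `MT`; the class of `p` modulo `MS` loses the weight `m` -/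
noncomputable def St.stepI (σ : St) (p : ℕ) (m : ℝ) : St :=
  ⟨σ.MS, σ.MT * p, σ.WS - m, (p - 1) * σ.WT,
    fun n => if n ≡ p [MOD σ.MS] then σ.u n - m else σ.u n, σ.v⟩

/-- the prime `p` is put into `MS`; the class of `p` modulo `MT` loses the weight `m` -/
noncomputable def St.stepJ (σ : St) (p : ℕ) (m : ℝ) : St :=
  ⟨σ.MS * p, σ.MT, (p - 1) * σ.WS, σ.WT - m,
    σ.u, fun n => if n ≡ p [MOD σ.MT] then σ.v n - m else σ.v n⟩

/-- value of a word read from the `k`-th prime on -/
noncomputable def val : List Bool → ℕ → St → ℝ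
  | [], _, σ => σ.WT
  | false :: w, k, σ => (σ.WT + val w (k + 1) (σ.stepI (pr k) (σ.m (pr k)))) / pr k
  | true :: w, k, σ => (σ.WS + val w (k + 1) (σ.stepJ (pr k) (σ.m (pr k)))) / pr k

/-- value of the word `w` at slope `l` -/
noncomputable def V (l : ℝ) (w : List Bool) : ℝ := val w 0 ⟨1, 1, l, 1, fun _ => l, fun _ => 1⟩

end Pool.Agent.P.MP_e86632_nt.Lex
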