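import Pool.Agent.P.MP_e86632_nt.Lex.Defs

/-! The envelope of the curves of the words of length at most `n`. -/

namespace Pool.Agent.P.MP_e86632_nt.Lex

/-- the heights `y` such that `(x, y)` lies under the curve of a word of length at most `n` -/
def envSet (n : ℕ) (x : ℝ) : Set ℝ :=
  {y | ∃ w : List Bool, w.length ≤ n ∧ ∀ l : ℝ, 0 ≤ l → l * x + y ≤ V l w}

/-- upper envelope of the curves of the words of length at most `n` -/
noncomputable def env (n : ℕ) (x : ℝ) : ℝ := sSup (envSet n x)

end Pool.Agent.P.MP_e86632_nt.Lex
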