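import Pool.Agent.P.MP_e86632_nt.Lex.Iface

/-! Numerical facts at level `2`, and the level `0` lemma for two words of type `I`. -/

namespace Pool.Agent.P.MP_e86632_nt.Lex

namespace L2i

variable (w : Wd)

lemma swI1 : sw (.I w) 1 = sw w 2 / 3 := by simp [sw, q_one]
lemma twI1 : tw (.I w) 1 = 1 / 3 + 2 / 3 * tw w 2 := by simp [tw, q_one]; norm_num
lemma swJ1 : sw (.J w) 1 = 1 / 3 + 2 / 3 * sw w 2 := by simp [sw, q_one]; norm_num
lemma twJ1 : tw (.J w) 1 = tw w 2 / 3 := by simp [tw, q_one]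
lemma kapJ1 : kap (.J w) 1 = (tw w 2 + kap w 2) / 3 := by simp [kap, q_one]
lemma swI2 : sw (.I w) 2 = sw w 3 / 5 := by simp [sw, q_two]
lemma twI2 : tw (.I w) 2 = 1 / 5 + 4 / 5 * tw w 3 := by simp [tw, q_two]; norm_num
lemma swJ2 : sw (.J w) 2 = 1 / 5 + 4 / 5 * sw w 3 := by simp [sw, q_two]; norm_num
lemma twJ2 : tw (.J w) 2 = tw w 3 / 5 := by simp [tw, q_two]
lemma swJ3 : sw (.J w) 3 = 1 / 7 + 6 / 7 * sw w 4 := by simp [sw, q_three]; norm_num
lemma twJ3 : tw (.J w) 3 = tw w 4 / 7 := by simp [tw, q_three]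

variable {w}

lemma red_of_step {e1 e2 g : Wd} {ξ K : ℝ} (h : Step 1 e1 g ξ K) (h1 : sw e2 1 ≤ ξ)
    (h2 : tw e1 1 - tw g 1 + K + sw e2 1 ≤ gf e1 * (1 - tw e2 1)) : Red e1 e2 := by
  refine ⟨g, tw e1 1 - tw g 1 + K, h2, fun u v hu hv => ?_⟩
  have k := h.2.2.2.2 (st1 u v) (min u v) (ok_st1 hu hv) fun _ _ => le_rfl
  rw [st1_WS, st1_WT] at k
  have k1 := mul_le_mul_of_nonneg_left h1 hu
  have k2 := mul_le_mul_of_nonneg_right (min_le_right u v) h.2.1
  linarith

/-- a step at level `2` gives the reduction at level `1` -/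
lemma red_I (B1 : BW1) (B3 : BW3) {a b g : Wd} {κ G : ℝ} (h : Step 2 a g (sw b 2) κ)
    (hG : G ≤ 129 / 200 * (1 - sw a 2 / 3))
    (h2 : 2 * (tw a 2 - tw g 2) + κ + 2 * sw b 2 ≤ 2 * G * (1 - tw b 2)) :
    Red (.I a) (.I b) := by
  have k := B3.stepI 1 a g _ _ h
  rw [q_one] at k
  refine red_of_step k (swI1 b).le ?_
  have k1 : 0 ≤ 1 - tw b 2 := by linarith [B1.st b 2, B1.s0 b 2]
  have k2 := mul_le_mul_of_nonneg_right hG k1
  rw [gf, twI1, twI1, twI1, swI1, swI1]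
  linarith

end L2i

open L2i

theorem t_NUM (B1 : BW1) : S_NUM := by
  refine ⟨fun w h => ?_, fun w h => ?_, fun w h => ?_⟩
  · have h1 := (B1.dich w 2).resolve_right (by rw [q_two]; linarith)
    obtain ⟨w', e1, e2, -⟩ := B1.asI w 2 h1
    rw [e2, twI2] at h
    rw [e1, e2, swI2, twI2]
    rcases B1.dich w' 3 with k | k
    · have k1 := (B1.low w' 3 k).2
      rw [q_three] at k k1
      constructor <;> linarith [B1.s0 w' 3]
    · obtain ⟨w'', e3, e4, -⟩ := B1.asJ w' 3 k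
      rw [q_three] at k
      rw [twJ3] at e4
      rw [swJ3] at e3
      have k1 := (B1.LL w'' 4 (by norm_num) (by rw [q_four]; linarith)).2
      rw [q_four] at k1
      norm_num at k1
      constructor <;> linarith
  · have h1 := (B1.dich w 2).resolve_left (by rw [q_two]; linarith)
    obtain ⟨w', e1, e2, -⟩ := B1.asJ w 2 h1
    rw [e1, swJ2] at h
    have k := (B1.dich w' 3).resolve_left (by rw [q_three]; linarith)
    rw [q_three] at k
    rw [e2, twJ2]; linarith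
  · rcases B1.dich w 2 with h1 | h1
    · obtain ⟨w', e1, e2, -⟩ := B1.asI w 2 h1
      rw [e1, swI2] at h
      have k := (B1.HH w' 3 (by norm_num) (by rw [q_three]; linarith)).1
      rw [q_three] at k
      rw [e2, twI2]; linarith
    · rw [q_two] at h1; linarith

theorem t_L2I (B1 : BW1) (B2 : BW2) (B3 : BW3) (hA : S_ADD) (hM : S_MUL) : S_L2I := by
  intro a b hab ht
  rw [twI1, twI1] at ht
  have h1 := (B1.ord b a 2).1 hab
  obtain ⟨h2, h3⟩ := (t_NUM B1).1 b (by linarith)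
  have a0 := B1.s0 a 2
  have a1 := B1.t0 a 2
  have a2 := B1.st a 2
  have b0 := B1.s0 b 2
  have b1 := B1.t0 b 2
  have b2 := B1.st b 2
  by_cases c1 : sw a 2 + sw b 2 ≤ 1
  · left
    by_cases c2 : sw a 2 ≤ 1 / 5
    · obtain ⟨g, κ, k1, k2, k3⟩ := hM 2 a b 1 le_rfl zero_le_one (by rw [q_two]; norm_num) hab
      rw [one_mul, min_eq_left (by linarith)] at k1
      rw [q_two] at k2 k3
      rw [show th 5 = 163 / 588 by norm_num [th, om]] at k2
      exact red_I B1 B3 k1 (G := 6 / 10) (by linarith) (by linarith)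
    · obtain ⟨a', ea⟩ := B1.asJ a 2 ((B1.dich a 2).resolve_left (by rw [q_two]; exact c2))
      obtain ⟨b', e1, e2, -⟩ := B1.asI b 2 (by rw [q_two]; linarith)
      obtain ⟨g, κ, k1, k2, k3⟩ := hA 3 a' b' (by norm_num)
      have k4 := (B3.stepJ 2 a' g _ _ k1).congr ea
      have e3 := ea.1
      have e4 := ea.2.1
      rw [swI2] at e1
      rw [twI2] at e2
      rw [swJ2] at e3
      rw [twJ2] at e4
      rw [q_two] at k4
      rw [q_three] at k3
      have k5 : sw b 2 ≤ (5 - 1) * min (sw b' 3) (1 - sw a' 3) / 5 := by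
        rcases min_choice (sw b' 3) (1 - sw a' 3) with m | m <;> rw [m] <;> linarith
      refine red_I B1 B3 (k4.mono b0 k5 le_rfl) (G := 43 / 100) (by linarith) ?_
      rw [twJ2]
      linarith
  · right
    have k1 := (B1.HH a 2 (by norm_num) (by rw [q_two]; linarith)).1
    rw [q_two] at k1
    have k2 := (B1.LL b 2 (by norm_num) (by rw [q_two]; linarith)).1
    have k3 := B1.kap b 2 (by norm_num)
    rw [q_two] at k2 k3
    refine ⟨b, .J b, ?_, ?_, ?_, ?_, ?_, ?_, ?_, ?_, ?_, fun u v hu hv => ?_⟩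
    all_goals try (simp only [swI1, twI1, swJ1, twJ1, kapJ1]; linarith)
    · linarith
    have ho := ok_st1 hu hv
    have m0 : 0 ≤ min u v := le_min hu hv
    have v1 := B3.up a 2 (sI (st1 u v) 1) (B2.okI 1 _ _ ho m0 le_rfl)
    have v2 := B3.lo b 2 (sJ (st1 u v) 1) (min u v) (B2.okJ 1 _ _ ho m0 le_rfl)
      (B2.mbJ 1 _ _ _ (fun _ _ => le_rfl) m0)
    simp only [sI_WS, sI_WT, sJ_WS, sJ_WT, st1_WS, st1_WT, mw_st1, q_one] at v1 v2
    have e1 : Vw (.I a) 1 (st1 u v) = (v + Vw a 2 (sI (st1 u v) 1)) / 3 := by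
      simp only [Vw, q_one, st1_WT]
    have e2 : Vw (.J b) 1 (st1 u v) = (u + Vw b 2 (sJ (st1 u v) 1)) / 3 := by
      simp only [Vw, q_one, st1_WS]
    have p1 := mul_le_mul_of_nonneg_left (show sw a 2 ≤ 1 by linarith)
      (sub_nonneg.2 (min_le_left u v))
    have p2 := mul_le_mul_of_nonneg_left (show 90 * tw a 2 ≤ 1 - tw b 2 by linarith) hv
    have p3 := mul_le_mul_of_nonneg_left (show 3 * kap b 2 ≤ 1 - tw b 2 by linarith) m0
    rw [e1, e2, swI1, twI1]
    linarith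

end Pool.Agent.P.MP_e86632_nt.Lex
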