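import Pool.Agent.P.MP_e86632_nt.Lex.Iface

/-! Level `1`, first word `J a`, second word `I b`: reduction or the exceptional window. -/

namespace Pool.Agent.P.MP_e86632_nt.Lex

namespace L2j

lemma swJ (a : Wd) : sw (.J a) 1 = 1 / 3 + 2 / 3 * sw a 2 := by
  simp only [sw, q_one]; norm_num
lemma twJ (a : Wd) : tw (.J a) 1 = tw a 2 / 3 := by
  simp only [tw, q_one]
lemma swI (b : Wd) : sw (.I b) 1 = sw b 2 / 3 := by
  simp only [sw, q_one]
lemma twI (b : Wd) : tw (.I b) 1 = 1 / 3 + 2 / 3 * tw b 2 := by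
  simp only [tw, q_one]; norm_num
lemma kapJ (a : Wd) : kap (.J a) 1 = (tw a 2 + kap a 2) / 3 := by
  simp only [kap, q_one]

lemma swJ2 (a : Wd) : sw (.J a) 2 = 1 / 5 + 4 / 5 * sw a 3 := by
  simp only [sw, q_two]; norm_num
lemma twJ2 (a : Wd) : tw (.J a) 2 = tw a 3 / 5 := by
  simp only [tw, q_two]
lemma swI2 (b : Wd) : sw (.I b) 2 = sw b 3 / 5 := by
  simp only [sw, q_two]
lemma twI2 (b : Wd) : tw (.I b) 2 = 1 / 5 + 4 / 5 * tw b 3 := by
  simp only [tw, q_two]; norm_num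

lemma th_five : th (q 2) ≤ 2773 / 10000 := by
  rw [q_two]; unfold th om; norm_num

/-- a step at level `2` read at level `1` behind the letter `J` -/
lemma lemJ (B2 : BW2) {a g : Wd} {x κ : ℝ} (h : Step 2 a g x κ) {u v : ℝ} (hu : 0 ≤ u)
    (hv : 0 ≤ v) :
    3 * Vw (.J a) 1 (st1 u v) - (v - min u v) * (tw a 2 - tw g 2) + 2 * u * x - min u v * κ ≤
      3 * Vw (.J g) 1 (st1 u v) := by
  have ho := ok_st1 hu hv
  have hm0 : 0 ≤ mw (st1 u v) 1 := ho.mw0 le_rfl
  have h1 : Ok 2 (sJ (st1 u v) 1) := B2.okJ 1 _ _ ho hm0 le_rfl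
  have h2 : MB 2 (sJ (st1 u v) 1) (min u v) :=
    B2.mbJ 1 _ _ _ (fun _ _ => le_rfl) hm0
  have h3 := h.2.2.2.2 _ _ h1 h2
  simp only [sJ_WS, sJ_WT, st1_WS, st1_WT, mw_st1, q_one] at h3
  simp only [Vw, q_one, st1_WS]
  linarith

lemma red (B2 : BW2) {a b g : Wd} {x κ L : ℝ} (h : Step 2 a g x κ) (hx : sw b 2 ≤ 2 * x)
    (h1 : tw a 2 - tw g 2 ≤ L) (h2 : κ ≤ L)
    (h3 : L + sw b 2 ≤ 86 / 100 * ((1 - sw a 2) * (1 - tw b 2))) : Red (.J a) (.I b) := by
  refine ⟨.J g, L / 3, ?_, fun u v hu hv => ?_⟩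
  · rw [gf, swJ, swI, twI]
    linarith
  · have := lemJ B2 h hu hv
    have m0 : 0 ≤ min u v := le_min hu hv
    have m1 : 0 ≤ v - min u v := sub_nonneg.2 (min_le_right _ _)
    have a1 := mul_le_mul_of_nonneg_left h1 m1
    have a2 := mul_le_mul_of_nonneg_left h2 m0
    have a3 := mul_le_mul_of_nonneg_left hx hu
    rw [swI]
    linarith

end L2j

open L2j in
theorem t_L2J (B1 : BW1) (B2 : BW2) (B3 : BW3) (hN : S_NUM) (hA : S_ADD) (hM : S_MUL)
    (hP : S_ADDP) (hX : S_AUX) : S_L2J := by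
  intro a b hab hyp
  rw [swJ, twI] at hyp
  have o1 : sw a 2 ≤ tw b 2 := by
    have := (B1.ord b a.flip 2).1 (by simpa using hab)
    simpa using this
  obtain ⟨n1, n2⟩ := hN.1 b (by linarith)
  have sa0 := B1.s0 a 2
  have sb0 := B1.s0 b 2
  have ta0 := B1.t0 a 2
  have tb0 := B1.t0 b 2
  have sta := B1.st a 2
  have stb := B1.st b 2
  have hth := th_five
  by_cases c1 : 1 / 5 < sw a 2
  · left
    have ha : tw a 2 ≤ 1 / q 2 := (B1.dich a 2).resolve_left (by rw [q_two]; linarith)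
    obtain ⟨a', ea⟩ := B1.asJ a 2 ha
    obtain ⟨b', eb⟩ := B1.asI b 2 (by rw [q_two]; linarith)
    have a1 := ea.1
    have a2 := ea.2.1
    have b1 := eb.1
    have b2 := eb.2.1
    rw [swJ2] at a1
    rw [twJ2] at a2
    rw [swI2] at b1
    rw [twI2] at b2
    have hab' : sw b' 3 ≤ tw a' 3 := by linarith
    obtain ⟨g, κ, s1, s2, s3⟩ := hP 3 a' b' (by norm_num) hab'
    have s4 := (hX 3 a' b' (by norm_num) hab').1
    rw [q_three] at s2 s3 s4
    have s5 := (B3.stepJ 2 a' g _ _ s1).congr ea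
    rw [q_two] at s5
    have hP' : (1 - sw a 2) * (1 - tw b 2) = 16 / 25 * ((1 - sw a' 3) * (1 - tw b' 3)) := by
      rw [a1, b2]; ring
    have p0 : 0 ≤ (1 - sw a' 3) * (1 - tw b' 3) :=
      mul_nonneg (by linarith [B1.st a' 3, B1.t0 a' 3]) (by linarith [B1.st b' 3, B1.s0 b' 3])
    refine red B2 (L := 49 / 240 * ((1 - sw a' 3) * (1 - tw b' 3))) s5 (by linarith) ?_ ?_ ?_
    · rw [a2, twJ2]; linarith
    · linarith
    · rw [hP']; linarith
  push Not at c1
  by_cases c2 : sw b 2 ≤ sw a 2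
  · left
    obtain ⟨g, κ, s1, s2, s3⟩ := hM 2 a b 1 le_rfl zero_le_one (by rw [q_two]; norm_num) c2
    rw [min_eq_left (by linarith)] at s1
    rw [q_two] at s3
    have f0 : 0 ≤ 1 - tw b 2 := by linarith
    have := mul_le_mul_of_nonneg_right hth f0
    refine red B2 (L := (1 - tw b 2) / 3) s1 (by linarith) (by linarith) (by linarith) ?_
    nlinarith [mul_le_mul_of_nonneg_right c1 f0]
  have c2' : sw a 2 ≤ sw b 2 := (not_le.1 c2).le
  have o2 : tw b 2 ≤ tw a 2 := (B1.ord a b 2).1 c2'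
  have f0 : 0 ≤ 1 - tw b 2 := by linarith
  have f1 : 0 ≤ 1 - tw a 2 := by linarith
  by_cases c3 : 1 - tw b 2 ≤ 3 * (1 - tw a 2)
  · left
    obtain ⟨g, κ, s1, s2, -⟩ := hM 2 b a 1 le_rfl zero_le_one (by rw [q_two]; norm_num) c2'
    rw [min_eq_left (by linarith)] at s1
    have s3 := s1.2.2.1
    have s4 := B3.gen 2 a g (by linarith)
    have s5 := B1.kap g 2 (by norm_num)
    rw [q_two] at s5
    have := mul_le_mul_of_nonneg_right hth f1
    refine red B2 (L := 7591 / 10000 * (1 - tw b 2)) s4 (by linarith) (by linarith)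
      (by linarith) ?_
    nlinarith [mul_le_mul_of_nonneg_right (c2'.trans n1) f0]
  right
  push Not at c3
  obtain ⟨g, κ, s1, s2, s3⟩ := hA 2 a b le_rfl
  rw [min_eq_left (by linarith)] at s1
  rw [q_two] at s3
  have l1 := (B1.LL a 2 (by norm_num) (by rw [q_two]; linarith)).1
  rw [q_two] at l1
  have l2 := (B1.LL b 2 (by norm_num) (by rw [q_two]; linarith)).1
  rw [q_two] at l2
  have s4 := s1.2.2.1
  have s5 := B1.kap g 2 (by norm_num)
  rw [q_two] at s5
  have g0 := B1.t0 g 2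
  have g1 := B1.s0 g 2
  have g2 := B1.st g 2
  refine ⟨b, .J g, by rw [swI]; linarith, by linarith, by rw [swJ]; linarith,
    by rw [twJ]; linarith, by rw [swI, twI]; linarith, by rw [twI]; linarith,
    by rw [swJ, swJ, swI]; linarith, by rw [twJ, twJ, twI]; linarith, by rw [kapJ]; linarith,
    fun u v hu hv => ?_⟩
  have := lemJ B2 s1 hu hv
  have m0 : 0 ≤ min u v := le_min hu hv
  have m1 : 0 ≤ v - min u v := sub_nonneg.2 (min_le_right _ _)
  have a1 := mul_le_mul_of_nonneg_left s2 m1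
  have a2 := mul_le_mul_of_nonneg_left s3 m0
  have a3 := mul_nonneg hv f0
  rw [swI, twI]
  linarith

end Pool.Agent.P.MP_e86632_nt.Lex
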