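import Pool.Agent.P.MP_e86632_nt.Lex.Iface

/-! The one-level lemma for the pair `J a`, `I b` with `b` high. -/

namespace Pool.Agent.P.MP_e86632_nt.Lex

namespace Lia

lemma core {p Q r N S T x y ta sb : ℝ} (hp : 2 ≤ p) (hQ : p + 2 ≤ Q) (hr : Q ≤ r)
    (hN : N + 1 ≤ p - 1) (hS : 1 ≤ S) (hT : 1 ≤ T) (hST : S + T = N + 1) (hxy : x ≤ y)
    (hy0 : 0 ≤ y) (hy : y * r ≤ 1) (hta : ta ≤ 1) (hsb : y * (r - 1) ≤ 1 - sb) :
    0 ≤ (Q - 1) * (1 - x) - (p - 1) * sb ∧ 0 ≤ (Q - 1) * (1 - y) - (p - 1) * ta ∧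
      (N + 1) * (Q - p) + (p - 1) * (1 - ta) ≤ S * ((Q - 1) * (1 - x) - (p - 1) * sb) +
        T * ((Q - 1) * (1 - y) - (p - 1) * ta) := by
  have h1 : (Q - 1) * x ≤ (Q - 1) * y := mul_le_mul_of_nonneg_left hxy (by linarith)
  have h2 : (p - 1) * (y * (r - 1)) ≤ (p - 1) * (1 - sb) :=
    mul_le_mul_of_nonneg_left hsb (by linarith)
  have hA : (Q - p) + ((p - 1) * (r - 1) - (Q - 1)) * y ≤ (Q - 1) * (1 - x) - (p - 1) * sb := by
    linarith
  have h3 : (N + 1) * (Q - 1) ≤ (p - 1) * (r - 1) :=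
    mul_le_mul hN (by linarith) (by linarith) (by linarith)
  have h4 : (Q - 1) ≤ (N + 1) * (Q - 1) := le_mul_of_one_le_left (by linarith) (by linarith)
  have h5 : 0 ≤ ((p - 1) * (r - 1) - (Q - 1)) * y := mul_nonneg (by linarith) hy0
  have h6 : y * Q ≤ y * r := mul_le_mul_of_nonneg_left hr hy0
  have h7 : 0 ≤ (p - 1) * (1 - ta) := mul_nonneg (by linarith) (by linarith)
  refine ⟨by linarith, by linarith, ?_⟩
  have h8 := mul_le_mul_of_nonneg_left hA (show 0 ≤ S by linarith)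
  have h9 : (p - 1) * (1 - ta) ≤ T * ((p - 1) * (1 - ta)) := le_mul_of_one_le_left h7 hT
  have h10 : (p - 1) * (r - 1) ≤ S * ((p - 1) * (r - 1)) :=
    le_mul_of_one_le_left (mul_nonneg (by linarith) (by linarith)) hS
  have h11 : 0 ≤ (S * ((p - 1) * (r - 1)) - (N + 1) * (Q - 1)) * y :=
    mul_nonneg (by linarith) hy0
  have e : N = S + T - 1 := by linarith
  subst e
  linarith

end Lia

theorem t_LIA (B1 : BW1) (B4 : BW4) : S_LIA := by
  intro k fl a b hk h1 h2
  have hxy : sw a (k + 2) ≤ tw b (k + 2) := by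
    have := (B1.ord b a.flip (k + 2)).1 (by simpa using h1)
    simpa using this
  have hr := q_pos (k + 2)
  have hQ := q_pos (k + 1)
  have hy : tw b (k + 2) * q (k + 2) ≤ 1 := by rwa [le_div_iff₀ hr] at h2
  have hta : tw a (k + 2) ≤ 1 := by linarith [B1.st a (k + 2), B1.s0 a (k + 2)]
  have hN : q (k - 1) - 1 + 1 ≤ q k - 1 := by
    have := q_succ_one (k - 1)
    rw [Nat.sub_add_cancel hk] at this
    linarith
  have hN1 : 1 ≤ q (k - 1) - 1 := by linarith [q_ge_two (k - 1)]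
  have hS : 1 ≤ NS k fl := by cases fl <;> simp [NS] <;> linarith
  have hT : 1 ≤ NT k fl := by cases fl <;> simp [NT] <;> linarith
  have hST : NS k fl + NT k fl = q (k - 1) - 1 + 1 := by cases fl <;> simp [NS, NT]
  obtain ⟨c1, c2, c3⟩ := Lia.core (q_ge_two k) (q_succ hk) (q_le (by omega : k + 1 ≤ k + 2)) hN hS
    hT hST hxy (B1.t0 b _) hy hta (B1.high b _ h2).2
  have eA : 1 - sw (.J a) (k + 1) - (q k - 1) * sw (.I b) (k + 1) =
      ((q (k + 1) - 1) * (1 - sw a (k + 2)) - (q k - 1) * sw b (k + 2)) / q (k + 1) := by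
    simp only [sw]
    field_simp
    ring
  have eB : 1 - tw (.I b) (k + 1) - (q k - 1) * tw (.J a) (k + 1) =
      ((q (k + 1) - 1) * (1 - tw b (k + 2)) - (q k - 1) * tw a (k + 2)) / q (k + 1) := by
    simp only [tw]
    field_simp
    ring
  have pA := div_nonneg c1 hQ.le
  have pB := div_nonneg c2 hQ.le
  refine B4.dic k fl _ _ (by linarith) (by linarith) ?_
  rw [eA, eB, ← mul_div_assoc, ← mul_div_assoc, ← add_div, le_div_iff₀ hQ]
  refine le_trans ?_ c3
  have h7 : 1 - tw a (k + 2) ≤ (q k - 1) * (1 - tw a (k + 2)) :=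
    le_mul_of_one_le_left (by linarith) (by linarith [q_ge_two k])
  split_ifs with h
  · have e1 : (q (k - 1) - 1 + 1) * (q (k + 1) - q k) = q (k + 1) - 1 := by
      rcases (by omega : k = 1 ∨ k = 2) with rfl | rfl
      · norm_num [q_zero, q_one, q_two]
      · norm_num [q_one, q_two, q_three]
    have e2 : tw a (k + 2) / q (k + 1) ≤ min (sw (.J a) (k + 1)) (tw (.J a) (k + 1)) := by
      refine le_min ?_ le_rfl
      simp only [sw]
      have a1 : tw a (k + 2) / q (k + 1) ≤ 1 / q (k + 1) := div_le_div_of_nonneg_right hta hQ.le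
      have a2 : 1 / q (k + 1) ≤ 1 := by
        rw [div_le_one hQ]
        linarith [q_ge_two (k + 1)]
      have a3 := mul_nonneg (sub_nonneg.2 a2) (B1.s0 a (k + 1 + 1))
      linarith
    rw [div_le_iff₀ hQ] at e2
    linarith
  · have g := q_gap (k := k - 1) (by omega)
    rw [show k - 1 + 2 = k + 1 by omega, show k - 1 + 1 = k by omega] at g
    linarith [q_succ hk]

end Pool.Agent.P.MP_e86632_nt.Lex
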