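import Pool.Agent.P.MP_e86632_nt.Lex.Iface

/-! The one-level lemma for the pair `(J a, I b)` with a low word `b`. -/

namespace Pool.Agent.P.MP_e86632_nt.Lex

namespace Lib

/-- reduction to an inequality between the measures at level `k + 2` -/
lemma red (B3 : BW3) (B4 : BW4) {k : ℕ} {fl : Bool} {a b g : Wd} {κ : ℝ}
    (hs : Step (k + 2) a g (sw b (k + 2)) κ) (h1 : q k - 1 ≤ cm k) (h2 : cm k ≤ q (k + 1) - 1)
    (h0 : 0 ≤ cm k)
    (hT : (q k - 1) * (tw a (k + 2) - tw g (k + 2)) ≤ (q (k + 1) - 1) * (1 - tw b (k + 2)))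
    (hM : (q (k + 1) - 1) * (1 - tw b (k + 2)) - Cc (k + 1) * (q (k + 1) - 1) ^ 2 / q (k + 1) *
        ((1 - sw a (k + 2)) * (1 - tw b (k + 2))) + cm k * sw b (k + 2) + κ ≤
      NS k fl * ((cm k - (q k - 1)) * sw b (k + 2)) + NT k fl *
        ((q (k + 1) - 1) * (1 - tw b (k + 2)) - (q k - 1) * (tw a (k + 2) - tw g (k + 2)))) :
    GoodC k fl (.J a) (.I b) := by
  have hQ := q_pos (k + 1)
  have s0 : 0 ≤ sw b (k + 2) := hs.1
  have st : Step (k + 1) (.J a) (.J g) (cm k * sw b (k + 2) / q (k + 1)) (κ / q (k + 1)) :=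
    (B3.stepJ (k + 1) a g _ _ hs).mono (by positivity)
      (div_le_div_of_nonneg_right (mul_le_mul_of_nonneg_right h2 s0) hQ.le) le_rfl
  have e1 : sw (.I b) (k + 1) = sw b (k + 2) / q (k + 1) := rfl
  have e2 : 1 - tw (.I b) (k + 1) = (q (k + 1) - 1) * (1 - tw b (k + 2)) / q (k + 1) := by
    show 1 - (1 / q (k + 1) + (1 - 1 / q (k + 1)) * tw b (k + 2)) = _
    field_simp
    ring
  have e3 : 1 - sw (.J a) (k + 1) = (q (k + 1) - 1) * (1 - sw a (k + 2)) / q (k + 1) := by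
    show 1 - (1 / q (k + 1) + (1 - 1 / q (k + 1)) * sw a (k + 2)) = _
    field_simp
    ring
  have e4 : tw (.J a) (k + 1) - tw (.J g) (k + 1) =
      (tw a (k + 2) - tw g (k + 2)) / q (k + 1) := by
    show tw a (k + 2) / q (k + 1) - tw g (k + 2) / q (k + 1) = _
    ring
  refine B4.redC k fl _ _ _ _ _ st ?_ ?_ ?_
  · rw [e1, ← mul_div_assoc]
    exact div_le_div_of_nonneg_right (mul_le_mul_of_nonneg_right h1 s0) hQ.le
  · rw [e2, e4, ← mul_div_assoc]
    exact div_le_div_of_nonneg_right hT hQ.le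
  · rw [e1, e2, e3, e4]
    have := div_le_div_of_nonneg_right hM hQ.le
    refine le_of_eq_of_le ?_ (le_of_le_of_eq this ?_) <;> ring

/-- the estimates for large primes -/
lemma big {p Q r s P D κ : ℝ} (hp : 7 ≤ p) (hQ : p + 2 ≤ Q) (hr : Q + 2 ≤ r) (s0 : 0 ≤ s)
    (P0 : 0 ≤ P) (D0 : 0 ≤ D) (k0 : 0 ≤ κ) (hD : D * (r ^ 2 - 1) ≤ r ^ 2 * P)
    (hk : κ * ((r - 1) * (r - 2)) ≤ r * P) (hs : s * (r - 1) ^ 3 ≤ r ^ 2 * P) :
    (p - 1) * D ≤ (Q - 29 / 10) * P ∧ 5 * κ ≤ P ∧ (p - 1) * s ≤ P := by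
  have r0 : 0 < r := by linarith
  refine ⟨?_, ?_, ?_⟩
  · have a1 : (p - 1) * D ≤ (Q - 3) * D := mul_le_mul_of_nonneg_right (by linarith) D0
    rcases le_total D P with h | h
    · have a2 : (Q - 3) * D ≤ (Q - 3) * P := mul_le_mul_of_nonneg_left h (by linarith)
      nlinarith
    · have a2 : 10 * (Q - 3) ≤ r ^ 2 - 1 := by nlinarith
      have a3 := mul_le_mul_of_nonneg_right a2 (sub_nonneg.2 h)
      nlinarith
  · have a1 : 5 * r ≤ (r - 1) * (r - 2) := by nlinarith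
    have a2 := mul_le_mul_of_nonneg_left a1 k0
    exact le_of_mul_le_mul_left (by linarith : r * (5 * κ) ≤ r * P) r0
  · have a0 : (p - 1) * r ^ 2 ≤ (r - 5) * r ^ 2 :=
      mul_le_mul_of_nonneg_right (by linarith) (by positivity)
    have a1 : (p - 1) * r ^ 2 ≤ (r - 1) ^ 3 := by nlinarith
    have a2 := mul_le_mul_of_nonneg_left a1 s0
    exact le_of_mul_le_mul_left (by linarith : r ^ 2 * ((p - 1) * s) ≤ r ^ 2 * P) (by positivity)

lemma cQ {Q : ℝ} (hQ : 3 ≤ Q) : Q - 5 / 2 ≤ (1 - 1 / (2 * (Q - 2))) * (Q - 1) ^ 2 / Q := by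
  have h1 : 0 < Q - 2 := by linarith
  have h2 : 0 < Q := by linarith
  have e : (1 - 1 / (2 * (Q - 2))) * (Q - 1) ^ 2 / Q - (Q - 5 / 2) =
      (Q - 5 / 2) / ((Q - 2) * Q) := by
    field_simp
    ring
  have : 0 ≤ (Q - 5 / 2) / ((Q - 2) * Q) := div_nonneg (by linarith) (by positivity)
  linarith

end Lib

theorem t_LIB (B1 : BW1) (B3 : BW3) (B4 : BW4) (hP : S_ADDP) (hX : S_AUX) : S_LIB := by
  intro k fl a b hk hab hb
  obtain ⟨g, κ, hs, hD, hκ⟩ := hP (k + 2) a b (by omega) hab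
  have hA := (hX (k + 2) a b (by omega) hab).2 hb
  have s0 : 0 ≤ sw b (k + 2) := hs.1
  have k0 : 0 ≤ κ := hs.2.1
  have D0 : 0 ≤ tw a (k + 2) - tw g (k + 2) := sub_nonneg.2 hs.2.2.2.1
  have f0 : 0 ≤ 1 - tw b (k + 2) := by linarith [B1.st b (k + 2)]
  have y0 : 0 ≤ 1 - sw a (k + 2) := by linarith [B1.st a (k + 2), B1.t0 a (k + 2)]
  have P0 := mul_nonneg y0 f0
  have P1 : (1 - sw a (k + 2)) * (1 - tw b (k + 2)) ≤ 1 - tw b (k + 2) :=
    mul_le_of_le_one_left f0 (by linarith [B1.s0 a (k + 2)])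
  rcases (by omega : k = 1 ∨ k = 2 ∨ 3 ≤ k) with rfl | rfl | h3
  · have c : cm 1 = 2 := by simp [cm]
    refine Lib.red B3 B4 hs ?_ ?_ ?_ ?_ ?_ <;>
      simp only [Nat.reduceAdd, c, q_one, q_two, q_three, NS_one, NT_one, Cc_two] at * <;>
      linarith
  · have c : cm 2 = 6 := by simp [cm, q_three]; norm_num
    have n1 : NS 2 true = 2 := by simp [NS, q_one]; norm_num
    have n2 : NT 2 true = 1 := by simp [NT]
    have n3 : NS 2 false = 1 := by simp [NS]
    have n4 : NT 2 false = 2 := by simp [NT, q_one]; norm_num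
    refine Lib.red B3 B4 hs ?_ ?_ ?_ ?_ ?_ <;> cases fl <;>
      simp only [Nat.reduceAdd, c, q_two, q_three, q_four, n1, n2, n3, n4, Cc_three] at * <;>
      linarith
  · have c : cm k = q (k + 1) - 1 := by unfold cm; rw [if_neg (by omega)]
    have hp := q_ge_seven h3
    have hQ := q_succ hk
    have hr : q (k + 1) + 2 ≤ q (k + 2) := q_succ (k := k + 1) (by omega)
    have hN := q_ge_five (k := k - 1) (by omega)
    have hg := q_gap (k := k - 1) (by omega)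
    rw [(by omega : k - 1 + 2 = k + 1), (by omega : k - 1 + 1 = k)] at hg
    obtain ⟨b1, b2, b3⟩ := Lib.big hp hQ hr s0 P0 D0 k0 hD hκ hA
    have b4 := mul_le_mul_of_nonneg_right (Lib.cQ (Q := q (k + 1)) (by linarith)) P0
    have b5 := mul_le_mul_of_nonneg_left P1 (by linarith : 0 ≤ q (k + 1) - 1)
    refine Lib.red B3 B4 hs ?_ ?_ ?_ ?_ ?_
    · rw [c]; linarith
    · rw [c]
    · rw [c]; linarith
    · linarith
    · rw [c, Cc_ge (by omega)]
      cases fl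
      · have b6 : 2 * ((q (k + 1) - 1) * (1 - tw b (k + 2)) -
            (q k - 1) * (tw a (k + 2) - tw g (k + 2))) ≤ (q (k - 1) - 1) *
            ((q (k + 1) - 1) * (1 - tw b (k + 2)) - (q k - 1) * (tw a (k + 2) - tw g (k + 2))) :=
          mul_le_mul_of_nonneg_right (by linarith) (by linarith)
        simp only [NS, NT, Bool.false_eq_true, if_false]
        linarith
      · have b6 := mul_le_mul_of_nonneg_right hg s0
        simp only [NS, NT, if_true]
        linarith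

end Pool.Agent.P.MP_e86632_nt.Lex
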