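import Pool.Agent.P.MP_e86632_nt.Lex.Iface

/-! The one-level lemma for two words starting with `I`, overflow case, levels one and two. -/

namespace Pool.Agent.P.MP_e86632_nt.Lex

namespace Lid

lemma one (B1 : BW1) (B3 : BW3) (B4 : BW4) (fl : Bool) (a b : Wd) (h1 : sw b 3 ≤ sw a 3)
    (h2 : 1 < sw a 3 + 2 * sw b 3) : Good 1 fl (.I a) (.I b) := by
  have a0 := B1.s0 a 3
  have a1 := B1.t0 a 3
  have a2 := B1.st a 3
  have b0 := B1.s0 b 3
  have b1 := B1.t0 b 3
  have b2 := B1.st b 3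
  have o := (B1.ord b a 3).1 h1
  have es : ∀ w, sw (.I w) (1 + 1) = sw w 3 / 5 := fun w => q_two ▸ rfl
  have et : ∀ w, tw (.I w) (1 + 1) = 1 / 5 + (1 - 1 / 5) * tw w 3 := fun w => q_two ▸ rfl
  have ej : tw (.J b) (1 + 1) = tw b 3 / 5 := q_two ▸ rfl
  rcases B1.dich b 3 with h | h
  · have l := (B1.low b 3 h).2
    have k := B1.kap b 3 (by norm_num)
    have hh := B1.HH a 3 (by norm_num)
    have st := B3.branch 2 a b
    rw [q_three] at h l k hh
    rw [q_two] at st
    have hh' := (hh (by linarith)).1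
    have pr := mul_le_of_le_one_right (show 0 ≤ 1 - tw b 3 by linarith)
      (show sw a 3 ≤ 1 by linarith)
    refine (B4.redC 1 fl _ _ (.J b) (2 * sw b 3 / 5) (kap b 3 / 5)
      (st.mono (by positivity) (by linarith) le_rfl) ?_ ?_ ?_).good
    · rw [es, q_one]; linarith
    · rw [et, et, ej, q_one]; linarith
    · rw [es, es, et, et, ej, q_one, NS_one, NT_one, Cc_two]; linarith
  · have l := (B1.high b 3 h).2
    rw [q_three] at h l
    refine B4.dic 1 fl _ _ ?_ ?_ ?_
    · rw [es, es, q_one]; linarith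
    · rw [et, et, q_one]; linarith
    · rw [if_pos (by norm_num), es, es, et, et, q_one, NS_one, NT_one, min_eq_left (by linarith)]
      linarith

lemma two (B1 : BW1) (B3 : BW3) (B4 : BW4) (hO : S_OVF) (fl : Bool) (a b : Wd)
    (h1 : sw b 4 ≤ sw a 4) (h2 : 1 < sw a 4 + 6 * sw b 4) : Good 2 fl (.I a) (.I b) := by
  have a0 := B1.s0 a 4
  have a1 := B1.t0 a 4
  have a2 := B1.st a 4
  have b0 := B1.s0 b 4
  have b1 := B1.t0 b 4
  have b2 := B1.st b 4
  have o := (B1.ord b a 4).1 h1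
  have es : ∀ w, sw (.I w) (2 + 1) = sw w 4 / 7 := fun w => q_three ▸ rfl
  have et : ∀ w, tw (.I w) (2 + 1) = 1 / 7 + (1 - 1 / 7) * tw w 4 := fun w => q_three ▸ rfl
  have ej : tw (.J b) (2 + 1) = tw b 4 / 7 := q_three ▸ rfl
  have hN : (NS 2 fl = 2 ∧ NT 2 fl = 1) ∨ (NS 2 fl = 1 ∧ NT 2 fl = 2) := by
    cases fl
    · right; simp [NS, NT, q_one]; norm_num
    · left; simp [NS, NT, q_one]; norm_num
  rcases B1.dich b 4 with h | h
  · have l := (B1.low b 4 h).2
    have k := B1.kap b 4 (by norm_num)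
    have hh := B1.HH a 4 (by norm_num)
    have st := B3.branch 3 a b
    rw [q_four] at h l k hh
    rw [q_three] at st
    have hh' := (hh (by linarith)).1
    have pr := mul_le_of_le_one_right (show 0 ≤ 1 - tw b 4 by linarith)
      (show sw a 4 ≤ 1 by linarith)
    refine (B4.redC 2 fl _ _ (.J b) (6 * sw b 4 / 7) (kap b 4 / 7)
      (st.mono (by positivity) (by linarith) le_rfl) ?_ ?_ ?_).good
    · rw [es, q_two]; linarith
    · rw [et, et, ej, q_two]; linarith
    · rw [es, es, et, et, ej, q_two, Cc_three]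
      rcases hN with ⟨n1, n2⟩ | ⟨n1, n2⟩ <;> rw [n1, n2] <;> linarith
  · have l := (B1.high b 4 h).2
    have hh := B1.HH b 4 (by norm_num)
    have ov := hO 4 a b 6 (by norm_num) (by norm_num) (by rw [q_four]; norm_num) h1 (by linarith)
    rw [q_four] at h l hh ov
    rw [show om 11 = 12 / 1210 by norm_num [om]] at ov
    refine B4.dic 2 fl _ _ ?_ ?_ ?_
    · rw [es, es, q_two]; linarith
    · rw [et, et, q_two]; linarith
    · rw [if_pos le_rfl, es, es, et, et, q_two, min_eq_left (by linarith)]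
      rcases hN with ⟨n1, n2⟩ | ⟨n1, n2⟩ <;> rw [n1, n2]
      · linarith
      · rcases le_total (2 / 11) (sw b 4) with h3 | h3
        · linarith [(hh h3).1]
        · linarith

end Lid

theorem t_LID (B1 : BW1) (B3 : BW3) (B4 : BW4) (hO : S_OVF) : S_LID := by
  intro k fl a b k1 k2 h1 h2
  obtain rfl | rfl : k = 1 ∨ k = 2 := by omega
  · exact Lid.one B1 B3 B4 fl a b h1 (by simpa [cm] using h2)
  · refine Lid.two B1 B3 B4 hO fl a b h1 ?_
    have e : cm 2 = 6 := by simp [cm, q_three]; norm_num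
    rwa [e] at h2

end Pool.Agent.P.MP_e86632_nt.Lex
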