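import Pool.Agent.P.MP_e86632_nt.Lex.Iface

/-! The one-level lemma for two letters `I` with overflow, at the levels `k ≥ 3`. -/

namespace Pool.Agent.P.MP_e86632_nt.Lex

namespace Lie

/-- numerical data of the lemma -/
structure Dat (p q r N sa ta sb tb kb : ℝ) : Prop where
  hp : 7 ≤ p
  hq : p + 2 ≤ q
  hq' : 11 ≤ q
  hr : q + 2 ≤ r
  hN : N + 3 ≤ p
  hN0 : 4 ≤ N
  hg : q - 1 ≤ N * (q - p)
  sa1 : sa ≤ 1
  ta0 : 0 ≤ ta
  sb0 : 0 ≤ sb
  tb0 : 0 ≤ tb
  st : sb + tb ≤ 1
  tab : ta ≤ tb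
  ov : 1 < sa + (q - 1) * sb
  kb1 : kb * (r - 2) ≤ 1 - tb
  kb0 : 0 ≤ kb
  ovf : ta ≤ om r * (1 - tb)
  dich : sb ≤ 1 / r ∨ tb ≤ 1 / r
  low : sb ≤ 1 / r → sb * (r - 1) ≤ 1 - tb
  HHa : 2 / r ≤ sa → ta * (r ^ 2 - 1) ≤ 1 - sa
  HHb : 2 / r ≤ sb → tb * (r ^ 2 - 1) ≤ 1 - sb
  LL : 1 - tb < (1 - 1 / r) ^ 2 → sb * (r ^ 2 - 1) ≤ 1 - tb

variable {p q r N sa ta sb tb kb : ℝ}

lemma Dat.r13 (h : Dat p q r N sa ta sb tb kb) : 13 ≤ r := by linarith [h.hr, h.hq']

lemma Dat.phi0 (h : Dat p q r N sa ta sb tb kb) : 0 ≤ 1 - tb := by linarith [h.st, h.sb0]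

lemma Dat.inv (h : Dat p q r N sa ta sb tb kb) : 1 / r ≤ 1 / 13 :=
  one_div_le_one_div_of_le (by norm_num) h.r13

lemma Dat.kap (h : Dat p q r N sa ta sb tb kb) : 11 * kb ≤ 1 - tb := by
  have := mul_le_mul_of_nonneg_left (show 11 ≤ r - 2 by linarith [h.r13]) h.kb0
  linarith [h.kb1]

lemma Dat.tau (h : Dat p q r N sa ta sb tb kb) : (p - 1) * (q - 1) * ta ≤ 1 - tb := by
  have hr := h.r13
  have h1 : (p - 1) * (q - 1) ≤ (r - 5) * (r - 3) :=
    mul_le_mul (by linarith [h.hq, h.hr]) (by linarith [h.hr]) (by linarith [h.hq'])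
      (by linarith)
  have h2 : (r - 5) * (r - 3) * om r ≤ 1 := by
    unfold om
    have h0 : 0 < r ^ 2 * (r - 1) := mul_pos (by positivity) (by linarith)
    rw [← mul_div_assoc, div_le_one h0]
    nlinarith
  have h3 := mul_le_mul_of_nonneg_right h1 h.ta0
  have h4 := mul_le_mul_of_nonneg_left h.ovf
    (show 0 ≤ (r - 5) * (r - 3) from mul_nonneg (by linarith) (by linarith))
  have h5 := mul_le_mul_of_nonneg_right h2 h.phi0
  linarith

lemma Dat.two (h : Dat p q r N sa ta sb tb kb) : 2 * (1 - tb) ≤ (q - p) * (1 - tb) :=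
  mul_le_mul_of_nonneg_right (by linarith [h.hq]) h.phi0

/-- many classes on the `S` side -/
lemma Dat.caseT (h : Dat p q r N sa ta sb tb kb) :
    sa + kb ≤ (q - p) * (1 - tb) - (p - 1) * (q - 1) * ta ∨
      14 / 9 * (1 - tb) + kb ≤ (q - p) * (1 - tb) - (p - 1) * (q - 1) * ta := by
  have hr := h.r13
  have hr0 : 0 < r := by linarith
  have h1 := h.kap
  have h2 := h.tau
  have h3 := h.two
  have h4 := h.inv
  have h5 := h.phi0
  have e2 : 2 / r = 2 * (1 / r) := by ring
  rcases le_total sa (2 / r) with ha | ha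
  · left
    have hb : tb ≤ 1 / r := by
      refine h.dich.resolve_left fun hb => ?_
      have a1 : (q - 1) * sb ≤ (r - 3) * (1 / r) :=
        mul_le_mul (by linarith [h.hr]) hb h.sb0 (by linarith)
      have a2 : (r - 3) * (1 / r) = 1 - 3 * (1 / r) := by field_simp
      have a3 : 0 < 1 / r := by positivity
      linarith [h.ov]
    linarith
  · have a1 := h.HHa ha
    have a2 : (p - 1) * (q - 1) ≤ r ^ 2 - 1 := by
      have : (p - 1) * (q - 1) ≤ (r - 1) * (r + 1) :=
        mul_le_mul (by linarith [h.hq, h.hr]) (by linarith [h.hr]) (by linarith [h.hq'])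
          (by linarith)
      linarith
    have a3 := mul_le_mul_of_nonneg_right a2 h.ta0
    rcases le_or_gt ((1 - 1 / r) ^ 2) (1 - tb) with hb | hb
    · left
      have a4 : (12 / 13 : ℝ) ^ 2 ≤ (1 - 1 / r) ^ 2 :=
        pow_le_pow_left₀ (by norm_num) (by linarith) 2
      norm_num at a4
      rw [one_div] at hb
      linarith
    · right
      have a4 := h.LL hb
      have a5 : 14 * (q - 1) ≤ r ^ 2 - 1 := by
        have : 14 * (q - 1) ≤ (r + 1) * (r - 1) :=
          mul_le_mul (by linarith) (by linarith [h.hr]) (by linarith [h.hq']) (by linarith)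
        linarith
      have a6 := mul_le_mul_of_nonneg_right a5 h.sb0
      linarith [h.ov]

/-- many classes on the `T` side -/
lemma Dat.caseF (h : Dat p q r N sa ta sb tb kb) :
    sa + (p - 1) * sb + kb ≤ N * ((q - p) * (1 - tb) - (p - 1) * (q - 1) * ta) ∨
      14 / 9 * (1 - tb) + (p - 1) * sb + kb ≤
        N * ((q - p) * (1 - tb) - (p - 1) * (q - 1) * ta) := by
  have hr := h.r13
  have hr0 : 0 < r := by linarith
  have h1 := h.kap
  have h2 := h.tau
  have h3 := h.two
  have h4 := h.inv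
  have h5 := h.phi0
  have hN0 : 0 ≤ N := by linarith [h.hN0]
  have hp0 : 0 ≤ p - 1 := by linarith [h.hp]
  have h6 := mul_le_mul_of_nonneg_right h.hg h5
  have e2 : 2 / r = 2 * (1 / r) := by ring
  rcases le_or_gt (3 * sb) (1 - tb) with hb | hb
  · right
    have a1 : (q - p) * (1 - tb) / 2 ≤ (q - p) * (1 - tb) - (p - 1) * (q - 1) * ta := by linarith
    have a2 := mul_le_mul_of_nonneg_left a1 hN0
    have a3 := mul_le_mul_of_nonneg_left hb hp0
    have a4 := mul_le_mul_of_nonneg_right (show p - 1 ≤ q - 3 by linarith [h.hq]) h5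
    have a5 := mul_le_mul_of_nonneg_right h.hq' h5
    linarith
  · left
    have ht : tb ≤ 1 / r := by
      refine h.dich.resolve_left fun hs => ?_
      have a1 := h.low hs
      have a2 := mul_le_mul_of_nonneg_left (show 3 ≤ r - 1 by linarith) h.sb0
      linarith
    have a1 := h.HHb (by linarith)
    have a2 : N * (q - 1) ≤ r ^ 2 - 1 := by
      have : N * (q - 1) ≤ (r - 1) * (r + 1) :=
        mul_le_mul (by linarith [h.hq, h.hr, h.hN]) (by linarith [h.hr]) (by linarith [h.hq'])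
          (by linarith)
      linarith
    have a3 : N * (q - 1) * ta ≤ (r ^ 2 - 1) * tb :=
      mul_le_mul a2 h.tab h.ta0 (by nlinarith)
    have a4 : (p - 1) * (N * (q - 1) * ta) ≤ (p - 1) * (1 - sb) :=
      mul_le_mul_of_nonneg_left (by linarith) hp0
    have a5 := mul_le_mul_of_nonneg_right (show p + 1 ≤ q - 1 by linarith [h.hq]) h5
    have a6 : 14 * (p + 1) ≤ r ^ 2 - 1 := by
      have : 14 * (p + 1) ≤ (r + 1) * (r - 1) :=
        mul_le_mul (by linarith) (by linarith [h.hr, h.hq]) (by linarith) (by linarith)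
      linarith
    have a7 := mul_le_mul_of_nonneg_right a6 h.tb0
    linarith [h.sa1, h.sb0, h.tb0]

/-- the correlation term -/
lemma Dat.sav (h : Dat p q r N sa ta sb tb kb) :
    (q - 1) * (1 - tb) * (1 - (1 - 1 / (2 * (q - 2))) * (1 - sa / q)) ≤ 14 / 9 * (1 - tb) := by
  have hq := h.hq'
  have a0 : 0 < q - 2 := by linarith
  have a1 : (q - 1) * (1 / (2 * (q - 2))) ≤ 5 / 9 := by
    rw [mul_one_div, div_le_div_iff₀ (by positivity) (by norm_num)]
    linarith
  have a2 : 0 ≤ 1 / (2 * (q - 2)) := by positivity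
  have a2' : 1 / (2 * (q - 2)) ≤ 1 := by
    rw [div_le_one (by positivity)]
    linarith
  have a3 : sa / q ≤ 1 / q := div_le_div_of_nonneg_right h.sa1 (by linarith)
  have a4 : (q - 1) * (1 / q) ≤ 1 := by
    rw [mul_one_div, div_le_one (by linarith)]
    linarith
  have a5 : (1 - 1 / (2 * (q - 2))) * (sa / q) ≤ 1 * (1 / q) := by
    have b1 := mul_le_mul_of_nonneg_left a3 (show 0 ≤ 1 - 1 / (2 * (q - 2)) by linarith)
    have b2 := mul_nonneg a2 (show 0 ≤ 1 / q by positivity)
    linarith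
  have a6 := mul_le_mul_of_nonneg_left a5 (show 0 ≤ q - 1 by linarith)
  have a7 : (q - 1) * (1 - (1 - 1 / (2 * (q - 2))) * (1 - sa / q)) ≤ 14 / 9 := by linarith
  have a8 := mul_le_mul_of_nonneg_right a7 h.phi0
  linarith

end Lie

open Pool.Agent.P.MP_e86632_nt.Lex.Lie in
theorem t_LIE (B1 : BW1) (B3 : BW3) (B4 : BW4) (hO : S_OVF) : S_LIE := by
  intro k fl a b hk hab hov
  rw [cm, if_neg (by omega)] at hov
  have hgap := q_gap (k := k - 1) (by omega)
  rw [show k - 1 + 2 = k + 1 by omega, show k - 1 + 1 = k by omega] at hgap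
  have hN := q_succ (k := k - 1) (by omega)
  rw [show k - 1 + 1 = k by omega] at hN
  have hq := q_succ (k := k) (by omega)
  have hr : q (k + 1) + 2 ≤ q (k + 2) := q_succ (k := k + 1) (by omega)
  have hq' : 11 ≤ q (k + 1) := q_ge_eleven (by omega)
  have D : Dat (q k) (q (k + 1)) (q (k + 2)) (q (k - 1) - 1) (sw a (k + 2)) (tw a (k + 2))
      (sw b (k + 2)) (tw b (k + 2)) (kap b (k + 2)) :=
    { hp := q_ge_seven hk
      hq := hq
      hq' := hq'
      hr := hr
      hN := by linarith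
      hN0 := by linarith [q_ge_five (k := k - 1) (by omega)]
      hg := hgap
      sa1 := by linarith [B1.st a (k + 2), B1.t0 a (k + 2)]
      ta0 := B1.t0 _ _
      sb0 := B1.s0 _ _
      tb0 := B1.t0 _ _
      st := B1.st _ _
      tab := (B1.ord b a _).1 hab
      ov := hov
      kb1 := B1.kap _ _ (by omega)
      kb0 := B1.k0 _ _
      ovf := hO (k + 2) a b (q (k + 1) - 1) (by omega) (by linarith) (by linarith) hab
        (by linarith)
      dich := B1.dich _ _
      low := fun h => (B1.low _ _ h).2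
      HHa := fun h => (B1.HH _ _ (by omega) h).1
      HHb := fun h => (B1.HH _ _ (by omega) h).1
      LL := B1.LLphi _ _ (by omega) }
  have hs := B3.branch (k + 1) a b
  have hq0 : 0 < q (k + 1) := q_pos _
  have hC := Cc_ge (k := k + 1) (by omega)
  have h2 := D.tau
  have h3 := D.two
  have h4 := D.sav
  have h5 := D.phi0
  have h6 := mul_le_mul_of_nonneg_right D.hg D.sb0
  have e0 : sw (.I a) (k + 1) = sw a (k + 2) / q (k + 1) := rfl
  have e1 : (q (k + 1) - 1) * sw b (k + 1 + 1) / q (k + 1) - (q k - 1) * sw (.I b) (k + 1) =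
      (q (k + 1) - q k) * sw b (k + 2) / q (k + 1) := by
    simp only [sw]
    ring
  have e2 : 1 - tw (.I b) (k + 1) - (q k - 1) * (tw (.I a) (k + 1) - tw (.J b) (k + 1)) =
      ((q (k + 1) - q k) * (1 - tw b (k + 2)) - (q k - 1) * (q (k + 1) - 1) * tw a (k + 2)) /
        q (k + 1) := by
    simp only [tw]
    field_simp
    ring
  have e3 : 1 - tw (.I b) (k + 1) = (q (k + 1) - 1) * (1 - tw b (k + 2)) / q (k + 1) := by
    simp only [tw]
    field_simp
    ring
  have c1 : (q k - 1) * sw (.I b) (k + 1) ≤ (q (k + 1) - 1) * sw b (k + 1 + 1) / q (k + 1) := by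
    rw [← sub_nonneg, e1]
    exact div_nonneg (mul_nonneg (by linarith) D.sb0) hq0.le
  have c2 : (q k - 1) * (tw (.I a) (k + 1) - tw (.J b) (k + 1)) ≤ 1 - tw (.I b) (k + 1) := by
    rw [← sub_nonneg, e2]
    exact div_nonneg (by linarith) hq0.le
  have U : sw a (k + 2) + (q (k + 1) - 1) * sw b (k + 2) + kap b (k + 2) ≤
      NS k fl * ((q (k + 1) - q k) * sw b (k + 2)) + NT k fl *
        ((q (k + 1) - q k) * (1 - tw b (k + 2)) - (q k - 1) * (q (k + 1) - 1) * tw a (k + 2)) →
      Good k fl (.I a) (.I b) := fun h => by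
    refine B4.redU k fl _ _ _ _ _ hs c1 c2 ?_
    rw [e1, e2, e0, ← mul_div_assoc, ← mul_div_assoc, ← add_div, ← add_div, ← add_div]
    exact div_le_div_of_nonneg_right h hq0.le
  have C : 14 / 9 * (1 - tw b (k + 2)) + (q (k + 1) - 1) * sw b (k + 2) + kap b (k + 2) ≤
      NS k fl * ((q (k + 1) - q k) * sw b (k + 2)) + NT k fl *
        ((q (k + 1) - q k) * (1 - tw b (k + 2)) - (q k - 1) * (q (k + 1) - 1) * tw a (k + 2)) →
      Good k fl (.I a) (.I b) := fun h => by
    refine (B4.redC k fl _ _ _ _ _ hs c1 c2 ?_).good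
    rw [e1, e2, e3, e0, hC, div_mul_eq_mul_div, ← mul_div_assoc, ← mul_div_assoc, ← add_div,
      ← add_div, ← add_div]
    exact div_le_div_of_nonneg_right (by linarith) hq0.le
  cases fl
  · simp only [NS, NT, Bool.false_eq_true, if_false] at U C
    rcases D.caseF with h | h
    · exact U (by linarith)
    · exact C (by linarith)
  · simp only [NS, NT, if_true] at U C
    rcases D.caseT with h | h
    · exact U (by linarith)
    · exact C (by linarith)

end Pool.Agent.P.MP_e86632_nt.Lex
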