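import Pool.Agent.P.MP_e86632_nt.Lex.Iface

/-! Every word is realised by a pair of sets and configurations supported in it. -/

namespace Pool.Agent.P.MP_e86632_nt.Lex

open Finset

namespace Low

/-- the word `w` is realised at depth `n` from level `k` on -/
def Rl (w : Wd) (n k : ℕ) : Prop := ∃ S T : Set (Gam n k), Cross S T ∧
  ∀ (σ : St) (C : Cls k σ), Ok k σ → ∃ α γ, Cfg C S T α γ ∧ Vw w k σ ≤ obj C α γ

lemma bot (n k : ℕ) : Rl .bot n k := by
  refine ⟨∅, Set.univ, fun s hs => hs.elim, fun σ C _ => ⟨fun _ _ => 0, fun _ _ => 1,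
    ⟨fun _ _ => le_rfl, fun _ _ => zero_le_one, fun _ _ => zero_le_one, fun _ _ => le_rfl,
      fun _ _ _ => rfl, fun _ _ h => (h (Set.mem_univ _)).elim, fun _ _ _ => by norm_num⟩, ?_⟩⟩
  simp only [obj, mu_const, mul_zero, sum_const_zero, mul_one, zero_add, C.sB, Vw, le_refl]

lemma flip {w : Wd} {n k : ℕ} (h : Rl w n k) : Rl w.flip n k := by
  obtain ⟨S, T, hc, h⟩ := h
  refine ⟨ng T, ng S, hc.ng, fun σ C ho => ?_⟩
  obtain ⟨α, γ, h, hX⟩ := h σ.swap C.swap ho.swap
  refine ⟨fun a x => γ a (-x), fun b x => α b (-x), ⟨fun _ _ => h.c0 _ _,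
    fun _ _ => h.c1 _ _, fun _ _ => h.a0 _ _, fun _ _ => h.a1 _ _, fun _ _ hx => h.sc _ _ hx,
    fun _ _ hx => h.sa _ _ hx, fun j x hj => ?_⟩, ?_⟩
  · have := h.loc j (-(x + emb (pr j))) hj
    rw [show -(x + emb (pr j)) + emb (pr j) = -x by abel] at this
    exact (add_comm _ _).le.trans this
  · rw [Vw_flip']
    refine hX.trans (le_of_eq ?_)
    unfold obj
    rw [add_comm]
    congr 1 <;> exact sum_congr rfl fun _ _ => by rw [mu_neg]; rfl

lemma mu_hd {n k : ℕ} (f : Gam n (k + 1) → ℝ) (g : ZMod (pr k) → Gam n (k + 1) → ℝ) :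
    q k * mu (fun x : Gam (n + 1) k => if hd x = 0 then f (tl x) else g (hd x) (tl x)) =
      mu f + ∑ v, if v = 0 then 0 else mu (g v) := by
  rw [mu_succ]
  have : ∀ v : ZMod (pr k), mu (fun y => if hd (cons v y) = 0 then f (tl (cons v y))
      else g (hd (cons v y)) (tl (cons v y))) =
      (if v = 0 then mu f else 0) + if v = 0 then 0 else mu (g v) := by
    intro v
    by_cases hv : v = 0 <;> simp [hv]
  rw [sum_congr rfl fun v _ => this v, sum_add_distrib]
  simp

open Classical in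
lemma stepI (B2 : BW2) {w : Wd} {n k : ℕ} (h : Rl w n (k + 1)) : Rl (.I w) (n + 1) k := by
  obtain ⟨S', T', hc, h⟩ := h
  refine ⟨{x | hd x = 0 ∧ tl x ∈ S'}, {x | hd x = 0 ∨ tl x ∈ T'}, ?_, fun σ C ho => ?_⟩
  · rintro s ⟨hs0, hs⟩ t ht ⟨d1, d2⟩
    rcases ht with ht | ht
    · exact d1 (hs0.trans ht.symm)
    · exact hc _ hs _ ht d2
  have hm : mw σ k ≤ σ.u (pr k) := min_le_left _ _
  obtain ⟨α', γ', h, hX⟩ := h _ (C.stepI (mw σ k) hm (ho.cT k le_rfl))
    (B2.okI k σ _ ho (ho.mw0 le_rfl) le_rfl)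
  obtain ⟨al, hal⟩ : ∃ al : C.A → Gam n (k + 1) → ℝ, ∀ a y, al a y =
      if a = C.ia k ∧ σ.u (pr k) ≤ σ.v (pr k) then 0 else α' a y := ⟨_, fun _ _ => rfl⟩
  have l0 : ∀ a y, 0 ≤ al a y := fun a y => by
    rw [hal]; split_ifs; exacts [le_rfl, h.a0 a y]
  have l1 : ∀ a y, al a y ≤ α' a y := fun a y => by
    rw [hal]; split_ifs; exacts [h.a0 a y, le_rfl]
  have l2 : ∀ a y, al a y ≤ 1 := fun a y => (l1 a y).trans (h.a1 a y)
  obtain ⟨g0, hg0⟩ : ∃ g0 : C.B → Gam n (k + 1) → ℝ, ∀ b y, g0 b y =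
      if b = C.ib k then 1 - al (C.ia k) (y + -emb (pr k)) else 1 := ⟨_, fun _ _ => rfl⟩
  have c1 : ∀ b (x : Gam (n + 1) k),
      (if hd x = 0 then g0 b (tl x) else γ' (b, hd x) (tl x)) ≤ 1 := fun b x => by
    split_ifs
    · rw [hg0]; split_ifs
      exacts [by linarith [l0 (C.ia k) (tl x + -emb (pr k))], le_rfl]
    · exact h.c1 _ _
  refine ⟨fun a x => if hd x = 0 then al a (tl x) else 0,
    fun b x => if hd x = 0 then g0 b (tl x) else γ' (b, hd x) (tl x),
    ⟨fun a x => ?_, fun a x => ?_, fun b x => ?_, c1, fun a x hx => ?_, fun b x hx => ?_,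
      fun j x hj => ?_⟩, ?_⟩
  · split_ifs; exacts [l0 _ _, le_rfl]
  · split_ifs; exacts [l2 _ _, zero_le_one]
  · split_ifs
    · rw [hg0]; split_ifs
      exacts [by linarith [l2 (C.ia k) (tl x + -emb (pr k))], zero_le_one]
    · exact h.c0 _ _
  · split_ifs with h0
    · exact le_antisymm ((l1 _ _).trans (h.sa a _ fun e => hx ⟨h0, e⟩).le) (l0 _ _)
    · rfl
  · rw [if_neg fun e => hx (Or.inl e)]
    exact h.sc (b, hd x) _ fun e => hx (Or.inr e)
  · by_cases h0 : hd x = 0
    · rw [if_pos h0]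
      rcases hj.eq_or_lt with rfl | hj
      · rw [if_pos (by rw [hd_add, h0, hd_emb, cast_pr_self, add_zero]), hg0, if_pos rfl, tl_add,
          tl_emb, add_neg_cancel_right]
        linarith
      · have e : hd (x + emb (pr j)) = (pr j : ZMod (pr k)) := by rw [hd_add, h0, hd_emb, zero_add]
        rw [if_neg (by rw [e]; exact cast_pr_ne hj.ne'), e, tl_add, tl_emb]
        have := h.loc j (tl x) hj
        have e2 := l1 (C.ia j) (tl x)
        exact (add_le_add e2 le_rfl).trans this
    · rw [if_neg h0, zero_add]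
      exact c1 _ _
  · have hq := q_pos k
    have eA : ∀ a, q k * mu (fun x : Gam (n + 1) k => if hd x = 0 then al a (tl x) else 0) =
        mu (al a) := fun a => by
      have := mu_hd (al a) (fun _ _ => 0)
      simpa [mu_const] using this
    have eB : ∀ b, q k * mu (fun x : Gam (n + 1) k =>
        if hd x = 0 then g0 b (tl x) else γ' (b, hd x) (tl x)) =
        (1 - if b = C.ib k then mu (al (C.ia k)) else 0) +
          ∑ v, if v = 0 then 0 else mu (γ' (b, v)) := fun b => by
      rw [mu_hd (g0 b) (fun v => γ' (b, v))]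
      congr 1
      have : g0 b = fun y => if b = C.ib k then 1 - al (C.ia k) (y + -emb (pr k)) else 1 :=
        funext (hg0 b)
      rw [this]
      split_ifs
      · rw [mu_sub, mu_const, mu_shift]
      · rw [mu_const, sub_zero]
    have eC : ∀ a, C.wA a * mu (al a) - (if a = C.ia k then σ.v (pr k) * mu (al a) else 0) =
        (C.wA a - if a = C.ia k then mw σ k else 0) * mu (α' a) := fun a => by
      have : al a = fun y => if a = C.ia k ∧ σ.u (pr k) ≤ σ.v (pr k) then 0 else α' a y :=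
        funext (hal a)
      rw [this]
      by_cases ha : a = C.ia k
      · by_cases hu : σ.u (pr k) ≤ σ.v (pr k)
        · have e : mw σ k = σ.u (pr k) := min_eq_left hu
          simp [ha, hu, mu_const, e, C.uA k le_rfl]
        · have e : mw σ k = σ.v (pr k) := min_eq_right (not_le.1 hu).le
          simp only [ha, hu, and_false, if_false, if_true, e]
          ring
      · simp [ha]
    have e1 : obj (C.stepI (mw σ k) hm (ho.cT k le_rfl)) α' γ' =
        ∑ a, (C.wA a - if a = C.ia k then mw σ k else 0) * mu (α' a) +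
          ∑ b, C.wB b * ∑ v, if v = 0 then 0 else mu (γ' (b, v)) := by
      unfold obj
      congr 1
      refine (Fintype.sum_prod_type (α₁ := C.B) (α₂ := ZMod (pr k)) _).trans
        (sum_congr rfl fun b _ => ?_)
      rw [mul_sum]
      refine sum_congr rfl fun v _ => ?_
      show (if v = 0 then 0 else C.wB b) * _ = _
      split_ifs <;> simp
    rw [Vw, div_le_iff₀ hq, mul_comm]
    refine (add_le_add le_rfl hX).trans (le_of_eq ?_)
    rw [e1, obj, mul_add, mul_sum, mul_sum]
    simp only [mul_left_comm (q k), eA, eB, ← eC, sum_sub_distrib, mul_add, mul_sub, mul_one,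
      sum_add_distrib, mul_ite, mul_zero, sum_ite_eq', mem_univ, if_true, C.sB, C.vB k le_rfl]
    ring

end Low

theorem t_LOW (B2 : BW2) : S_LOW := by
  intro w
  induction w with
  | bot => exact fun n k _ => Low.bot n k
  | top => exact fun n k _ => Low.flip (Low.bot n k)
  | I w ih =>
    intro n k h
    cases n with
    | zero => exact absurd h (by simp [Wd.len])
    | succ n => exact Low.stepI B2 (ih n (k + 1) (by simpa [Wd.len] using h))
  | J w ih =>
    intro n k h
    cases n with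
    | zero => exact absurd h (by simp [Wd.len])
    | succ n =>
      have h1 := Low.flip (Low.stepI B2 (Low.flip (ih n (k + 1) (by simpa [Wd.len] using h))))
      simp only [Wd.flip, flip_flip] at h1
      exact h1

end Pool.Agent.P.MP_e86632_nt.Lex
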