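import Pool.Agent.P.MP_e86632_nt.Lex.Iface

/-! The overflow bound and the multiple addition of words. -/

namespace Pool.Agent.P.MP_e86632_nt.Lex

namespace MulA

lemma om_eq {r : ℝ} (h : 2 ≤ r) : om r = 1 / r ^ 2 + 2 / (r ^ 2 * (r - 1)) := by
  have h1 : r - 1 ≠ 0 := by linarith
  have h2 : r ≠ 0 := by linarith
  unfold om
  field_simp
  ring

lemma om_nonneg {r : ℝ} (h : 2 ≤ r) : 0 ≤ om r := by
  unfold om
  have h1 : 0 < r - 1 := by linarith
  positivity

lemma om_anti {r r' : ℝ} (h : 2 ≤ r) (h' : r ≤ r') : om r' ≤ om r := by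
  rw [om_eq h, om_eq (h.trans h')]
  have h1 : 0 < r - 1 := by linarith
  have h2 : 0 < r := by linarith
  gcongr

lemma th_anti {r r' : ℝ} (h : 2 ≤ r) (h' : r ≤ r') : th r' ≤ th r := by
  unfold th
  have h1 : 0 < r - 1 := by linarith
  have := om_anti (r := r + 2) (r' := r' + 2) (by linarith) (by linarith)
  have h2 : 1 / (r' - 1) ≤ 1 / (r - 1) := by gcongr
  linarith

lemma th_ge {r : ℝ} (h : 2 ≤ r) : 1 / (r - 1) ≤ th r := by
  unfold th
  linarith [om_nonneg (r := r + 2) (by linarith)]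

lemma th_nonneg {r : ℝ} (h : 2 ≤ r) : 0 ≤ th r := by
  have h1 : 0 < r - 1 := by linarith
  exact le_trans (by positivity) (th_ge h)

lemma phi_I (w : Wd) (k : ℕ) : 1 - tw (.I w) k = (q k - 1) / q k * (1 - tw w (k + 1)) := by
  have := (q_pos k).ne'
  simp only [tw]
  field_simp
  ring

lemma psi_J (w : Wd) (k : ℕ) : 1 - sw (.J w) k = (q k - 1) * (1 - sw w (k + 1)) / q k := by
  have := (q_pos k).ne'
  simp only [sw]
  field_simp
  ring

lemma ovf_low {r c sa sb ta pb : ℝ} (hr : 5 ≤ r) (hc : c + 3 ≤ r) (h0 : 0 ≤ sb)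
    (h1 : 1 - sa < c * sb) (h2 : sb * (r - 1) ≤ pb) (h3 : ta * (r ^ 2 - 1) ≤ 1 - sa) :
    ta ≤ om r * pb := by
  have a1 : 0 < r - 1 := by linarith
  have a2 : 0 < r ^ 2 - 1 := by nlinarith
  have a3 : 0 ≤ pb := le_trans (by positivity) h2
  have a4 : c * sb ≤ (r - 3) * sb := by gcongr; linarith
  have a5 : ta * (r ^ 2 - 1) * (r - 1) ≤ (r - 3) * pb := by
    calc ta * (r ^ 2 - 1) * (r - 1) ≤ (r - 3) * sb * (r - 1) :=
          mul_le_mul_of_nonneg_right (by linarith) a1.le
      _ = (r - 3) * (sb * (r - 1)) := by ring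
      _ ≤ (r - 3) * pb := by gcongr; linarith
  have a6 : r ^ 2 * (r - 3) ≤ (r + 1) * (r ^ 2 - 1) := by nlinarith
  unfold om
  rw [div_mul_eq_mul_div, le_div_iff₀ (by positivity)]
  refine le_of_mul_le_mul_right ?_ a2
  calc ta * (r ^ 2 * (r - 1)) * (r ^ 2 - 1) = r ^ 2 * (ta * (r ^ 2 - 1) * (r - 1)) := by ring
    _ ≤ r ^ 2 * ((r - 3) * pb) := by gcongr
    _ = r ^ 2 * (r - 3) * pb := by ring
    _ ≤ (r + 1) * (r ^ 2 - 1) * pb := by gcongr
    _ = (r + 1) * pb * (r ^ 2 - 1) := by ring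

end MulA

open MulA

theorem t_OVF (B1 : BW1) : S_OVF := by
  intro k a b c hk hc hcq hs h1
  have hr := q_ge_five hk
  have hp := q_pos k
  have hb0 := B1.s0 b k
  rcases B1.dich b k with hb | hb
  · have h2 := (B1.low b k hb).2
    have h3 : 2 / q k ≤ sw a k := by
      have e1 : c * sw b k ≤ (q k - 3) * (1 / q k) := by gcongr <;> linarith
      have e2 : (q k - 3) * (1 / q k) = 1 - 3 * (1 / q k) := by field_simp
      have e3 : 2 / q k = 2 * (1 / q k) := by ring
      have e4 : 0 < 1 / q k := by positivity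
      linarith
    exact ovf_low hr hcq hb0 h1 h2 (B1.HH a k (by omega) h3).1
  · have hab : tw a k ≤ tw b k := (B1.ord b a k).1 hs
    obtain ⟨a', e1, e2, -⟩ := B1.asJ a k (hab.trans hb)
    have hr' := q_succ (k := k) (by omega)
    have ha0 := B1.s0 a k
    have ha' := B1.s0 a' (k + 1)
    have f1 : 1 < (q k - 2) * sw a k := by
      have : c * sw b k ≤ (q k - 3) * sw a k := by gcongr <;> linarith
      linarith
    have f2 : q k * sw a k = 1 + (q k - 1) * sw a' (k + 1) := by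
      rw [e1]; simp only [sw]; field_simp
    have f3 : 2 < (q k - 2) * (q k - 1) * sw a' (k + 1) := by
      have : q k * 1 < q k * ((q k - 2) * sw a k) := by gcongr
      have g : q k * ((q k - 2) * sw a k) = (q k - 2) * (q k * sw a k) := by ring
      rw [g, f2] at this
      linarith
    have f4 : 2 / q (k + 1) ^ 2 ≤ sw a' (k + 1) := by
      rw [div_le_iff₀ (pow_pos (q_pos _) 2)]
      have : (q k - 2) * (q k - 1) ≤ q (k + 1) ^ 2 := by nlinarith
      nlinarith
    have f5 := B1.T2 a' (k + 1) f4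
    have f6 : 1 / q (k + 1) ≤ 1 / q k := by gcongr; linarith
    have f7 : 1 / q (k + 1) ^ 2 ≤ 1 / q k ^ 2 := by gcongr; linarith
    have f8 : om (q k) * (1 - 1 / q k) = (1 / q k + 1 / q k ^ 2) / q k := by
      have : q k - 1 ≠ 0 := by linarith
      unfold om
      field_simp
    calc tw a k = tw a' (k + 1) / q k := by rw [e2]; simp only [tw]
      _ ≤ (1 / q k + 1 / q k ^ 2) / q k := by gcongr; linarith
      _ = om (q k) * (1 - 1 / q k) := f8.symm
      _ ≤ om (q k) * (1 - tw b k) := by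
        gcongr
        exact om_nonneg (by linarith)

namespace MulA

/-- the conclusion of the multiple addition -/
def Out (k : ℕ) (a b : Wd) (c : ℝ) : Prop :=
  ∃ g κ, Step k a g (min (c * sw b k) (1 - sw a k)) κ ∧
    tw a k - tw g k ≤ th (q k) * (1 - tw b k) ∧ κ * (q k - 2) ≤ 1 - tw b k

lemma min0 (B1 : BW1) (k : ℕ) (a b : Wd) {c : ℝ} (hc : 0 ≤ c) :
    0 ≤ min (c * sw b k) (1 - sw a k) :=
  le_min (mul_nonneg hc (B1.s0 b k)) (by linarith [B1.st a k, B1.t0 a k])

lemma phi0 (B1 : BW1) (k : ℕ) (b : Wd) : 0 ≤ 1 - tw b k := by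
  linarith [B1.st b k, B1.s0 b k]

lemma out_high (B1 : BW1) (B3 : BW3) {k : ℕ} {a b : Wd} {c : ℝ} (hc : 0 ≤ c)
    (hs : sw b k ≤ sw a k) (hb : tw b k ≤ 1 / q k) : Out k a b c := by
  have hr := q_ge_two k
  have hp := q_pos k
  have h1 : sw a k ≤ sw .top k := by
    simp only [sw]; linarith [B1.st a k, B1.t0 a k]
  refine ⟨.top, 0, (B3.gen k a .top h1).mono (min0 B1 k a b hc) (min_le_right _ _) le_rfl, ?_,
    by simpa using phi0 B1 k b⟩
  have hab : tw a k ≤ tw b k := (B1.ord b a k).1 hs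
  have h2 : 0 < q k - 1 := by linarith
  have h3 : 1 / (q k - 1) * (1 - 1 / q k) = 1 / q k := by field_simp
  have h4 : 1 / (q k - 1) * (1 - 1 / q k) ≤ th (q k) * (1 - tw b k) := by
    have : 1 / q k ≤ 1 := by rw [div_le_one hp]; linarith
    exact mul_le_mul (th_ge hr) (by linarith) (by linarith) (th_nonneg hr)
  simp only [tw]
  linarith

lemma out_refl (B1 : BW1) (B3 : BW3) {k : ℕ} {a b : Wd} {c : ℝ} (hc : 0 ≤ c)
    (h : min (c * sw b k) (1 - sw a k) ≤ 0) : Out k a b c := by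
  refine ⟨a, 0, (B3.refl k a).mono (min0 B1 k a b hc) h le_rfl, ?_, by simpa using phi0 B1 k b⟩
  rw [sub_self]
  exact mul_nonneg (th_nonneg (q_ge_two k)) (phi0 B1 k b)

lemma kap_bd {r r' x p : ℝ} (hr : 2 ≤ r) (hr' : r ≤ r') (hx : 0 ≤ x) (h : x * (r' - 2) ≤ p) :
    x / r * (r - 2) ≤ (r - 1) / r * p := by
  have h0 : 0 < r := by linarith
  have h1 : x * (r - 2) ≤ p := le_trans (by gcongr) h
  have h2 : 0 ≤ p := le_trans (mul_nonneg hx (by linarith)) h1
  rw [div_mul_eq_mul_div, div_mul_eq_mul_div]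
  exact div_le_div_of_nonneg_right (by nlinarith) h0.le

lemma out_JI (B1 : BW1) (B3 : BW3) (hA : S_ADD) {k : ℕ} (a b : Wd) {c : ℝ} (hk : 2 ≤ k)
    (hc : 0 ≤ c) (hcq : c ≤ q k - 1) : Out k (.J a) (.I b) c := by
  have hr := q_ge_two k
  have hp := q_pos k
  have hr' := q_succ_one k
  obtain ⟨g, κ, h1, h2, h3⟩ := hA (k + 1) a b (by omega)
  refine ⟨.J g, κ / q k, (B3.stepJ k a g _ κ h1).mono (min0 B1 k _ _ hc) ?_ le_rfl, ?_, ?_⟩
  · rcases min_choice (sw b (k + 1)) (1 - sw a (k + 1)) with e | e <;> rw [e]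
    · refine (min_le_left _ _).trans ?_
      simp only [sw]
      rw [← mul_div_assoc]
      gcongr
      exact B1.s0 _ _
    · rw [psi_J]; exact min_le_right _ _
  · have h4 : 0 < q k - 1 := by linarith
    have h5 := phi0 B1 k (.I b)
    calc tw (.J a) k - tw (.J g) k = (tw a (k + 1) - tw g (k + 1)) / q k := by
          simp only [tw]; ring
      _ ≤ (1 - tw b (k + 1)) / q k := by gcongr
      _ = 1 / (q k - 1) * (1 - tw (.I b) k) := by rw [phi_I]; field_simp
      _ ≤ th (q k) * (1 - tw (.I b) k) := by gcongr; exact th_ge hr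
  · rw [phi_I]
    exact kap_bd hr (by linarith) h1.2.1 h3

lemma out_II (B1 : BW1) (B3 : BW3) {k : ℕ} {a b : Wd} {c : ℝ} (hk : 2 ≤ k)
    (hc : 0 ≤ c) (hcq : c ≤ q k - 1) (hs : sw b (k + 1) ≤ sw a (k + 1))
    (h : sw a (k + 1) + c * sw b (k + 1) ≤ 1) (ih : Out (k + 1) a b c) :
    Out k (.I a) (.I b) c := by
  have hr := q_ge_two k
  have hp := q_pos k
  have hr' := q_succ (k := k) (by omega)
  obtain ⟨g, κ, h1, h2, h3⟩ := ih
  rw [min_eq_left (by linarith)] at h1
  have h5 := phi0 B1 (k + 1) b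
  have hb := B1.s0 b (k + 1)
  refine ⟨.I g, _, (B3.stepI k a g _ κ h1).mono (min0 B1 k _ _ hc) ?_ le_rfl, ?_, ?_⟩
  · refine (min_le_left _ _).trans (le_of_eq ?_)
    simp only [sw]
    ring
  · have h4 : 0 ≤ (q k - 1) / q k := div_nonneg (by linarith) hp.le
    calc tw (.I a) k - tw (.I g) k = (q k - 1) / q k * (tw a (k + 1) - tw g (k + 1)) := by
          simp only [tw]; field_simp; ring
      _ ≤ (q k - 1) / q k * (th (q (k + 1)) * (1 - tw b (k + 1))) := by gcongr
      _ ≤ (q k - 1) / q k * (th (q k) * (1 - tw b (k + 1))) := by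
          gcongr; exact th_anti hr (by linarith)
      _ = th (q k) * (1 - tw (.I b) k) := by rw [phi_I]; ring
  · have h6 : c * sw b (k + 1) ≤ 1 - tw b (k + 1) := by
      rcases B1.dich b (k + 1) with e | e
      · refine le_trans ?_ (B1.low b (k + 1) e).2
        rw [mul_comm]
        gcongr
        linarith
      · linarith [(B1.high b (k + 1) e).1]
    have h7 : κ * (q k - 2) ≤ 1 - tw b (k + 1) := by
      refine le_trans ?_ h3
      have := h1.2.1
      gcongr
      linarith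
    have h8 : c * sw b (k + 1) * (q k - 2) ≤ (1 - tw b (k + 1)) * (q k - 2) := by
      gcongr
    rw [phi_I, div_mul_eq_mul_div, div_mul_eq_mul_div]
    exact div_le_div_of_nonneg_right (by linarith) hp.le

lemma out_br (B1 : BW1) (B3 : BW3) {k : ℕ} {a b : Wd} {c : ℝ} (hk : 2 ≤ k)
    (hc : 0 ≤ c) (hcq : c ≤ q k - 1) (hs : sw b (k + 1) ≤ sw a (k + 1))
    (h : 1 - sw a (k + 1) < c * sw b (k + 1)) : Out k (.I a) (.I b) c := by
  have hr := q_ge_two k
  have hp := q_pos k
  have hr' := q_succ (k := k) (by omega)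
  have h1 := t_OVF B1 (k + 1) a b c (by omega) hc (by linarith) hs h
  have h5 := phi0 B1 (k + 1) b
  have h2 : tw a (k + 1) ≤ om (q k + 2) * (1 - tw b (k + 1)) := by
    refine h1.trans ?_
    gcongr
    exact om_anti (by linarith) hr'
  refine ⟨.J b, _, (B3.branch k a b).mono (min0 B1 k _ _ hc) ?_ le_rfl, ?_, ?_⟩
  · refine (min_le_left _ _).trans ?_
    simp only [sw]
    rw [← mul_div_assoc]
    gcongr
    exact B1.s0 _ _
  · have h4 : 0 < q k - 1 := by linarith
    calc tw (.I a) k - tw (.J b) k = (1 - tw b (k + 1) + (q k - 1) * tw a (k + 1)) / q k := by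
          simp only [tw]; field_simp; ring
      _ ≤ (1 - tw b (k + 1) + (q k - 1) * (om (q k + 2) * (1 - tw b (k + 1)))) / q k := by gcongr
      _ = th (q k) * (1 - tw (.I b) k) := by rw [phi_I]; unfold th; field_simp
  · rw [phi_I]
    exact kap_bd hr (by linarith) (B1.k0 _ _) (B1.kap b (k + 1) (by omega))

lemma out_all (B1 : BW1) (B3 : BW3) (hA : S_ADD) {c : ℝ} (hc : 0 ≤ c) (b : Wd) :
    ∀ k a, 2 ≤ k → c ≤ q k - 1 → sw b k ≤ sw a k → Out k a b c := by
  induction b with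
  | bot =>
    intro k a _ _ _
    exact out_refl B1 B3 hc ((min_le_left _ _).trans (by simp [sw]))
  | top =>
    intro k a _ _ hs
    exact out_high B1 B3 hc hs (by simp only [tw]; exact (one_div_pos.2 (q_pos k)).le)
  | J b _ =>
    intro k a _ _ hs
    refine out_high B1 B3 hc hs ?_
    have := q_pos k
    simp only [tw]
    gcongr
    linarith [phi0 B1 (k + 1) b]
  | I b ih =>
    intro k a hk hcq hs
    cases a with
    | bot =>
      refine out_refl B1 B3 hc ((min_le_left _ _).trans ?_)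
      exact mul_nonpos_of_nonneg_of_nonpos hc hs
    | top => exact out_refl B1 B3 hc ((min_le_right _ _).trans (by simp [sw]))
    | J a => exact out_JI B1 B3 hA a b hk hc hcq
    | I a =>
      have hs' : sw b (k + 1) ≤ sw a (k + 1) := by
        simp only [sw] at hs
        exact (div_le_div_iff_of_pos_right (q_pos k)).1 hs
      by_cases h : sw a (k + 1) + c * sw b (k + 1) ≤ 1
      · exact out_II B1 B3 hk hc hcq hs' h
          (ih (k + 1) a (by omega) (by linarith [q_succ_one k]) hs')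
      · exact out_br B1 B3 hk hc hcq hs' (by linarith [not_le.1 h])

end MulA

theorem t_MUL (B1 : BW1) (B3 : BW3) (hA : S_ADD) : S_MUL :=
  fun k a b _ hk hc hcq hs => MulA.out_all B1 B3 hA hc b k a hk hcq hs

end Pool.Agent.P.MP_e86632_nt.Lex
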