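import Pool.Agent.P.MP_e86632_nt.Lex.Iface

/-! Sections of configurations and the three forms of the upper bound. -/

namespace Pool.Agent.P.MP_e86632_nt.Lex

open Finset

namespace Sec

lemma sum_shift {k : ℕ} (v0 : ZMod (pr k)) (G : ZMod (pr k) → ℝ) :
    ∑ v, G v = (∑ v, if v = 0 then 0 else G (v0 + v)) + G v0 := by
  rw [← Equiv.sum_comp (Equiv.addLeft v0) G]
  have : ∀ v, G (Equiv.addLeft v0 v) =
      (if v = 0 then 0 else G (v0 + v)) + if v = 0 then G v0 else 0 := by
    intro v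
    split_ifs with h
    · simp [h]
    · simp
  simp only [this, sum_add_distrib, sum_ite_eq', mem_univ, if_true]

lemma Cc_nonneg (k : ℕ) (hk : 1 ≤ k) : 0 ≤ Cc k := by
  unfold Cc
  split_ifs
  · norm_num
  · norm_num
  · norm_num
  · have h := q_ge_eleven (k := k) (by omega)
    rw [sub_nonneg, div_le_one (by linarith)]
    linarith

lemma sum_le {B : Type} [Fintype B] {w g : B → ℝ} {b0 : B} {m c : ℝ} (hw : ∀ b, 0 ≤ w b)
    (hm : m ≤ w b0) (hg : ∀ b, g b ≤ c) :
    ∑ b, w b * g b ≤ (∑ b, w b - m) * c + m * g b0 := by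
  have h1 : w b0 * (c - g b0) ≤ ∑ b, w b * (c - g b) :=
    single_le_sum (f := fun b => w b * (c - g b))
      (fun b _ => mul_nonneg (hw b) (sub_nonneg.2 (hg b))) (mem_univ b0)
  have h2 := mul_le_mul_of_nonneg_right hm (sub_nonneg.2 (hg b0))
  simp only [mul_sub, sum_sub_distrib, ← sum_mul] at h1 h2
  linarith

end Sec

theorem t_SEC : S_SEC := by
  classical
  intro n k σ C S T α γ v0 m h hc hm
  refine ⟨obj (C.stepI m hm hc) (fun a x => α a (cons v0 x))
    (fun b y => if b.2 = 0 then 0 else γ b.1 (cons (v0 + b.2) y)),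
    ⟨C.stepI m hm hc, _, _, ⟨fun a x => h.a0 _ _, fun a x => h.a1 _ _, fun b x => ?_, fun b x => ?_,
      fun a x hx => h.sa a _ hx, fun b x hx => ?_, fun j x hj => ?_⟩, le_rfl⟩, ?_⟩
  · split_ifs
    exacts [le_rfl, h.c0 _ _]
  · split_ifs
    exacts [zero_le_one, h.c1 _ _]
  · split_ifs with h0
    · rfl
    · exact h.sc _ _ fun ht => hx ⟨v0 + b.2, by simpa using h0, ht⟩
  · show α (C.ia j) (cons v0 x) + (if (pr j : ZMod (pr k)) = 0 then 0 else
      γ (C.ib j) (cons (v0 + pr j) (x + emb (pr j)))) ≤ 1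
    rw [if_neg (cast_pr_ne (by omega))]
    exact h.loc j (cons v0 x) (by omega)
  · have e1 : ∀ a, q k * (C.wA a * mu (α a)) = C.wA a * mu (fun x => α a (cons v0 x)) +
        C.wA a * ∑ v ∈ univ.erase v0, mu (fun x => α a (cons v x)) := fun a => by
      rw [mul_left_comm, mu_succ, ← add_sum_erase _ _ (mem_univ v0), mul_add]
    have e2 : ∀ b, q k * (C.wB b * mu (γ b)) = (∑ v : ZMod (pr k), (if v = 0 then 0 else C.wB b) *
        mu (fun y => if v = 0 then 0 else γ b (cons (v0 + v) y))) +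
        C.wB b * mu (fun x => γ b (cons v0 x)) := fun b => by
      rw [mul_left_comm, mu_succ, Sec.sum_shift v0, mul_add, mul_sum]
      congr 1
      refine sum_congr rfl fun v _ => ?_
      split_ifs <;> simp
    have e3 : obj (C.stepI m hm hc) (fun a x => α a (cons v0 x))
        (fun b y => if b.2 = 0 then 0 else γ b.1 (cons (v0 + b.2) y)) =
        ∑ a, (C.wA a - if a = C.ia k then m else 0) * mu (fun x => α a (cons v0 x)) +
        ∑ b, ∑ v : ZMod (pr k), (if v = 0 then 0 else C.wB b) *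
          mu (fun y => if v = 0 then 0 else γ b (cons (v0 + v) y)) := by
      unfold obj
      congr 1
      exact Fintype.sum_prod_type (α₁ := C.B) (α₂ := ZMod (pr k)) _
    rw [e3, obj, mul_add, mul_sum, mul_sum]
    simp only [e1, e2, sum_add_distrib, sub_mul, sum_sub_distrib, ite_mul, zero_mul, sum_ite_eq',
      mem_univ, if_true]
    ring

theorem t_FORMS (B1 : BW1) (B2 : BW2) (hC : S_COR) : S_FORMS := by
  intro n k fl σ X S T v0 e b c hk hcl hy ⟨C, α, γ, h, hX⟩ hD hb hc c1
  have ho := hy.1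
  have m0 := ho.mw0 (le_refl k)
  have hq := q_pos k
  have hA : ∑ a, C.wA a * ∑ v ∈ univ.erase v0, mu (fun x => α a (cons v x)) ≤
      (q k - 1) * σ.WS * b := by
    rw [mul_comm (q k - 1), mul_assoc, ← C.sA, sum_mul]
    refine sum_le_sum fun a _ => mul_le_mul_of_nonneg_left ?_ (C.wA0 a)
    refine (sum_le_card_nsmul _ _ b fun v hv => ?_).trans (le_of_eq ?_)
    · exact (mu_le_ms (S := sec S v) (fun x => h.a1 a (cons v x))
        fun x hx => h.sa a (cons v x) hx).trans (hb v (ne_of_mem_erase hv))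
    · rw [nsmul_eq_mul, card_erase_of_mem (mem_univ v0), card_univ, Nat.cast_pred Fintype.card_pos,
        card_zmod]
  have hg : ∀ b', mu (fun x => γ b' (cons v0 x)) ≤ ms (sec T v0) := fun b' =>
    mu_le_ms (fun x => h.c1 b' _) fun x hx => h.sc b' _ hx
  have hf : mu (fun x => α (C.ia k) (cons v0 x)) ≤ ms (sec S v0) :=
    mu_le_ms (fun x => h.a1 _ _) fun x hx => h.sa _ _ hx
  have key : ∀ m, 0 ≤ m → m ≤ mw σ k → q k * X ≤ Vw e (k + 1) (σ.stepI (pr k) m) +
      (q k - 1) * σ.WS * b + (σ.WT - m) * c + m * (mu (fun x => α (C.ia k) (cons v0 x)) +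
        mu (fun x => γ (C.ib k) (cons v0 x))) := fun m h0 h1 => by
    obtain ⟨X1, h2, h3⟩ := t_SEC n k σ C S T α γ v0 m h (ho.cT k le_rfl) (h1.trans (min_le_left _ _))
    have h4 := hD.2.2 _ X1 (B2.hypI k fl σ m hk hy h0 h1) h2
    have h5 := Sec.sum_le (b0 := C.ib k) (m := m) C.wB0
      (by rw [C.vB k le_rfl]; exact h1.trans (min_le_right _ _)) fun b' => (hg b').trans hc
    rw [C.sB] at h5
    have h6 := mul_le_mul_of_nonneg_left hX hq.le
    linarith
  refine ⟨(key _ m0 le_rfl).trans (add_le_add_right (mul_le_mul_of_nonneg_left ?_ m0) _),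
    (key _ m0 le_rfl).trans (add_le_add_right (mul_le_mul_of_nonneg_left ?_ m0) _), ?_⟩
  · have h1 := conf (A := Nb (oth T v0)) (B := Nb (oth S v0))
      (f := fun x => α (C.ia k) (cons v0 x)) (h := fun x => γ (C.ib k) (cons v0 x)) (emb (pr k))
      (fun x hx => h.sa _ _ fun hs => (hcl.secS v0).le hs hx)
      (fun x hx => h.sc _ _ fun hs => (hcl.secT v0).le hs hx)
      (fun x => by
        have := h.loc k (cons v0 x) le_rfl
        rwa [cons_add, hd_emb, tl_emb, cast_pr_self, add_zero] at this)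
    have h2 := hC n (k + 1) (oth T v0) (oth S v0) (emb (pr k)) (by omega)
    have h3 : 1 - sw e (k + 1) ≤ ms (Nb (oth T v0)) := by
      have := hD.1
      rw [hcl.secS, ms_compl] at this
      linarith
    have h4 : 1 - c ≤ ms (Nb (oth S v0)) := by
      rw [hcl.secT, ms_compl] at hc
      linarith
    have h5 := Sec.Cc_nonneg (k + 1) (by omega)
    have h6 : Cc (k + 1) * (1 - sw e (k + 1)) * (1 - c) ≤
        Cc (k + 1) * ms (Nb (oth T v0)) * ms (Nb (oth S v0)) :=
      mul_le_mul (mul_le_mul_of_nonneg_left h3 h5) h4 (sub_nonneg.2 c1)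
        (mul_nonneg h5 (ms_nonneg _))
    linarith
  · exact add_le_add (hf.trans hD.1) ((hg _).trans hc)
  · have := key 0 le_rfl m0
    rw [sub_zero, zero_mul, add_zero] at this
    exact this

end Pool.Agent.P.MP_e86632_nt.Lex
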