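import Pool.Agent.P.MP_e86632_nt.Lex.Iface

/-! Separation of a planar convex set from an open quadrant. -/

namespace Pool.Agent.P.MP_e86632_nt.Lex

namespace Sep

theorem lin (f : StrongDual ℝ (ℝ × ℝ)) (u v : ℝ) :
    f (u, v) = u * f (1, 0) + v * f (0, 1) := by
  have h : ((u, v) : ℝ × ℝ) = u • ((1, 0) : ℝ × ℝ) + v • ((0, 1) : ℝ × ℝ) := by
    ext <;> simp
  rw [h, map_add, map_smul, map_smul, smul_eq_mul, smul_eq_mul]

theorem nonpos (c a s : ℝ) (h : ∀ R, 0 ≤ R → c + R * a < s) : a ≤ 0 := by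
  by_contra ha
  push Not at ha
  have h0 := h 0 le_rfl
  have h1 := h ((s - c) / a) (div_nonneg (by linarith) ha.le)
  rw [div_mul_cancel₀ _ ha.ne'] at h1
  linarith

end Sep

theorem t_SEP : S_SEP := by
  intro K x y hK h1 hl ε hε
  by_contra hcon
  push Not at hcon
  let Q : Set (ℝ × ℝ) := Set.Ioi (x - ε) ×ˢ Set.Ioi (y - ε)
  have hQc : Convex ℝ Q := (convex_Ioi _).prod (convex_Ioi _)
  have hQo : IsOpen Q := isOpen_Ioi.prod isOpen_Ioi
  have hd : Disjoint Q K := by
    rw [Set.disjoint_left]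
    rintro p ⟨hp1, hp2⟩ hp
    have := hcon p hp (le_of_lt hp1)
    exact absurd (Set.mem_Ioi.1 hp2) (not_lt.2 this.le)
  obtain ⟨f, s, hfs, hsf⟩ := geometric_hahn_banach_open hQc hQo hK hd
  have hQ : ∀ u v, x - ε < u → y - ε < v → u * f (1, 0) + v * f (0, 1) < s := by
    intro u v hu hv
    rw [← Sep.lin]
    exact hfs (u, v) ⟨hu, hv⟩
  have hKs : ∀ p ∈ K, s ≤ p.1 * f (1, 0) + p.2 * f (0, 1) := by
    intro p hp
    rw [← Sep.lin]
    exact hsf p hp
  generalize f (1, 0) = a at hQ hKs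
  generalize f (0, 1) = b at hQ hKs
  have ha : a ≤ 0 := by
    refine Sep.nonpos (x * a + y * b) a s fun R hR => ?_
    have := hQ (x + R) y (by linarith) (by linarith)
    linarith
  have hb : b ≤ 0 := by
    refine Sep.nonpos (x * a + y * b) b s fun R hR => ?_
    have := hQ x (y + R) (by linarith) (by linarith)
    linarith
  have hm := hQ (x - ε / 2) (y - ε / 2) (by linarith) (by linarith)
  rcases hb.lt_or_eq with hb | hb
  · obtain ⟨p, hp, hlp⟩ := hl (a / b) (div_nonneg_of_nonpos ha hb.le)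
    have h2 := hKs p hp
    have h3 : (a / b * p.1 + p.2) * b ≤ (a / b * x + y) * b :=
      mul_le_mul_of_nonpos_right hlp hb.le
    have e1 : (a / b * p.1 + p.2) * b = p.1 * a + p.2 * b := by
      field_simp [hb.ne]
    have e2 : (a / b * x + y) * b = x * a + y * b := by
      field_simp [hb.ne]
    rw [e1, e2] at h3
    nlinarith [mul_nonneg hε.le (neg_nonneg.2 ha), mul_pos hε (neg_pos.2 hb)]
  · subst hb
    have hl0 : 0 ≤ 2 / ε * (|y| + 2) := by positivity
    obtain ⟨p, hp, hlp⟩ := hl _ hl0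
    have h2 := hKs p hp
    have h3 : (x - ε / 2) * a < p.1 * a := by linarith
    have h4 : p.1 < x - ε / 2 := by
      by_contra h5
      push Not at h5
      nlinarith [mul_nonneg (sub_nonneg.2 h5) (neg_nonneg.2 ha)]
    have h5 := h1 p hp
    have h6 : 2 / ε * (|y| + 2) * p.1 ≤ 2 / ε * (|y| + 2) * (x - ε / 2) :=
      mul_le_mul_of_nonneg_left h4.le hl0
    have e : 2 / ε * (|y| + 2) * (x - ε / 2) = 2 / ε * (|y| + 2) * x - (|y| + 2) := by
      field_simp
    have h7 := neg_abs_le y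
    linarith

end Pool.Agent.P.MP_e86632_nt.Lex
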