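import Pool.Agent.P.MP_e86632_nt.Lex.Iface

/-! The upper bounds at level `0` and the exceptional window. -/

namespace Pool.Agent.P.MP_e86632_nt.Lex

open Finset

namespace Tf

lemma sw_le (B1 : BW1) (w : Wd) (k : ℕ) : sw w k ≤ 1 := by linarith [B1.st w k, B1.t0 w k]

lemma tw_le (B1 : BW1) (w : Wd) (k : ℕ) : tw w k ≤ 1 := by linarith [B1.st w k, B1.s0 w k]

lemma comb {U v m a g a' g' Bk s t G : ℝ} (hU : 0 ≤ U) (hm : 0 ≤ m) (hv : m ≤ v)
    (h1 : (U - m) * a + v * g ≤ Bk) (h2 : a + g' ≤ G) (h3 : a' ≤ s) (h4 : g' ≤ t) :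
    U * (a + a') + v * (g + g') ≤ Bk + U * s + (v - m) * t + m * G := by
  have := mul_le_mul_of_nonneg_left h2 hm
  have := mul_le_mul_of_nonneg_left h3 hU
  have := mul_le_mul_of_nonneg_left h4 (sub_nonneg.2 hv)
  linarith

/-- the smaller of two words -/
lemma small (B1 : BW1) (a b : Wd) (k : ℕ) : ∃ z, sw z k ≤ sw b k ∧ tw a k ≤ tw z k ∧
    tw b k ≤ tw z k ∧ ∀ t, t ≤ sw a k → t ≤ sw b k → t ≤ sw z k := by
  rcases le_total (sw a k) (sw b k) with h | h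
  · exact ⟨a, h, le_rfl, (B1.ord _ _ _).1 h, fun _ h _ => h⟩
  · exact ⟨b, le_rfl, (B1.ord _ _ _).1 h, le_rfl, fun _ _ h => h⟩

end Tf

open Tf

theorem t_TF (B1 : BW1) (hC : S_COR) : S_TF := by
  intro n SA TA SB TB c e1 e2 αA γA αB γB U v cA cB dA dB h hU hv
  have hm : 0 ≤ min U v := le_min hU hv
  have hu : 0 ≤ U - min U v := sub_nonneg.2 (min_le_left _ _)
  have bA := fun u (hu : 0 ≤ u) => dA.2.2 _ _ (hyp_st1 false hu hv) (h.hA.bd hu hv)
  have bB := dB.2.2 _ _ (hyp_st1 false hU hv) (h.hB.bd hU hv)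
  have h3 := h.hB.muA.trans dB.1
  have h4 := h.hB.muC.trans dB.2.1
  have hc := conf (A := Nb TA) (B := Nb SB) c
    (fun x hx => h.hA.sa x (by rw [cA.1]; exact not_not.2 hx))
    (fun x hx => h.hB.sc x (by rw [cB.2]; exact not_not.2 hx)) h.con
  have n1 : 1 - sw e1 1 ≤ ms (Nb TA) := by
    have := ms_compl (Nb TA)
    rw [← cA.1] at this
    linarith [dA.1]
  have n2 : 1 - tw e2 1 ≤ ms (Nb SB) := by
    have := ms_compl (Nb SB)
    rw [← cB.2] at this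
    linarith [dB.2.1]
  have hg : mu αA + mu γB ≤ 1 - gf e1 * (1 - tw e2 1) := by
    have h5 := hC n 1 TA SB c le_rfl
    have h6 := mul_le_mul n1 n2 (sub_nonneg.2 (tw_le B1 _ _)) (ms_nonneg _)
    rw [Cc_one] at h5
    unfold gf
    linarith
  refine ⟨?_, comb hU hm (min_le_right _ _) (bA _ hu) hg h3 h4, fun h5 => ?_, fun h5 => ?_⟩
  · unfold F0
    linarith [bA U hU]
  · exact comb hU hm (min_le_right _ _)
      (add_le_add (mul_le_mul_of_nonneg_left (h.hA.muA.trans dA.1) hu)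
        (mul_le_mul_of_nonneg_left (h.hA.muC.trans h5) hv)) hg h3 h4
  · exact comb hU hm (min_le_right _ _) (bA _ hu) (by linarith) h3 h4

theorem t_TW3 (B1 : BW1) (hF : S_FORMS) (hB : S_BR) (hW : S_W3) : S_TW3 := by
  intro n SA TA SB TB c v0 h1 h2 b hD cA cB d1 d2 k1 k2 k3 k4
  obtain ⟨x1, hx1⟩ := Finite.exists_max fun v => ms (sec SB v)
  obtain ⟨w1, e1⟩ := hD _ _ (cB.cross.secI x1) false
  obtain ⟨w2, e2⟩ := hD _ _ (cB.cross.secJ x1) false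
  obtain ⟨z1, -, a1, a2, a3⟩ := small B1 w1 b 2
  obtain ⟨z2, b0, b1, -, b3⟩ := small B1 w2 z1 2
  have s1 : ms (sec SB x1) ≤ sw z1 2 := a3 _ e1.1 (by
    have h5 := ms_succ SB
    have h6 := single_le_sum (f := fun v => ms (sec SB v)) (fun _ _ => ms_nonneg _) (mem_univ x1)
    rw [q_one] at h5
    linarith)
  have s2 : ∀ v, v ≠ x1 → ms (sec SB v) ≤ sw z2 2 := fun v hv =>
    b3 _ ((ms_mono (sec_sub_oth SB hv)).trans e2.1) ((hx1 v).trans s1)
  have s3 : ∀ v, v ≠ v0 → ms (sec SA v) ≤ sw h2 2 := fun v hv =>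
    (ms_mono (sec_sub_oth SA hv)).trans d2.1
  obtain ⟨g, hg⟩ := hW h1 h2 z1 z2 k1 k2 (k4.trans a2) b0
  refine ⟨.I g, fun αA γA αB γB U v h hU hv => ?_⟩
  have hm : 0 ≤ min U v := le_min hU hv
  have hu : 0 ≤ U - min U v := sub_nonneg.2 (min_le_left _ _)
  have hv' : 0 ≤ v - min U v := sub_nonneg.2 (min_le_right _ _)
  have f1 := (hF n 1 false _ _ SA TA v0 h1 (sw h2 2) (tw h2 2) le_rfl cA (hyp_st1 false hu hv)
    (h.hA.bd hu hv) d1 s3 d2.2.1 (tw_le B1 _ _)).1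
  have f2 := (hF n 1 true _ _ (ng TA) (ng SA) (-v0) h2.flip (tw h1 2) (sw h1 2) le_rfl cA.ng
    (hyp_st1 false hu hv).swap (h.hA.bd hu hv).ng
    (by rw [sec_ng, oth_ng, neg_neg]; exact d2.ng)
    (fun w hw => by
      rw [sec_ng, ms_ng]
      exact (ms_mono (sec_sub_oth TA fun e => hw (neg_eq_iff_eq_neg.1 e))).trans d1.2.1)
    (by rw [sec_ng, ms_ng, neg_neg]; exact d1.1) (sw_le B1 _ _)).1
  have f3 := hg _ _ _ hu hv f1 f2
  obtain ⟨r1, r2, r3⟩ := hB n SA TA SB TB c αA γA αB γB v0 x1 (sw h2 2) (sw z1 2) (sw z2 2)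
    (1 - tw z1 2) (1 - tw z2 2) cA cB h s3 s1 s2
    (fun w hw => by
      rw [sub_sub_cancel]
      exact ((ms_mono (sec_sub_oth TB hw)).trans e1.2.1).trans a1)
    (by rw [sub_sub_cancel]; exact e2.2.1.trans b1) (sub_nonneg.2 (tw_le B1 _ _))
    (sub_nonneg.2 (tw_le B1 _ _)) (sw_le B1 _ _) (sw_le B1 _ _)
  rw [Vw_I_st0]
  rw [q_one] at f3
  generalize hG : min (2 * (1 - tw z1 2))
    (brk (sw h2 2) (sw z1 2) (sw z2 2) (1 - tw z1 2) (1 - tw z2 2)) = G at f3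
  have g1 : 3 * mu γB ≤ 3 - G := r1.trans (sub_le_sub_left (hG ▸ min_le_left _ _) 3)
  have g2 : 3 * (mu αA + mu αB + mu γB) ≤ 3 - G :=
    r3.trans (sub_le_sub_left (hG ▸ min_le_right _ _) 3)
  have := mul_le_mul_of_nonneg_left g1 hv'
  have := mul_le_mul_of_nonneg_left g2 hm
  have := mul_le_mul_of_nonneg_left r2 hu
  linarith

end Pool.Agent.P.MP_e86632_nt.Lex
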