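import Pool.Agent.P.MP_e86632_nt.Lex.Step

/-! The prime `2`. -/

namespace Pool.Agent.P.MP_e86632_nt.Lex

open Finset

theorem t_TOPA (hN : S_NUM) (hC : S_COR3) (hL : S_L2A) (hT : S_TF) (hW : S_TW3) : S_TOPA := by
  intro n SA TA SB TB c e1 e2 hD cA cB d1 d2 h1 h2
  rcases hL e1 e2 h1 h2 with ⟨g, hg⟩ | ⟨b, g, b1, b2, g1, g2⟩
  · exact ⟨g, fun αA γA αB γB U v h hU hv =>
      have := hT _ SA TA SB TB c e1 e2 αA γA αB γB U v cA cB d1 d2 h hU hv
      hg U v _ hU hv this.1 this.2.1⟩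
  by_cases hp : ∀ v w, v ≠ w → ms (sec SA v) + ms (sec SA w) ≤ 3 / 4
  · refine ⟨g, fun αA γA αB γB U v h hU hv => g1 U v _ hU hv
      ((hT _ SA TA SB TB c e1 e2 αA γA αB γB U v cA cB d1 d2 h hU hv).2.2.2
        (hC n TA SB c fun v w hvw => ?_))⟩
    have := hp v w hvw
    rw [cA.secS, cA.secS, ms_compl, ms_compl, ← sec_Nb, ← sec_Nb] at this
    linarith
  push Not at hp
  obtain ⟨v, w, hvw, hp⟩ := hp
  obtain ⟨v0, hv0⟩ := Finite.exists_max fun v => ms (sec SA v)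
  obtain ⟨η1, f1⟩ := hD _ _ (cA.cross.secI v0) false
  obtain ⟨η2, f2⟩ := hD _ _ (cA.cross.secJ v0) true
  have a1 : ∀ x, ms (sec SA x) ≤ sw η1 2 := fun x => (hv0 x).trans f1.1
  have a2 : ∀ x, x ≠ v0 → ms (sec SA x) ≤ sw η2 2 := fun x hx =>
    (ms_mono (sec_sub_oth SA hx)).trans f2.1
  have a3 : 3 / 4 < sw η1 2 + sw η2 2 := by
    by_cases h : v = v0
    · linarith [a1 v, a2 w fun e => hvw (h.trans e.symm)]
    · linarith [a1 w, a2 v h]
  rcases le_or_gt (sw η2 2) (6 / 35) with h | h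
  · exact hW n SA TA SB TB c v0 η1 η2 b hD cA cB f1 f2 (by linarith) h (by linarith [d2.1]) b2
  · have t1 := hN.2.1 η1 (by linarith [a1 v, a1 w])
    have t2 := hN.2.2 η2 h
    have t3 := sum_le_of (fun x => ms (sec TA x)) v0 (f2.2.1.trans t2)
      fun x hx => (ms_mono (sec_sub_oth TA hx)).trans (f1.2.1.trans t1)
    rw [← ms_succ, q_one] at t3
    exact ⟨g, fun αA γA αB γB U v h hU hv =>
      have := hT _ SA TA SB TB c e1 e2 αA γA αB γB U v cA cB d1 d2 h hU hv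
      g2 U v _ hU hv this.2.1 (this.2.2.1 (by linarith))⟩

/-- `TOPA` without the assumption `b ≤ d` -/
lemma topb (B1 : BW1) (hA : S_TOPA) {n : ℕ} {SA TA SB TB : Set (Gam (n + 1) 1)} (c : Gam (n + 1) 1)
    {e1 e2 : Wd} (hD : Dom n 2) (cA : Closed SA TA) (cB : Closed SB TB) (d1 : DomW SA TA e1 false)
    (d2 : DomW SB TB e2 false) (h : sw e2 1 ≤ sw e1 1) : Goal0 SA TA SB TB c := by
  rcases le_total (sw e2 1) (tw e1 1) with h' | h'
  · exact hA n SA TA SB TB c e1 e2 hD cA cB d1 d2 h h'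
  obtain ⟨g, hg⟩ := hA n _ _ _ _ c e2.flip e1.flip hD cB.ng cA.ng d2.ng.flag d1.ng.flag
    (by simpa using (B1.ord _ _ _).1 h) (by simpa using h')
  refine ⟨g.flip, fun αA γA αB γB U v t hU hv => ?_⟩
  have := hg _ _ _ _ v U ⟨t.hB.ng, t.hA.ng, fun x => by
    have := t.con (-(x + c))
    rw [show -(x + c) + c = -x by abel] at this
    linarith⟩ hv hU
  simp only [mu_neg] at this
  rw [Vw_flip', st0_swap]
  linarith

lemma oth_two {n : ℕ} (S : Set (Gam (n + 1) 0)) (v : ZMod (pr 0)) : oth S v = sec S (v + 1) := by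
  ext x
  exact ⟨fun ⟨w, hw, hx⟩ => (two_cases v w).1.1 hw ▸ hx, fun hx => ⟨_, (two_cases v _).1.2 rfl, hx⟩⟩

theorem t_TOP (B1 : BW1) (hS : S_STEP) (hA : S_TOPA) : S_TOP := by
  intro n S' T' hc'
  obtain ⟨S, T, s1, s2, hc⟩ := hc'.closure
  have cl : ∀ v, Closed (sec S v) (sec T (v + 1)) := fun v =>
    ⟨by rw [hc.secS, oth_two], by rw [hc.secT, oth_two, (two_cases v v).2]⟩
  have hw := fun v => dom_all hS (n + 1) 1 le_rfl _ _ (cl v).cross false
  choose e he using hw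
  obtain ⟨v, hv⟩ := Finite.exists_max fun v => sw (e v) 1
  obtain ⟨g, hg⟩ := topb B1 hA (emb (pr 0)) (dom_all hS n 2 (by omega)) (cl v) (cl (v + 1))
    (he v) (he (v + 1)) (hv _)
  refine ⟨g, fun α γ U u h hU hu => ?_⟩
  replace h := h.mono s1 s2
  have cf : ∀ v, Cfs (sec S v) (sec T (v + 1)) (fun x => α (cons v x))
      fun x => γ (cons (v + 1) x) := fun v =>
    ⟨fun _ => h.a0 _, fun _ => h.a1 _, fun _ => h.c0 _, fun _ => h.c1 _, fun _ hx => h.sa _ hx,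
      fun _ hx => h.sc _ hx, fun j x hj => by
        have := h.loc j (cons v x) (Nat.zero_le _)
        rwa [cons_add, hd_emb, tl_emb, cast_odd hj] at this⟩
  have := hg _ _ _ _ U u ⟨cf v, cf (v + 1), fun x => by
    have := h.loc 0 (cons v x) le_rfl
    rw [cons_add, hd_emb, tl_emb, cast_pr_self, add_zero] at this
    rwa [(two_cases v v).2]⟩ hU hu
  have m1 := mu_succ α
  have m2 := mu_succ γ
  rw [sum_two v, q_zero] at m1
  rw [sum_two (v + 1), q_zero] at m2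
  rw [← m1, ← m2] at this
  linarith

end Pool.Agent.P.MP_e86632_nt.Lex
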