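import Pool.Agent.P.MP_e86632_nt.Lex.Iface

/-! The exceptional window at level `0` and the case analysis for two words of level `1`. -/

namespace Pool.Agent.P.MP_e86632_nt.Lex

namespace W12

lemma R0 (B1 : BW1) {e1 e2 g : Wd} {G L U v Y : ℝ} (hv : 0 ≤ v)
    (hR : Vw e1 1 (st1 (U - min U v) v) + (U - min U v) * sw e2 1 - v * L ≤
      Vw g 1 (st1 (U - min U v) v))
    (hL : L + sw e2 1 ≤ G * (1 - tw e2 1)) (hG : G ≤ 1) (h : FG e1 e2 G U v Y) :
    Y ≤ 2 * Vw (.I g) 0 (st0 U v) := by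
  rw [Vw_I_st0]
  unfold FG at h
  have h1 : 0 ≤ v - min U v := sub_nonneg.2 (min_le_right _ _)
  have h2 := B1.s0 e2 1
  have h3 := B1.st e2 1
  generalize min U v = m at *
  generalize sw e2 1 = b at *
  generalize tw e2 1 = c at *
  have h4 := mul_le_mul_of_nonneg_left hL hv
  have h5 := mul_nonneg h1 h2
  have h6 := mul_nonneg h1 (mul_nonneg (sub_nonneg.2 hG) (show 0 ≤ 1 - c by linarith))
  nlinarith

lemma upI (B2 : BW2) (B3 : BW3) (x : Wd) {U v : ℝ} (hU : 0 ≤ U) (hv : 0 ≤ v) :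
    Vw (.I x) 1 (st1 U v) ≤ (U - min U v) * sw (.I x) 1 + v * tw (.I x) 1 := by
  have ok := ok_st1 hU hv
  have h := B3.up x 2 (sI (st1 U v) 1) (B2.okI 1 _ _ ok (ok.mw0 le_rfl) le_rfl)
  simp only [sI_WS, sI_WT, st1_WS, st1_WT, mw_st1, q_one] at h
  simp only [Vw, sw, tw, q_one, st1_WT]
  linarith

lemma upJ (B2 : BW2) (B3 : BW3) (x : Wd) {U v : ℝ} (hU : 0 ≤ U) (hv : 0 ≤ v) :
    Vw (.J x) 1 (st1 U v) ≤ U * sw (.J x) 1 + (v - min U v) * tw (.J x) 1 := by
  have ok := ok_st1 hU hv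
  have h := B3.up x 2 (sJ (st1 U v) 1) (B2.okJ 1 _ _ ok (ok.mw0 le_rfl) le_rfl)
  simp only [sJ_WS, sJ_WT, st1_WS, st1_WT, mw_st1, q_one] at h
  simp only [Vw, sw, tw, q_one, st1_WS]
  linarith

/-- the conclusion of the case analysis -/
def Cn (e1 e2 : Wd) : Prop :=
  (∃ g, ∀ U v Y, 0 ≤ U → 0 ≤ v → F0 e1 e2 U v Y → FG e1 e2 (gf e1) U v Y →
    Y ≤ 2 * Vw g 0 (st0 U v)) ∨ Win e1 e2

lemma Cn.congr {e1 e2 e1' e2' : Wd} (h : Cn e1' e2') (h1 : Eqv 1 e1 e1') (h2 : Eqv 1 e2 e2') :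
    Cn e1 e2 := by
  unfold Cn Win F0 FG FP gf at *
  simp only [h1.1, h1.2.2, h2.1, h2.2.1, h2.2.2]
  exact h

lemma top_val (U v : ℝ) : 2 * Vw (.I .top) 0 (st0 U v) = v + (U - min U v) := by
  rw [Vw_I_st0]; rfl

end W12

open W12

theorem t_W12 (B1 : BW1) (B3 : BW3) : S_W12 := by
  rintro e1 e2 ⟨b, g, h1, h2, h3, h4, h5, h6, h7, h8, h9, h10⟩
  have p1 := B1.s0 e2 1
  have p2 := B1.st e2 1
  have p3 := B1.s0 e1 1
  have pG : gf e1 ≤ 1 := by unfold gf; linarith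
  have pG' : 426 / 1000 ≤ gf e1 := by unfold gf; linarith
  have pΦ : 0 ≤ 1 - tw e2 1 := by linarith
  refine ⟨b, .I g, h1, h2, fun U v Y hU hv h => ?_, fun U v Y hU hv h h' => ?_⟩
  · have hu : 0 ≤ U - min U v := sub_nonneg.2 (min_le_left _ _)
    refine R0 B1 (L := (1 / 2 + 1 / 90) * (1 - tw e2 1)) hv ?_ (by linarith) (by norm_num) h
    have a1 := h10 _ v hu hv
    have a2 : 0 ≤ min (U - min U v) v := le_min hu hv
    have a3 := mul_nonneg a2 pΦ
    have a4 := mul_nonneg hu p1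
    nlinarith
  · have hu : 0 ≤ U - min U v := sub_nonneg.2 (min_le_left _ _)
    by_cases hc : 3 * v / 8 ≤ U - min U v
    · refine R0 B1 (L := (3 / 8 + 1 / 90) * (1 - tw e2 1)) hv ?_ (by nlinarith) pG h
      have a1 := h10 _ v hu hv
      have a2 : 0 ≤ min (U - min U v) v - 3 * v / 8 := sub_nonneg.2 (le_min hc (by linarith))
      have a3 := mul_nonneg a2 pΦ
      have a4 := mul_nonneg hu p1
      nlinarith
    · rw [Vw_I_st0]
      unfold FP at h'
      have a1 := B3.lo g 1 (st1 (U - min U v) v) (min (U - min U v) v) (ok_st1 hu hv)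
        fun _ _ => le_rfl
      simp only [st1_WS, st1_WT] at a1
      have a2 : min (U - min U v) v ≤ 3 * v / 8 := (min_le_left _ _).trans (not_le.1 hc).le
      have a3 : 0 ≤ min (U - min U v) v := le_min hu hv
      have a4 : min (U - min U v) v * kap g 1 ≤ 3 * v / 8 * (1 / 3) :=
        mul_le_mul a2 h9 (B1.k0 g 1) (by linarith)
      have a5 := mul_le_mul_of_nonneg_left h7 hu
      have a6 := mul_le_mul_of_nonneg_left h8 hv
      have a7 := mul_le_mul_of_nonneg_left h4 hv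
      have a8 := mul_nonneg hu p1
      have m0 : 0 ≤ min U v := le_min hU hv
      have m1 : 0 ≤ v - min U v := sub_nonneg.2 (min_le_right _ _)
      have a9 := mul_nonneg m1 pΦ
      have a10 : 37 / 400 + sw e2 1 - gf e1 * (1 - tw e2 1) ≤
          151 / 1000 - 511 / 1000 * (1 - tw e2 1) := by nlinarith
      have a11 := mul_le_mul_of_nonneg_left a10 m0
      nlinarith

theorem t_L2A (B1 : BW1) (B2 : BW2) (B3 : BW3) (hI : S_L2I) (hJ : S_L2J) : S_L2A := by
  have key : ∀ e1 e2, Red e1 e2 ∨ Win0 e1 e2 → Cn e1 e2 := by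
    rintro e1 e2 (⟨g, L, h1, h2⟩ | h)
    · refine Or.inl ⟨.I g, fun U v Y hU hv _ h => ?_⟩
      have p3 := B1.s0 e1 1
      exact R0 B1 hv (h2 _ v (sub_nonneg.2 (min_le_left _ _)) hv) h1 (by unfold gf; linarith) h
    · exact Or.inr (t_W12 B1 B3 e1 e2 h)
  intro e1 e2 h1 h2
  have h3 := (B1.ord e2 e1 1).1 h1
  have h4 : sw e2 1 ≤ 1 / q 1 := (B1.dich e2 1).elim id fun h => h2.trans (h3.trans h)
  obtain ⟨b, eb⟩ := B1.asI e2 1 h4
  rw [eb.1] at h1 h2 h4
  rw [eb.2.1] at h3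
  rcases B1.dich e1 1 with h5 | h5
  · obtain ⟨a, ea⟩ := B1.asI e1 1 h5
    rw [ea.1] at h1 h5
    refine Cn.congr ?_ ea eb
    by_cases hc : 1 < tw (.I a) 1 + tw (.I b) 1
    · refine key _ _ (hI a b ?_ hc)
      simp only [sw, q_one] at h1
      linarith
    · refine Or.inl ⟨.I .top, fun U v Y hU hv h _ => ?_⟩
      rw [top_val]
      unfold F0 at h
      have a1 := upI B2 B3 a hU hv
      have a2 := upI B2 B3 b hU hv
      have hu : 0 ≤ U - min U v := sub_nonneg.2 (min_le_left _ _)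
      rw [q_one] at h4 h5
      have a3 := mul_le_mul_of_nonneg_left (not_lt.1 hc) hv
      have a4 := mul_le_mul_of_nonneg_left
        (show sw (.I a) 1 + sw (.I b) 1 ≤ 1 by linarith) hu
      nlinarith
  · obtain ⟨a, ea⟩ := B1.asJ e1 1 h5
    have h6 := (B1.high e1 1 h5).1
    rw [ea.2.1] at h2 h3 h5
    rw [ea.1] at h6
    refine Cn.congr ?_ ea eb
    by_cases hc : 1 < sw (.J a) 1 + tw (.I b) 1
    · refine key _ _ (hJ a b ?_ hc)
      simp only [sw, tw, q_one] at h2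
      linarith
    · refine Or.inl ⟨.I .top, fun U v Y hU hv h _ => ?_⟩
      rw [top_val]
      unfold F0 at h
      have a1 := upJ B2 B3 a hU hv
      have a2 := upI B2 B3 b hU hv
      have hc' := not_lt.1 hc
      rcases le_total U v with k | k
      · rw [min_eq_left k] at a1 a2 ⊢
        have a3 := mul_le_mul_of_nonneg_left hc' hU
        have a4 := mul_le_mul_of_nonneg_left
          (show tw (.I b) 1 + tw (.J a) 1 ≤ 1 by linarith) (sub_nonneg.2 k)
        nlinarith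
      · rw [min_eq_right k] at a1 a2 ⊢
        have a3 := mul_le_mul_of_nonneg_left hc' hv
        have a4 := mul_le_mul_of_nonneg_left
          (show sw (.J a) 1 + sw (.I b) 1 ≤ 1 by linarith) (sub_nonneg.2 k)
        nlinarith

end Pool.Agent.P.MP_e86632_nt.Lex
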