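import Pool.Agent.P.MP_e86632_nt.Lex.Iface

/-! The third lemma on the exceptional window. -/

namespace Pool.Agent.P.MP_e86632_nt.Lex

namespace W3

lemma th_three : th (q 3) = 59 / 324 := by
  rw [q_three]
  norm_num [th, om]

lemma sI2 (w : Wd) : sw (.I w) 2 = sw w 3 / 5 := by simp only [sw, q_two]
lemma tI2 (w : Wd) : tw (.I w) 2 = 1 / 5 + 4 / 5 * tw w 3 := by
  simp only [tw, q_two]
  norm_num
lemma sJ2 (w : Wd) : sw (.J w) 2 = 1 / 5 + 4 / 5 * sw w 3 := by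
  simp only [sw, q_two]
  norm_num

/-- the multiplication lemma at level three with multiplier one -/
lemma mul3 (hM : S_MUL) (a b : Wd) (h : sw b 3 ≤ sw a 3) (h' : sw b 3 ≤ 1 - sw a 3) :
    ∃ g κ, Step 3 a g (sw b 3) κ ∧ tw a 3 - tw g 3 ≤ 59 / 324 * (1 - tw b 3) ∧
      κ * 5 ≤ 1 - tw b 3 := by
  obtain ⟨g, κ, h1, h2, h3⟩ := hM 3 a b 1 (by norm_num) (by norm_num)
    (by rw [q_three]; norm_num) h
  rw [one_mul, min_eq_left h'] at h1
  rw [th_three] at h2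
  rw [q_three] at h3
  exact ⟨g, κ, h1, h2, by linarith⟩

lemma low3 (B1 : BW1) (w : Wd) (h : sw w 3 ≤ 1 / 7) : sw w 3 * 6 ≤ 1 - tw w 3 := by
  have h1 := (B1.low w 3 (by rw [q_three]; exact h)).2
  rw [q_three] at h1
  linarith

lemma LL3 (B1 : BW1) (w : Wd) (h : 2 / 7 ≤ tw w 3) : sw w 3 * 48 ≤ 1 - tw w 3 := by
  have h1 := (B1.LL w 3 (by norm_num) (by rw [q_three]; exact h)).1
  rw [q_three] at h1
  linarith

/-- the numerical core -/
lemma core (B1 : BW1) (B3 : BW3) (hM : S_MUL) (k2 y1 y2 : Wd) (hk : sw k2 3 ≤ 6 / 7)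
    (h1 : 29 / 80 ≤ tw y1 3) (h2 : sw y2 3 ≤ sw y1 3) (G : ℝ)
    (hG : G = min (2 * (4 / 5 * (1 - tw y1 3))) (brk (sw k2 3 / 5) (sw y1 3 / 5) (sw y2 3 / 5)
      (4 / 5 * (1 - tw y1 3)) (4 / 5 * (1 - tw y2 3)))) :
    ∃ g ξ κ, Step 3 k2 g ξ κ ∧ sw y1 3 + sw y2 3 ≤ ξ ∧ 4 / 5 * (tw k2 3 - tw g 3) ≤ G ∧
      363 / 1000 * (4 / 5 * (tw k2 3 - tw g 3)) + (ξ + κ) / 5 ≤ G := by
  have a1 := LL3 B1 y1 (by linarith)
  have a2 : tw y1 3 ≤ tw y2 3 := (B1.ord y2 y1 3).1 h2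
  have a3 := LL3 B1 y2 (by linarith)
  have s1 := B1.s0 y1 3
  have s2 := B1.s0 y2 3
  have s3 := B1.s0 k2 3
  obtain ⟨zh, κ0, st0, d0, -⟩ := mul3 hM y1 y2 h2 (by linarith)
  have b1 : sw y1 3 + sw y2 3 ≤ sw zh 3 := st0.2.2.1
  have b2 : sw zh 3 ≤ 1 / 7 := by
    rcases B1.dich zh 3 with h | h <;> rw [q_three] at h
    · exact h
    · linarith
  have b3 := low3 B1 zh b2
  have s4 := B1.s0 zh 3
  rcases le_or_gt (sw zh 3) (sw k2 3) with hc | hc
  · obtain ⟨g, κ, st, d, e⟩ := mul3 hM k2 zh hc (by linarith)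
    have c1 : 43 / 50 * (29 / 35) * (4 / 5 * (1 - tw y1 3)) ≤
        43 / 50 * (1 - sw k2 3 / 5) * (4 / 5 * (1 - tw y1 3)) :=
      mul_le_mul_of_nonneg_right (by linarith) (by linarith)
    have c2 : 69 / 100 * (4 / 5 * (1 - tw y1 3)) ≤ G := by
      rw [hG]
      refine le_min (by linarith) (le_max_of_le_left ?_)
      linarith
    exact ⟨g, _, κ, st, b1, by linarith, by linarith⟩
  · obtain ⟨g, κ, st, d, -⟩ := mul3 hM zh k2 hc.le (by linarith)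
    have c0 : sw zh 3 + sw k2 3 ≤ sw g 3 := st.2.2.1
    have st' : Step 3 k2 g (sw zh 3) (kap g 3) :=
      (B3.gen 3 k2 g (by linarith)).mono s4 (by linarith) le_rfl
    have c1 := B1.kap g 3 (by norm_num)
    rw [q_three] at c1
    have c2 : tw zh 3 ≤ tw k2 3 := (B1.ord k2 zh 3).1 hc.le
    have c3 := low3 B1 k2 (by linarith)
    have c4 : 43 / 50 * (239 / 240) * (4 / 5 * (1 - tw y2 3)) ≤
        43 / 50 * (1 - sw y1 3 / 5) * (4 / 5 * (1 - tw y2 3)) :=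
      mul_le_mul_of_nonneg_right (by linarith) (by linarith)
    refine ⟨g, _, _, st', b1, ?_, ?_⟩
    · rw [hG]
      refine le_min (by linarith) (le_max_of_le_right (le_min ?_ ?_)) <;> linarith
    · rw [hG]
      refine le_min (by linarith) (le_max_of_le_right (le_min ?_ ?_)) <;> linarith

end W3

open W3 in
theorem t_W3 (B1 : BW1) (B2 : BW2) (B3 : BW3) (hM : S_MUL) (hL : S_LIB) : S_W3 := by
  intro h1 h2 z1 z2 H1 H2 H3 H4
  have l1 : sw z1 2 ≤ 1 / q 2 := by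
    rcases B1.dich z1 2 with h | h
    · exact h
    · rw [q_two] at h
      linarith
  obtain ⟨y1, e1, e1', -⟩ := B1.asI z1 2 l1
  obtain ⟨y2, e2, e2', -⟩ := B1.asI z2 2 (H4.trans l1)
  obtain ⟨k2, ek⟩ := B1.asI h2 2 (by rw [q_two]; linarith)
  obtain ⟨al, ea, ea', ea''⟩ := B1.asJ h1 2 (by
    rcases B1.dich h1 2 with h | h
    · rw [q_two] at h
      linarith
    · exact h)
  have ek1 := ek.1
  have ek2 := ek.2.1
  rw [sI2] at e1 e2 ek1
  rw [tI2] at e1' e2' ek2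
  have ta : tw al 3 ≤ 1 / 7 := by
    rw [sJ2] at ea
    have h := (B1.HH al 3 (by norm_num) (by rw [q_three]; linarith)).2
    rw [q_three] at h
    linarith
  obtain ⟨G, hG⟩ : ∃ G, G = min (2 * (1 - tw z1 2))
    (brk (sw h2 2) (sw z1 2) (sw z2 2) (1 - tw z1 2) (1 - tw z2 2)) := ⟨_, rfl⟩
  rw [← hG]
  obtain ⟨g, ξ, κ, st, c1, c2, c3⟩ := core B1 B3 hM k2 y1 y2 (by linarith) (by linarith)
    (by linarith) G (by
      rw [hG, e1, e2, ek1, show 1 - tw z1 2 = 4 / 5 * (1 - tw y1 3) by linarith,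
        show 1 - tw z2 2 = 4 / 5 * (1 - tw y2 3) by linarith])
  have st2 : Step 2 h2 (.I g) (ξ / q 2) ((ξ + κ) / q 2) := (B3.stepI 2 k2 g ξ κ st).congr ek
  rw [q_two] at st2
  obtain ⟨p1, p2, p3, p4, p5⟩ := st2
  obtain ⟨D, hD⟩ : ∃ D, D = tw h2 2 - tw (.I g) 2 := ⟨_, rfl⟩
  have hD0 : 0 ≤ D := by linarith
  have hD1 : 4 / 5 * (tw k2 3 - tw g 3) = D := by rw [hD, ek2, tI2]; ring
  rw [hD1] at c2 c3
  have hc' : tw (.I g) 2 = tw h2 2 - D := by linarith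
  have hz : sw z1 2 + 2 * sw z2 2 ≤ 2 * (ξ / 5) := by
    have := B1.s0 y1 3
    linarith
  have hC : 43 / 50 * (1 - sw h1 2) * D + (ξ + κ) / 5 ≤ G :=
    le_trans (add_le_add_left (mul_le_mul_of_nonneg_right (by linarith) hD0) _) c3
  rcases le_total (sw g 3) (tw al 3) with hc | hc
  · obtain ⟨w, -, hw⟩ := hL 1 false al g le_rfl hc (by rw [q_three]; exact hc.trans ta)
    refine ⟨w, fun u v Y hu hv f1 _ => ?_⟩
    rw [← q_one]
    refine hw _ _ (hyp_st1 false hu hv) ?_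
    unfold FIc at f1 ⊢
    simp only [Nat.reduceAdd, mw_st1, st1_WS, st1_WT, q_one, Cc_two] at f1 ⊢
    rw [← ea'', ← ea, hc']
    have m0 : 0 ≤ min u v := le_min hu hv
    have m1 : 0 ≤ v - min u v := sub_nonneg.2 (min_le_right _ _)
    have i1 := mul_le_mul_of_nonneg_left hz hu
    have i2 := mul_le_mul_of_nonneg_left p3 hu
    have i3 := mul_le_mul_of_nonneg_left c2 m1
    have i4 := mul_le_mul_of_nonneg_left hC m0
    have i5 := mul_nonneg m0 p2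
    linarith
  · obtain ⟨w, -, hw⟩ := hL 1 (!false) g.flip al.flip le_rfl (by simpa using hc)
      (by rw [q_three]; simpa using ta)
    refine ⟨w.flip, fun u v Y hu hv _ f2 => ?_⟩
    rw [← q_one, Vw_flip']
    refine hw _ _ (hyp_st1 false hu hv).swap ?_
    have e3 : Wd.J g.flip = (Wd.I g).flip := rfl
    have e4 : Wd.I al.flip = (Wd.J al).flip := rfl
    have m0 : 0 ≤ min u v := le_min hu hv
    have m1 : 0 ≤ v - min u v := sub_nonneg.2 (min_le_right _ _)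
    have i0 := p5 (sJ (st1 u v) 1) (min u v) (B2.okJ 1 _ _ (ok_st1 hu hv) m0 le_rfl)
      (B2.mbJ 1 _ _ _ (fun _ _ => le_rfl) m0)
    unfold FIc at f2 ⊢
    rw [e3, e4]
    simp only [Nat.reduceAdd, sI_swap, Vw_flip, sw_flip, tw_flip, mw_swap, swap_WS, swap_WT, mw_st1,
      st1_WS, st1_WT, sJ_WS, sJ_WT, q_one, Cc_two] at f2 i0 ⊢
    rw [← ea, ← ea', hc'] at *
    have i1 := mul_le_mul_of_nonneg_left hz hu
    have i3 := mul_le_mul_of_nonneg_left c2 m1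
    have i4 := mul_le_mul_of_nonneg_left hC m0
    linarith

end Pool.Agent.P.MP_e86632_nt.Lex
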