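import Pool.Agent.P.MP_e86632_nt.Main
import Pool.Agent.P.MP_e86632_nt.Lex.Top
import Pool.Agent.P.MP_e86632_nt.Lex.Bw1
import Pool.Agent.P.MP_e86632_nt.Lex.Bw2
import Pool.Agent.P.MP_e86632_nt.Lex.Bw3
import Pool.Agent.P.MP_e86632_nt.Lex.Bw4
import Pool.Agent.P.MP_e86632_nt.Lex.Add
import Pool.Agent.P.MP_e86632_nt.Lex.Mul
import Pool.Agent.P.MP_e86632_nt.Lex.Addp
import Pool.Agent.P.MP_e86632_nt.Lex.Lia
import Pool.Agent.P.MP_e86632_nt.Lex.Lib
import Pool.Agent.P.MP_e86632_nt.Lex.Lic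
import Pool.Agent.P.MP_e86632_nt.Lex.Lid
import Pool.Agent.P.MP_e86632_nt.Lex.Lie
import Pool.Agent.P.MP_e86632_nt.Lex.Cor
import Pool.Agent.P.MP_e86632_nt.Lex.Sec
import Pool.Agent.P.MP_e86632_nt.Lex.L2i
import Pool.Agent.P.MP_e86632_nt.Lex.L2j
import Pool.Agent.P.MP_e86632_nt.Lex.W12
import Pool.Agent.P.MP_e86632_nt.Lex.W3
import Pool.Agent.P.MP_e86632_nt.Lex.Br
import Pool.Agent.P.MP_e86632_nt.Lex.Tf
import Pool.Agent.P.MP_e86632_nt.Lex.Low
import Pool.Agent.P.MP_e86632_nt.Lex.Crt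
import Pool.Agent.P.MP_e86632_nt.Lex.CrtG
import Pool.Agent.P.MP_e86632_nt.Lex.Sep

/-! Assembly: `G` is the upper envelope of the curves of the words. -/

namespace Pool.Agent.P.MP_e86632_nt.Lex

open Filter Topology

theorem bw1 : BW1 := t_BW1
theorem bw2 : BW2 := t_BW2
theorem bw3 : BW3 := t_BW3 bw1 bw2
theorem bw4 : BW4 := t_BW4 bw1 bw2 bw3
theorem add : S_ADD := t_ADD bw1 bw3
theorem mul : S_MUL := t_MUL bw1 bw3 add
theorem addp : S_ADDP := t_ADDP bw1 bw3 add mul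
theorem lib : S_LIB := t_LIB bw1 bw3 bw4 addp (t_AUX bw1)
theorem forms : S_FORMS := t_FORMS bw1 bw2 t_COR
theorem step : S_STEP := t_STEP bw1 forms (t_LI bw1 (t_LIA bw1 bw4) lib (t_LIC bw1 bw3 bw4 mul)
  (t_LID bw1 bw3 bw4 (t_OVF bw1)) (t_LIE bw1 bw3 bw4 (t_OVF bw1)))
theorem top : S_TOP := t_TOP bw1 step (t_TOPA (t_NUM bw1) t_COR3
  (t_L2A bw1 bw2 bw3 (t_L2I bw1 bw2 bw3 add mul)
    (t_L2J bw1 bw2 bw3 (t_NUM bw1) add mul addp (t_AUX bw1)))
  (t_TF bw1 t_COR) (t_TW3 bw1 forms (t_BR t_COR) (t_W3 bw1 bw2 bw3 mul lib)))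

/-- every feasible pair lies under the curve of a word -/
theorem up {q : ℕ} {α γ : ℕ → ℝ} (hq : 0 < q) (h : Fs q α γ) :
    ∃ w, ∀ l, 0 ≤ l → l * mean q α + mean q γ ≤ Vw w 0 (st0 l 1) := by
  obtain ⟨n, S, T, a, c, h1, h2, h3, h4⟩ := t_CRTU t_CRT q α γ hq h
  obtain ⟨w, hw⟩ := top n S T h1
  exact ⟨w, fun l hl => by simpa [h3, h4] using hw a c l 1 h2 hl zero_le_one⟩

/-- the curve of a word lies under `G` -/
theorem down {w : Wd} {x y : ℝ} (hx : x < 1) (h : ∀ l, 0 ≤ l → l * x + y ≤ Vw w 0 (st0 l 1)) :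
    y ≤ G x := by
  obtain ⟨S, T, hc, hw⟩ := t_LOW bw2 w w.len 0 le_rfl
  have key := t_SEP {p | ∃ α γ, Cfs S T α γ ∧ p = (mu α, mu γ)} x y ?_ ?_ ?_
  · have h1 : Tendsto (fun ε : ℝ => G (x - ε) + ε) (𝓝[>] 0) (𝓝 (G x + 0)) := by
      refine Tendsto.mono_left (Tendsto.add ?_ tendsto_id) nhdsWithin_le_nhds
      refine (G_continuousOn.continuousAt (Iio_mem_nhds hx)).tendsto.comp ?_
      simpa using (tendsto_const_nhds (x := x)).sub (tendsto_id (x := 𝓝 (0 : ℝ)))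
    rw [add_zero] at h1
    refine ge_of_tendsto h1 (eventually_mem_nhdsWithin.mono fun ε hε => ?_)
    obtain ⟨_, ⟨α, γ, h2, rfl⟩, h3, h4⟩ := key ε hε
    obtain ⟨q, a, c, hq, h5, h6, h7⟩ := t_CRTD t_CRT _ S T α γ hc h2
    have := le_G hq h5 (x := x - ε) (h6 ▸ h3)
    simp only at h4
    linarith
  · rintro _ ⟨α, γ, h1, rfl⟩ _ ⟨α', γ', h2, rfl⟩ s t hs ht hst
    refine ⟨fun x => s * α x + t * α' x, fun x => s * γ x + t * γ' x,
      ⟨fun x => ?_, fun x => ?_, fun x => ?_, fun x => ?_, fun x hx => ?_, fun x hx => ?_,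
        fun j x hj => ?_⟩, ?_⟩
    · nlinarith [h1.a0 x, h2.a0 x]
    · nlinarith [h1.a1 x, h2.a1 x]
    · nlinarith [h1.c0 x, h2.c0 x]
    · nlinarith [h1.c1 x, h2.c1 x]
    · simp [h1.sa x hx, h2.sa x hx]
    · simp [h1.sc x hx, h2.sc x hx]
    · nlinarith [h1.loc j x hj, h2.loc j x hj]
    · simp [mu_add, mu_mul]
  · rintro _ ⟨α, γ, h1, rfl⟩
    exact mu_le_one h1.c1
  · intro l hl
    obtain ⟨α, γ, h1, h2⟩ := hw (st0 l 1) (Cls.one 0 hl zero_le_one (fun _ _ _ _ => Nat.modEq_one)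
      fun _ _ _ _ => Nat.modEq_one) (ok_st0 hl zero_le_one)
    refine ⟨_, ⟨α (), γ (), ⟨h1.a0 _, h1.a1 _, h1.c0 _, h1.c1 _, h1.sa _, h1.sc _, h1.loc⟩, rfl⟩,
      (h l hl).trans (h2.trans (le_of_eq ?_))⟩
    simp [obj, Cls.one]

def toW : List Bool → Wd
  | [] => .bot
  | false :: w => .I (toW w)
  | true :: w => .J (toW w)

lemma val_eq (L : List Bool) : ∀ k σ, val L k σ = Vw (toW L) k σ := by
  induction L with
  | nil => intro k σ; rfl
  | cons b L ih => intro k σ; cases b <;> simp only [val, toW, Vw, ih] <;> rfl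

lemma exists_list (w : Wd) : (∃ L : List Bool, L.length ≤ w.len ∧ ∀ k σ, Vw w k σ = val L k σ) ∨
    ∀ k σ, Vw w k σ = σ.WS := by
  induction w with
  | bot => exact Or.inl ⟨[], le_rfl, fun _ _ => rfl⟩
  | top => exact Or.inr fun _ _ => rfl
  | I w ih =>
    left
    rcases ih with ⟨L, h1, h⟩ | h
    · exact ⟨false :: L, Nat.succ_le_succ h1, fun k σ => by simp only [Vw, val, h]; rfl⟩
    · refine ⟨[true], by simp [Wd.len], fun k σ => ?_⟩
      rw [val_eq]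
      simp only [Vw, toW, h, sI_WS, sJ_WT]
      ring
  | J w ih =>
    rcases ih with ⟨L, h1, h⟩ | h
    · exact Or.inl ⟨true :: L, Nat.succ_le_succ h1, fun k σ => by simp only [Vw, val, h]; rfl⟩
    · refine Or.inr fun k σ => ?_
      have := (q_pos k).ne'
      simp only [Vw, h, sJ_WS]
      field_simp
      ring

lemma G_pos {x : ℝ} (hx0 : 0 < x) (hx : x < 1) : 0 < G x := by
  refine (G_nonneg hx.le).lt_of_ne fun k => ?_
  have h1 := G_G hx0 hx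
  have h2 := le_G (x := 0) one_pos (α := fun _ => 0) (γ := fun _ => 1)
    ⟨fun _ => rfl, fun _ => rfl, fun _ => le_rfl, fun _ => zero_le_one, fun _ _ _ => by simp,
      fun _ _ _ => Or.inl rfl⟩ (mean_const one_pos 0).ge
  rw [mean_const one_pos] at h2
  rw [← k] at h1
  linarith

theorem G_eq {x : ℝ} (hx0 : 0 < x) (hx : x < 1) :
    G x = sSup {y | ∃ w : List Bool, ∀ l : ℝ, 0 ≤ l → l * x + y ≤ V l w} := by
  set Y := {y | ∃ w : List Bool, ∀ l : ℝ, 0 ≤ l → l * x + y ≤ V l w}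
  have ub : ∀ y ∈ Y, y ≤ G x := by
    rintro y ⟨L, h⟩
    exact down (w := toW L) hx fun l hl => (h l hl).trans_eq (val_eq L _ _)
  have key : G x ≤ max 0 (sSup Y) := G_le hx.le fun q α γ hq h h1 => by
    obtain ⟨w, hw⟩ := up hq h
    rcases exists_list w with ⟨L, -, hL⟩ | hL
    · refine le_max_of_le_right (le_csSup ⟨_, ub⟩ ⟨L, fun l hl => ?_⟩)
      have := hw l hl
      rw [hL] at this
      exact (add_le_add_left (mul_le_mul_of_nonneg_left h1 hl) _).trans this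
    · simpa [hL] using le_max_of_le_left (c := sSup Y) (by simpa [hL] using hw 0 le_rfl)
  have hp := G_pos hx0 hx
  exact ((le_max_iff.1 key).resolve_left (not_le.2 hp)).antisymm (Real.sSup_le ub hp.le)

end Pool.Agent.P.MP_e86632_nt.Lex
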