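import Pool.Agent.P.MP_e86632_nt.Lex.Word

/-! Products of the cyclic groups of consecutive prime orders, sections, configurations. -/

namespace Pool.Agent.P.MP_e86632_nt.Lex

open Finset

instance pr_neZero (k : ℕ) : NeZero (pr k) := ⟨(pr_prime k).ne_zero⟩
instance pr_fact (k : ℕ) : Fact (pr k).Prime := ⟨pr_prime k⟩

/-- the product of `ZMod (pr j)` over `k ≤ j < k + n` -/
def Gam : ℕ → ℕ → Type
  | 0, _ => PUnit
  | n + 1, k => ZMod (pr k) × Gam n (k + 1)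

noncomputable instance Gam.grp : (n k : ℕ) → AddCommGroup (Gam n k)
  | 0, _ => inferInstanceAs (AddCommGroup PUnit)
  | n + 1, k => letI := Gam.grp n (k + 1)
    inferInstanceAs (AddCommGroup (ZMod (pr k) × Gam n (k + 1)))

noncomputable instance Gam.fin : (n k : ℕ) → Fintype (Gam n k)
  | 0, _ => inferInstanceAs (Fintype PUnit)
  | n + 1, k => letI := Gam.fin n (k + 1)
    inferInstanceAs (Fintype (ZMod (pr k) × Gam n (k + 1)))

variable {n k : ℕ}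

/-- the point with first coordinate `v` -/
def cons (v : ZMod (pr k)) (x : Gam n (k + 1)) : Gam (n + 1) k := (v, x)
def hd (x : Gam (n + 1) k) : ZMod (pr k) := Prod.fst x
def tl (x : Gam (n + 1) k) : Gam n (k + 1) := Prod.snd x

@[simp] lemma hd_cons (v : ZMod (pr k)) (x : Gam n (k + 1)) : hd (cons v x) = v := rfl
@[simp] lemma tl_cons (v : ZMod (pr k)) (x : Gam n (k + 1)) : tl (cons v x) = x := rfl
@[simp] lemma cons_hd_tl (x : Gam (n + 1) k) : cons (hd x) (tl x) = x := rfl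
@[simp] lemma hd_add (x y : Gam (n + 1) k) : hd (x + y) = hd x + hd y := rfl
@[simp] lemma tl_add (x y : Gam (n + 1) k) : tl (x + y) = tl x + tl y := rfl
@[simp] lemma hd_neg (x : Gam (n + 1) k) : hd (-x) = -hd x := rfl
@[simp] lemma tl_neg (x : Gam (n + 1) k) : tl (-x) = -tl x := rfl
@[simp] lemma hd_zero : hd (0 : Gam (n + 1) k) = 0 := rfl
@[simp] lemma tl_zero : tl (0 : Gam (n + 1) k) = 0 := rfl
lemma cons_add (v : ZMod (pr k)) (x : Gam n (k + 1)) (y : Gam (n + 1) k) :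
    cons v x + y = cons (v + hd y) (x + tl y) := rfl
lemma neg_cons (v : ZMod (pr k)) (x : Gam n (k + 1)) : -cons v x = cons (-v) (-x) := rfl
lemma gam_ext {x y : Gam (n + 1) k} (h1 : hd x = hd y) (h2 : tl x = tl y) : x = y := Prod.ext h1 h2
lemma gam_zero_eq (x y : Gam 0 k) : x = y := rfl

lemma sum_cons (f : Gam (n + 1) k → ℝ) : ∑ x, f x = ∑ v, ∑ y, f (cons v y) :=
  Fintype.sum_prod_type (α₁ := ZMod (pr k)) (α₂ := Gam n (k + 1)) f

lemma card_succ : (Fintype.card (Gam (n + 1) k) : ℝ) = q k * Fintype.card (Gam n (k + 1)) := by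
  have : Fintype.card (Gam (n + 1) k) = pr k * Fintype.card (Gam n (k + 1)) := by
    have := Fintype.card_prod (ZMod (pr k)) (Gam n (k + 1))
    rw [ZMod.card] at this
    exact this
  rw [this]; simp [q]

lemma card_pos : (0 : ℝ) < Fintype.card (Gam n k) := by
  have : Nonempty (Gam n k) := ⟨0⟩
  exact_mod_cast Fintype.card_pos

lemma card_zmod (k : ℕ) : (Fintype.card (ZMod (pr k)) : ℝ) = q k := by simp [q]

lemma cast_pr_self (k : ℕ) : ((pr k : ℕ) : ZMod (pr k)) = 0 := by simp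
lemma cast_pr_ne {j k : ℕ} (h : j ≠ k) : ((pr j : ℕ) : ZMod (pr k)) ≠ 0 := by
  rw [Ne, ZMod.natCast_eq_zero_iff, Nat.prime_dvd_prime_iff_eq (pr_prime k) (pr_prime j)]
  exact fun e => h (pr_inj e).symm
lemma cast_pr_ne' {j : ℕ} (h : 1 ≤ j) : ((pr j : ℕ) : ZMod (pr 0)) ≠ 0 := cast_pr_ne (by omega)

/-- mean value -/
noncomputable def mu (f : Gam n k → ℝ) : ℝ := (∑ x, f x) / Fintype.card (Gam n k)

lemma mu_succ (f : Gam (n + 1) k → ℝ) : q k * mu f = ∑ v, mu fun y => f (cons v y) := by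
  have h1 := q_pos k
  have h2 := card_pos (n := n) (k := k + 1)
  unfold mu
  rw [sum_cons, card_succ, ← sum_div]
  field_simp
lemma mu_zero (f : Gam 0 k → ℝ) (x : Gam 0 k) : mu f = f x := by
  have : Unique (Gam 0 k) := ⟨⟨x⟩, fun _ => rfl⟩
  unfold mu
  rw [Fintype.sum_unique, Fintype.card_unique]
  simp [gam_zero_eq default x]
lemma mu_add (f g : Gam n k → ℝ) : mu (fun x => f x + g x) = mu f + mu g := by
  simp only [mu, sum_add_distrib, add_div]
lemma mu_sub (f g : Gam n k → ℝ) : mu (fun x => f x - g x) = mu f - mu g := by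
  simp only [mu, sum_sub_distrib, sub_div]
lemma mu_mul (c : ℝ) (f : Gam n k → ℝ) : mu (fun x => c * f x) = c * mu f := by
  simp only [mu, ← mul_sum, mul_div_assoc]
lemma mu_const (c : ℝ) : mu (fun _ : Gam n k => c) = c := by
  have := card_pos (n := n) (k := k)
  simp only [mu, sum_const, card_univ, nsmul_eq_mul]
  field_simp
lemma mu_mono {f g : Gam n k → ℝ} (h : ∀ x, f x ≤ g x) : mu f ≤ mu g :=
  div_le_div_of_nonneg_right (sum_le_sum fun x _ => h x) card_pos.le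
lemma mu_nonneg {f : Gam n k → ℝ} (h : ∀ x, 0 ≤ f x) : 0 ≤ mu f :=
  (mu_const 0).symm.le.trans (mu_mono h)
lemma mu_le_one {f : Gam n k → ℝ} (h : ∀ x, f x ≤ 1) : mu f ≤ 1 :=
  (mu_mono h).trans (mu_const 1).le
lemma mu_sum {ι : Type*} (s : Finset ι) (f : ι → Gam n k → ℝ) :
    mu (fun x => ∑ i ∈ s, f i x) = ∑ i ∈ s, mu (f i) := by
  simp only [mu, ← sum_div]; rw [sum_comm]
lemma mu_shift (f : Gam n k → ℝ) (c : Gam n k) : mu (fun x => f (x + c)) = mu f := by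
  unfold mu; exact congrArg (· / _) (Equiv.sum_comp (Equiv.addRight c) f)
lemma mu_neg (f : Gam n k → ℝ) : mu (fun x => f (-x)) = mu f := by
  unfold mu; exact congrArg (· / _) (Equiv.sum_comp (Equiv.neg _) f)

open Classical in
/-- indicator -/
noncomputable def ind (S : Set (Gam n k)) (x : Gam n k) : ℝ := if x ∈ S then 1 else 0
lemma ind_mem {S : Set (Gam n k)} {x : Gam n k} (h : x ∈ S) : ind S x = 1 := if_pos h
lemma ind_not {S : Set (Gam n k)} {x : Gam n k} (h : x ∉ S) : ind S x = 0 := if_neg h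
lemma ind_nonneg (S : Set (Gam n k)) (x : Gam n k) : 0 ≤ ind S x := by
  unfold ind; split_ifs <;> norm_num
lemma ind_le_one (S : Set (Gam n k)) (x : Gam n k) : ind S x ≤ 1 := by
  unfold ind; split_ifs <;> norm_num

/-- measure of a set -/
noncomputable def ms (S : Set (Gam n k)) : ℝ := mu (ind S)

lemma ms_nonneg (S : Set (Gam n k)) : 0 ≤ ms S := mu_nonneg (ind_nonneg S)
lemma ms_le_one (S : Set (Gam n k)) : ms S ≤ 1 := mu_le_one (ind_le_one S)
lemma ms_mono {S T : Set (Gam n k)} (h : S ⊆ T) : ms S ≤ ms T := mu_mono fun x => by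
  by_cases hx : x ∈ S
  · rw [ind_mem hx, ind_mem (h hx)]
  · rw [ind_not hx]; exact ind_nonneg _ _
lemma ms_compl (S : Set (Gam n k)) : ms Sᶜ = 1 - ms S := by
  rw [ms, ms, ← mu_const (n := n) (k := k) 1, ← mu_sub]
  congr 1; ext x
  by_cases hx : x ∈ S
  · rw [ind_mem hx, ind_not (by simpa)]; ring
  · rw [ind_not hx, ind_mem (by simpa)]; ring
lemma ms_empty : ms (∅ : Set (Gam n k)) = 0 := by
  rw [ms, ← mu_const (n := n) (k := k) 0]; congr 1; ext x; exact ind_not (by simp)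
lemma ms_univ : ms (Set.univ : Set (Gam n k)) = 1 := by
  rw [← Set.compl_empty, ms_compl, ms_empty, sub_zero]
/-- a function with values at most `1` supported in `S` -/
lemma mu_le_ms {S : Set (Gam n k)} {f : Gam n k → ℝ} (h1 : ∀ x, f x ≤ 1) (h2 : ∀ x, x ∉ S → f x = 0) :
    mu f ≤ ms S := mu_mono fun x => by
  by_cases hx : x ∈ S
  · rw [ind_mem hx]; exact h1 x
  · rw [ind_not hx, h2 x hx]

/-- two functions in conflict along the shift `c`, vanishing on `A` and `B` -/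
lemma conf {A B : Set (Gam n k)} {f h : Gam n k → ℝ} (c : Gam n k) (hA : ∀ x ∈ A, f x = 0)
    (hB : ∀ x ∈ B, h x = 0) (hc : ∀ x, f x + h (x + c) ≤ 1) :
    mu f + mu h ≤ 1 - ms {x | x ∈ A ∧ x + c ∈ B} := by
  rw [← mu_shift h c, ← mu_add, ← ms_compl]
  exact mu_le_ms hc fun x hx => by
    have hx' : x ∈ A ∧ x + c ∈ B := not_not.1 hx
    rw [hA x hx'.1, hB _ hx'.2, add_zero]

lemma univ_two (v : ZMod (pr 0)) : (univ : Finset (ZMod (pr 0))) = {v, v + 1} :=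
  (eq_univ_of_card _ (by rw [card_pair (by simp), ZMod.card, pr_zero])).symm
lemma sum_two (v : ZMod (pr 0)) (f : ZMod (pr 0) → ℝ) : ∑ x, f x = f v + f (v + 1) := by
  rw [univ_two v, sum_pair (by simp)]
lemma two_cases (v w : ZMod (pr 0)) : (w ≠ v ↔ w = v + 1) ∧ v + 1 + 1 = v := by
  have h : ∀ v w : ZMod (pr 0), w = v ∨ w = v + 1 := fun v w => by
    have := mem_univ w
    rw [univ_two v] at this
    simpa using this
  refine ⟨⟨(h v w).resolve_left, fun e => by simp [e]⟩, (h v _).resolve_right (by simp)⟩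
lemma cast_odd {j : ℕ} (h : 1 ≤ j) : ((pr j : ℕ) : ZMod (pr 0)) = 1 :=
  ((two_cases 0 _).1.1 (cast_pr_ne' h)).trans (zero_add _)
lemma three (a b : ZMod (pr 1)) (h : a ≠ b) :
    ∃ c, c ≠ a ∧ c ≠ b ∧ ∀ f : ZMod (pr 1) → ℝ, ∑ x, f x = f a + f b + f c := by
  have h3 : (univ \ {a, b} : Finset (ZMod (pr 1))).card = 1 := by
    rw [card_sdiff_of_subset (subset_univ _), card_pair h, card_univ, ZMod.card, pr_one]
  obtain ⟨c, hc⟩ := card_eq_one.1 h3
  have hm : c ∈ (univ \ {a, b} : Finset (ZMod (pr 1))) := hc ▸ mem_singleton_self c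
  simp only [mem_sdiff, mem_univ, mem_insert, mem_singleton, true_and, not_or] at hm
  refine ⟨c, hm.1, hm.2, fun f => ?_⟩
  rw [← sum_sdiff (subset_univ {a, b}), hc, sum_singleton, sum_pair h]
  ring

/-- all coordinates differ -/
def Dis : {n k : ℕ} → Gam n k → Gam n k → Prop
  | 0, _, _, _ => True
  | _ + 1, _, x, y => hd x ≠ hd y ∧ Dis (tl x) (tl y)

lemma dis_zero (x y : Gam 0 k) : Dis x y := trivial
lemma dis_succ (x y : Gam (n + 1) k) : Dis x y ↔ hd x ≠ hd y ∧ Dis (tl x) (tl y) := Iff.rfl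
lemma Dis.symm : ∀ {n k : ℕ} {x y : Gam n k}, Dis x y → Dis y x
  | 0, _, _, _, _ => trivial
  | _ + 1, _, _, _, h => ⟨h.1.symm, Dis.symm h.2⟩
lemma Dis.add : ∀ {n k : ℕ} {x y : Gam n k} (c : Gam n k), Dis x y → Dis (x + c) (y + c)
  | 0, _, _, _, _, _ => trivial
  | _ + 1, _, _, _, c, h => ⟨fun e => h.1 (add_right_cancel e), Dis.add (tl c) h.2⟩
lemma Dis.neg : ∀ {n k : ℕ} {x y : Gam n k}, Dis x y → Dis (-x) (-y)
  | 0, _, _, _, _ => trivial
  | _ + 1, _, _, _, h => ⟨fun e => h.1 (neg_injective e), Dis.neg h.2⟩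

/-- the image of a natural number -/
noncomputable def emb : {n k : ℕ} → ℕ → Gam n k
  | 0, _, _ => 0
  | _ + 1, _, m => cons (m : ZMod _) (emb m)

@[simp] lemma hd_emb (m : ℕ) : hd (emb m : Gam (n + 1) k) = m := rfl
@[simp] lemma tl_emb (m : ℕ) : tl (emb m : Gam (n + 1) k) = emb m := rfl
lemma emb_add : ∀ {n k : ℕ} (a b : ℕ), (emb (a + b) : Gam n k) = emb a + emb b
  | 0, _, _, _ => rfl
  | n + 1, k, a, b => gam_ext (by simp) (emb_add (n := n) (k := k + 1) a b)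

/-- neighbours of a set -/
def Nb (S : Set (Gam n k)) : Set (Gam n k) := {t | ∃ s ∈ S, Dis s t}
def Cross (S T : Set (Gam n k)) : Prop := ∀ s ∈ S, ∀ t ∈ T, ¬ Dis s t
def Closed (S T : Set (Gam n k)) : Prop := S = (Nb T)ᶜ ∧ T = (Nb S)ᶜ
/-- section at `v` -/
def sec (S : Set (Gam (n + 1) k)) (v : ZMod (pr k)) : Set (Gam n (k + 1)) := {x | cons v x ∈ S}
/-- union of the sections other than the one at `v` -/
def oth (S : Set (Gam (n + 1) k)) (v : ZMod (pr k)) : Set (Gam n (k + 1)) :=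
  {x | ∃ w, w ≠ v ∧ cons w x ∈ S}
def ng (S : Set (Gam n k)) : Set (Gam n k) := {x | -x ∈ S}

lemma ms_succ (S : Set (Gam (n + 1) k)) : q k * ms S = ∑ v, ms (sec S v) := mu_succ _
lemma ms_ng (S : Set (Gam n k)) : ms (ng S) = ms S := mu_neg (ind S)
lemma ms_shift (S : Set (Gam n k)) (c : Gam n k) : ms {x | x + c ∈ S} = ms S := mu_shift (ind S) c
@[simp] lemma ng_ng (S : Set (Gam n k)) : ng (ng S) = S := by ext x; simp [ng]
lemma sec_sub_oth (S : Set (Gam (n + 1) k)) {v w : ZMod (pr k)} (h : w ≠ v) : sec S w ⊆ oth S v :=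
  fun _ hx => ⟨w, h, hx⟩
lemma sec_compl (S : Set (Gam (n + 1) k)) (v : ZMod (pr k)) : sec Sᶜ v = (sec S v)ᶜ := rfl
lemma sec_Nb (S : Set (Gam (n + 1) k)) (v : ZMod (pr k)) : sec (Nb S) v = Nb (oth S v) := by
  ext y
  constructor
  · rintro ⟨s, hs, h1, h2⟩
    exact ⟨tl s, ⟨hd s, h1, hs⟩, h2⟩
  · rintro ⟨x, ⟨w, hw, hx⟩, h⟩
    exact ⟨cons w x, hx, hw, h⟩
lemma sec_ng (S : Set (Gam (n + 1) k)) (v : ZMod (pr k)) : sec (ng S) v = ng (sec S (-v)) := rfl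
lemma oth_ng (S : Set (Gam (n + 1) k)) (v : ZMod (pr k)) : oth (ng S) v = ng (oth S (-v)) := by
  ext x
  constructor
  · rintro ⟨w, hw, hx⟩
    exact ⟨-w, fun e => hw (neg_injective e), hx⟩
  · rintro ⟨w, hw, hx⟩
    refine ⟨-w, fun e => hw (by rw [← e, neg_neg]), ?_⟩
    show -cons (-w) x ∈ S
    rwa [neg_cons, neg_neg]
lemma Nb_ng (S : Set (Gam n k)) : Nb (ng S) = ng (Nb S) := by
  ext y
  constructor
  · rintro ⟨s, hs, h⟩
    exact ⟨-s, hs, h.neg⟩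
  · rintro ⟨s, hs, h⟩
    exact ⟨-s, by simpa [ng] using hs, by simpa using h.neg⟩
lemma Nb_mono {S T : Set (Gam n k)} (h : S ⊆ T) : Nb S ⊆ Nb T := fun _ ⟨s, hs, h1⟩ => ⟨s, h hs, h1⟩
lemma Cross.symm {S T : Set (Gam n k)} (h : Cross S T) : Cross T S :=
  fun t ht s hs d => h s hs t ht d.symm
lemma Cross.mono {S T S' T' : Set (Gam n k)} (h : Cross S' T') (h1 : S ⊆ S') (h2 : T ⊆ T') :
    Cross S T := fun s hs t ht => h s (h1 hs) t (h2 ht)
lemma cross_iff {S T : Set (Gam n k)} : Cross S T ↔ T ⊆ (Nb S)ᶜ :=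
  ⟨fun h t ht ⟨s, hs, d⟩ => h s hs t ht d, fun h s hs _ ht d => h ht ⟨s, hs, d⟩⟩
lemma Closed.cross {S T : Set (Gam n k)} (h : Closed S T) : Cross S T := cross_iff.2 h.2.le
lemma Closed.symm {S T : Set (Gam n k)} (h : Closed S T) : Closed T S := ⟨h.2, h.1⟩
lemma Cross.closure {S T : Set (Gam n k)} (h : Cross S T) :
    ∃ S' T', S ⊆ S' ∧ T ⊆ T' ∧ Closed S' T' := by
  have h1 : T ⊆ (Nb (Nb T)ᶜ)ᶜ := cross_iff.1 (cross_iff.2 subset_rfl).symm
  refine ⟨(Nb T)ᶜ, (Nb (Nb T)ᶜ)ᶜ, cross_iff.1 h.symm, h1, ?_, rfl⟩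
  exact (cross_iff.1 (cross_iff.2 subset_rfl).symm).antisymm (Set.compl_subset_compl.2 (Nb_mono h1))
lemma Cross.ng {S T : Set (Gam n k)} (h : Cross S T) : Cross (ng T) (ng S) :=
  fun _ hs _ ht d => h _ ht _ hs d.neg.symm
lemma Closed.ng {S T : Set (Gam n k)} (h : Closed S T) : Closed (ng T) (ng S) := by
  rw [Closed, Nb_ng, Nb_ng]
  exact ⟨congrArg Lex.ng h.2, congrArg Lex.ng h.1⟩
lemma Cross.secI {S T : Set (Gam (n + 1) k)} (h : Cross S T) (v : ZMod (pr k)) :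
    Cross (sec S v) (oth T v) := fun _ hs _ ⟨_, hw, ht⟩ d => h _ hs _ ht ⟨hw.symm, d⟩
lemma Cross.secJ {S T : Set (Gam (n + 1) k)} (h : Cross S T) (v : ZMod (pr k)) :
    Cross (oth S v) (sec T v) := (h.symm.secI v).symm
lemma Closed.secS {S T : Set (Gam (n + 1) k)} (h : Closed S T) (v : ZMod (pr k)) :
    sec S v = (Nb (oth T v))ᶜ := by rw [← sec_Nb, ← sec_compl, ← h.1]
lemma Closed.secT {S T : Set (Gam (n + 1) k)} (h : Closed S T) (v : ZMod (pr k)) :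
    sec T v = (Nb (oth S v))ᶜ := h.symm.secS v

/-- classes carrying the weights of a state -/
structure Cls (k : ℕ) (σ : St) where
  A : Type
  B : Type
  [fA : Fintype A]
  [fB : Fintype B]
  wA : A → ℝ
  wB : B → ℝ
  ia : ℕ → A
  ib : ℕ → B
  wA0 : ∀ a, 0 ≤ wA a
  wB0 : ∀ b, 0 ≤ wB b
  sA : ∑ a, wA a = σ.WS
  sB : ∑ b, wB b = σ.WT
  uA : ∀ j, k ≤ j → wA (ia j) = σ.u (pr j)
  vB : ∀ j, k ≤ j → wB (ib j) = σ.v (pr j)
  eA : ∀ i j, k ≤ i → k ≤ j → (ia i = ia j ↔ pr i ≡ pr j [MOD σ.MS])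
  eB : ∀ i j, k ≤ i → k ≤ j → (ib i = ib j ↔ pr i ≡ pr j [MOD σ.MT])

attribute [instance] Cls.fA Cls.fB

def Cls.swap {σ : St} (C : Cls k σ) : Cls k σ.swap :=
  ⟨C.B, C.A, C.wB, C.wA, C.ib, C.ia, C.wB0, C.wA0, C.sB, C.sA, C.vB, C.uA, C.eB, C.eA⟩

open Classical in
/-- the classes after a step `I`: the class of `pr k` loses `m`; the classes on the `T` side are
split according to the residue modulo `pr k`, the residue `0` having weight `0` -/
noncomputable def Cls.stepI {σ : St} (C : Cls k σ) (m : ℝ) (h1 : m ≤ σ.u (pr k))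
    (hc : σ.MT.Coprime (pr k)) : Cls (k + 1) (σ.stepI (pr k) m) where
  A := C.A
  B := C.B × ZMod (pr k)
  wA a := C.wA a - if a = C.ia k then m else 0
  wB b := if b.2 = 0 then 0 else C.wB b.1
  ia := C.ia
  ib j := (C.ib j, (pr j : ZMod (pr k)))
  wA0 a := by
    split_ifs with h
    · rw [h, C.uA k le_rfl]; linarith
    · simpa using C.wA0 a
  wB0 b := by
    split_ifs
    exacts [le_rfl, C.wB0 _]
  sA := by simp [C.sA, St.stepI]
  sB := by
    rw [Fintype.sum_prod_type_right]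
    have : ∀ v : ZMod (pr k), ∑ b, (if v = 0 then 0 else C.wB b) = σ.WT - if v = 0 then σ.WT else 0 := by
      intro v; split_ifs <;> simp [C.sB]
    simp only [this, sum_sub_distrib, sum_const, card_univ, ZMod.card, nsmul_eq_mul, sum_ite_eq',
      mem_univ, if_true, St.stepI]
    ring
  uA j hj := by
    simp only [St.stepI, C.eA j k (by omega) le_rfl, C.uA j (by omega)]
    split_ifs <;> simp
  vB j hj := by
    simp only [St.stepI, if_neg (cast_pr_ne (j := j) (k := k) (by omega)), C.vB j (by omega)]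
  eA i j hi hj := C.eA i j (by omega) (by omega)
  eB i j hi hj := by
    simp only [St.stepI, Prod.mk.injEq, C.eB i j (by omega) (by omega), ZMod.natCast_eq_natCast_iff]
    exact Nat.modEq_and_modEq_iff_modEq_mul hc

/-- one class on each side -/
def Cls.one (k : ℕ) {u v : ℝ} (hu : 0 ≤ u) (hv : 0 ≤ v) {a b : ℕ}
    (ha : ∀ i j, k ≤ i → k ≤ j → pr i ≡ pr j [MOD a])
    (hb : ∀ i j, k ≤ i → k ≤ j → pr i ≡ pr j [MOD b]) :
    Cls k ⟨a, b, u, v, fun _ => u, fun _ => v⟩ :=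
  ⟨Unit, Unit, fun _ => u, fun _ => v, fun _ => (), fun _ => (), fun _ => hu, fun _ => hv,
    by simp, by simp, fun _ _ => rfl, fun _ _ => rfl,
    fun i j hi hj => by simp [ha i j hi hj], fun i j hi hj => by simp [hb i j hi hj]⟩

/-- configurations supported in `(S, T)` -/
structure Cfg {σ : St} (C : Cls k σ) (S T : Set (Gam n k)) (α : C.A → Gam n k → ℝ)
    (γ : C.B → Gam n k → ℝ) : Prop where
  a0 : ∀ a x, 0 ≤ α a x
  a1 : ∀ a x, α a x ≤ 1
  c0 : ∀ b x, 0 ≤ γ b x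
  c1 : ∀ b x, γ b x ≤ 1
  sa : ∀ a x, x ∉ S → α a x = 0
  sc : ∀ b x, x ∉ T → γ b x = 0
  loc : ∀ j x, k ≤ j → α (C.ia j) x + γ (C.ib j) (x + emb (pr j)) ≤ 1

/-- the objective function -/
noncomputable def obj {σ : St} (C : Cls k σ) (α : C.A → Gam n k → ℝ) (γ : C.B → Gam n k → ℝ) : ℝ :=
  ∑ a, C.wA a * mu (α a) + ∑ b, C.wB b * mu (γ b)

/-- `X` is at most the value of a configuration supported in `(S, T)` -/
def Bd (S T : Set (Gam n k)) (σ : St) (X : ℝ) : Prop :=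
  ∃ (C : Cls k σ) (α : C.A → Gam n k → ℝ) (γ : C.B → Gam n k → ℝ), Cfg C S T α γ ∧ X ≤ obj C α γ

/-- the word `w` dominates the pair `(S, T)` -/
def DomW (S T : Set (Gam n k)) (w : Wd) (fl : Bool) : Prop :=
  ms S ≤ sw w k ∧ ms T ≤ tw w k ∧ ∀ σ X, Hyp k fl σ → Bd S T σ X → X ≤ Vw w k σ

def Dom (n k : ℕ) : Prop := ∀ S T : Set (Gam n k), Cross S T → ∀ fl, ∃ w, DomW S T w fl

/-- configurations with one class on each side -/
structure Cfs (S T : Set (Gam n k)) (α γ : Gam n k → ℝ) : Prop where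
  a0 : ∀ x, 0 ≤ α x
  a1 : ∀ x, α x ≤ 1
  c0 : ∀ x, 0 ≤ γ x
  c1 : ∀ x, γ x ≤ 1
  sa : ∀ x, x ∉ S → α x = 0
  sc : ∀ x, x ∉ T → γ x = 0
  loc : ∀ j x, k ≤ j → α x + γ (x + emb (pr j)) ≤ 1

lemma Cfs.muA {S T : Set (Gam n k)} {α γ : Gam n k → ℝ} (h : Cfs S T α γ) : mu α ≤ ms S :=
  mu_le_ms h.a1 h.sa
lemma Cfs.muC {S T : Set (Gam n k)} {α γ : Gam n k → ℝ} (h : Cfs S T α γ) : mu γ ≤ ms T :=
  mu_le_ms h.c1 h.sc
lemma Cfs.mono {S T S' T' : Set (Gam n k)} {α γ : Gam n k → ℝ} (h : Cfs S T α γ) (h1 : S ⊆ S')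
    (h2 : T ⊆ T') : Cfs S' T' α γ :=
  ⟨h.a0, h.a1, h.c0, h.c1, fun x hx => h.sa x fun e => hx (h1 e),
    fun x hx => h.sc x fun e => hx (h2 e), h.loc⟩
lemma Cfs.ng {S T : Set (Gam n k)} {α γ : Gam n k → ℝ} (h : Cfs S T α γ) :
    Cfs (ng T) (ng S) (fun x => γ (-x)) (fun x => α (-x)) :=
  ⟨fun _ => h.c0 _, fun _ => h.c1 _, fun _ => h.a0 _, fun _ => h.a1 _, fun _ hx => h.sc _ hx,
    fun _ hx => h.sa _ hx, fun j x hj => by
      have := h.loc j (-(x + emb (pr j))) hj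
      rw [show -(x + emb (pr j)) + emb (pr j) = -x by abel] at this
      linarith⟩
lemma Cfs.bd {S T : Set (Gam n 1)} {α γ : Gam n 1 → ℝ} (h : Cfs S T α γ) {u v : ℝ} (hu : 0 ≤ u)
    (hv : 0 ≤ v) : Bd S T (st1 u v) (u * mu α + v * mu γ) :=
  ⟨Cls.one 1 hu hv (fun _ _ _ _ => Nat.modEq_one) (fun _ _ hi hj => pr_modEq_two hi hj),
    fun _ => α, fun _ => γ, ⟨fun _ => h.a0, fun _ => h.a1, fun _ => h.c0, fun _ => h.c1,
      fun _ => h.sa, fun _ => h.sc, h.loc⟩, by simp [obj, Cls.one]⟩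

lemma Bd.mono {S T S' T' : Set (Gam n k)} {σ : St} {X : ℝ} (h : Bd S T σ X) (h1 : S ⊆ S')
    (h2 : T ⊆ T') : Bd S' T' σ X := by
  obtain ⟨C, α, γ, h, hX⟩ := h
  exact ⟨C, α, γ, ⟨h.a0, h.a1, h.c0, h.c1, fun a x hx => h.sa a x fun e => hx (h1 e),
    fun a x hx => h.sc a x fun e => hx (h2 e), h.loc⟩, hX⟩
lemma Bd.pure {S T : Set (Gam n k)} {σ : St} {X : ℝ} (h : Bd S T σ X) :
    X ≤ σ.WS * ms S + σ.WT * ms T := by
  obtain ⟨C, α, γ, h, hX⟩ := h
  rw [← C.sA, ← C.sB, sum_mul, sum_mul]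
  exact hX.trans (add_le_add
    (sum_le_sum fun a _ => mul_le_mul_of_nonneg_left (mu_le_ms (h.a1 a) (h.sa a)) (C.wA0 a))
    (sum_le_sum fun b _ => mul_le_mul_of_nonneg_left (mu_le_ms (h.c1 b) (h.sc b)) (C.wB0 b)))
lemma Bd.ng {S T : Set (Gam n k)} {σ : St} {X : ℝ} (h : Bd S T σ X) :
    Bd (ng T) (ng S) σ.swap X := by
  obtain ⟨C, α, γ, h, hX⟩ := h
  refine ⟨C.swap, fun b x => γ b (-x), fun a x => α a (-x), ⟨fun _ _ => h.c0 _ _,
    fun _ _ => h.c1 _ _, fun _ _ => h.a0 _ _, fun _ _ => h.a1 _ _, fun _ _ hx => h.sc _ _ hx,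
    fun _ _ hx => h.sa _ _ hx, fun j x hj => ?_⟩, ?_⟩
  · have := h.loc j (-(x + emb (pr j))) hj
    rw [show -(x + emb (pr j)) + emb (pr j) = -x by abel] at this
    exact (add_comm _ _).le.trans this
  · refine hX.trans (le_of_eq ?_)
    unfold obj
    rw [add_comm]
    congr 1 <;> exact sum_congr rfl fun _ _ => by rw [mu_neg]; rfl
lemma DomW.mono {S T S' T' : Set (Gam n k)} {w : Wd} {fl : Bool} (h : DomW S' T' w fl) (h1 : S ⊆ S')
    (h2 : T ⊆ T') : DomW S T w fl :=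
  ⟨(ms_mono h1).trans h.1, (ms_mono h2).trans h.2.1, fun σ X a b => h.2.2 σ X a (b.mono h1 h2)⟩
lemma DomW.ng {S T : Set (Gam n k)} {w : Wd} {fl : Bool} (h : DomW S T w fl) :
    DomW (ng T) (ng S) w.flip (!fl) := by
  refine ⟨by simpa [ms_ng] using h.2.1, by simpa [ms_ng] using h.1, fun σ X a b => ?_⟩
  rw [Vw_flip']
  exact h.2.2 _ X (by simpa using a.swap) (by simpa using b.ng)
lemma DomW.flag {S T : Set (Gam n 1)} {w : Wd} {fl fl' : Bool} (h : DomW S T w fl) :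
    DomW S T w fl' := ⟨h.1, h.2.1, fun σ X a b => h.2.2 σ X a.flag b⟩

/-- two pairs at level `1` (the two parity classes) with the conflicts along the shift `c` -/
structure Two (SA TA SB TB : Set (Gam n 1)) (c : Gam n 1) (αA γA αB γB : Gam n 1 → ℝ) : Prop where
  hA : Cfs SA TA αA γA
  hB : Cfs SB TB αB γB
  con : ∀ x, αA x + γB (x + c) ≤ 1

/-- one word at level `0` bounds all the values of two pairs at level `1` -/
def Goal0 (SA TA SB TB : Set (Gam n 1)) (c : Gam n 1) : Prop :=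
  ∃ g, ∀ αA γA αB γB U v, Two SA TA SB TB c αA γA αB γB → 0 ≤ U → 0 ≤ v →
    U * (mu αA + mu αB) + v * (mu γA + mu γB) ≤ 2 * Vw g 0 (st0 U v)

end Pool.Agent.P.MP_e86632_nt.Lex
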