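import Pool.Agent.P.MP_e86632_nt.Lex.Gam

/-! Statements of the intermediate results. -/

namespace Pool.Agent.P.MP_e86632_nt.Lex

open Finset

/-- measures of words -/
structure BW1 : Prop where
  s0 : ∀ w k, 0 ≤ sw w k
  t0 : ∀ w k, 0 ≤ tw w k
  st : ∀ w k, sw w k + tw w k ≤ 1
  k0 : ∀ w k, 0 ≤ kap w k
  ord : ∀ a b k, sw a k ≤ sw b k ↔ tw b k ≤ tw a k
  dich : ∀ w k, sw w k ≤ 1 / q k ∨ tw w k ≤ 1 / q k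
  asI : ∀ w k, sw w k ≤ 1 / q k → ∃ w', Eqv k w (.I w')
  asJ : ∀ w k, tw w k ≤ 1 / q k → ∃ w', Eqv k w (.J w')
  low : ∀ w k, sw w k ≤ 1 / q k → 1 / q k ≤ tw w k ∧ sw w k * (q k - 1) ≤ 1 - tw w k
  high : ∀ w k, tw w k ≤ 1 / q k → 1 / q k ≤ sw w k ∧ tw w k * (q k - 1) ≤ 1 - sw w k
  HH : ∀ w k, 1 ≤ k → 2 / q k ≤ sw w k →
    tw w k * (q k ^ 2 - 1) ≤ 1 - sw w k ∧ tw w k ≤ 1 / (q k * (q k + 2))
  LL : ∀ w k, 1 ≤ k → 2 / q k ≤ tw w k →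
    sw w k * (q k ^ 2 - 1) ≤ 1 - tw w k ∧ sw w k ≤ 1 / (q k * (q k + 2))
  T1 : ∀ w k, 1 / q k ^ 2 ≤ sw w k → (1 - 1 / q k) ^ 2 ≤ 1 - tw w k
  T2 : ∀ w k, 2 / q k ^ 2 ≤ sw w k → tw w k ≤ 1 / q k + 1 / q k ^ 2
  LLphi : ∀ w k, 1 ≤ k → 1 - tw w k < (1 - 1 / q k) ^ 2 → sw w k * (q k ^ 2 - 1) ≤ 1 - tw w k
  kap : ∀ w k, 1 ≤ k → kap w k * (q k - 2) ≤ 1 - tw w k

/-- invariants of the states -/
structure BW2 : Prop where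
  okI : ∀ k σ m, Ok k σ → 0 ≤ m → m ≤ mw σ k → Ok (k + 1) (σ.stepI (pr k) m)
  okJ : ∀ k σ m, Ok k σ → 0 ≤ m → m ≤ mw σ k → Ok (k + 1) (σ.stepJ (pr k) m)
  mbI : ∀ k σ m m', MB k σ m → 0 ≤ m' → MB (k + 1) (σ.stepI (pr k) m') m
  mbJ : ∀ k σ m m', MB k σ m → 0 ≤ m' → MB (k + 1) (σ.stepJ (pr k) m') m
  hypI : ∀ k fl σ m, 1 ≤ k → Hyp k fl σ → 0 ≤ m → m ≤ mw σ k →
    Hyp (k + 1) false (σ.stepI (pr k) m)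

/-- values of words -/
structure BW3 : Prop where
  up : ∀ w k σ, Ok k σ → Vw w k σ ≤ σ.WS * sw w k + σ.WT * tw w k
  ret : ∀ w k σ, Ok k σ →
    Vw w k σ ≤ σ.WS * sw w k + σ.WT * tw w k - mw σ k * min (sw w k) (tw w k)
  lo : ∀ w k σ m, Ok k σ → MB k σ m → σ.WS * sw w k + σ.WT * tw w k - m * kap w k ≤ Vw w k σ
  refl : ∀ k a, Step k a a 0 0
  gen : ∀ k a a', sw a k ≤ sw a' k → Step k a a' (sw a' k - sw a k) (kap a' k)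
  stepI : ∀ k a a' ξ κ, Step (k + 1) a a' ξ κ → Step k (.I a) (.I a') (ξ / q k) ((ξ + κ) / q k)
  stepJ : ∀ k a a' ξ κ, Step (k + 1) a a' ξ κ →
    Step k (.J a) (.J a') ((q k - 1) * ξ / q k) (κ / q k)
  branch : ∀ k a b, Step k (.I a) (.J b) ((q k - 1) * sw b (k + 1) / q k) (kap b (k + 1) / q k)

/-- the two ways of finishing a one-level lemma -/
structure BW4 : Prop where
  redC : ∀ k fl e1 e2 g ξ κ, Step (k + 1) e1 g ξ κ → (q k - 1) * sw e2 (k + 1) ≤ ξ →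
    (q k - 1) * (tw e1 (k + 1) - tw g (k + 1)) ≤ 1 - tw e2 (k + 1) →
    (1 - tw e2 (k + 1)) * (1 - Cc (k + 1) * (1 - sw e1 (k + 1))) + ξ + κ ≤
      NS k fl * (ξ - (q k - 1) * sw e2 (k + 1)) +
        NT k fl * (1 - tw e2 (k + 1) - (q k - 1) * (tw e1 (k + 1) - tw g (k + 1))) →
    GoodC k fl e1 e2
  redU : ∀ k fl e1 e2 g ξ κ, Step (k + 1) e1 g ξ κ → (q k - 1) * sw e2 (k + 1) ≤ ξ →
    (q k - 1) * (tw e1 (k + 1) - tw g (k + 1)) ≤ 1 - tw e2 (k + 1) →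
    sw e1 (k + 1) + ξ + κ ≤
      NS k fl * (ξ - (q k - 1) * sw e2 (k + 1)) +
        NT k fl * (1 - tw e2 (k + 1) - (q k - 1) * (tw e1 (k + 1) - tw g (k + 1))) →
    Good k fl e1 e2
  dic : ∀ k fl e1 e2, sw e1 (k + 1) + (q k - 1) * sw e2 (k + 1) ≤ 1 →
    tw e2 (k + 1) + (q k - 1) * tw e1 (k + 1) ≤ 1 →
    1 - (if k ≤ 2 then min (sw e1 (k + 1)) (tw e1 (k + 1)) else 0) ≤
      NS k fl * (1 - sw e1 (k + 1) - (q k - 1) * sw e2 (k + 1)) +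
        NT k fl * (1 - tw e2 (k + 1) - (q k - 1) * tw e1 (k + 1)) →
    Good k fl e1 e2

def S_ADD : Prop := ∀ k a b, 2 ≤ k → ∃ g κ, Step k a g (min (sw b k) (1 - sw a k)) κ ∧
  tw a k - tw g k ≤ 1 - tw b k ∧ κ * (q k - 2) ≤ 1 - tw b k

def S_OVF : Prop := ∀ k a b (c : ℝ), 2 ≤ k → 0 ≤ c → c + 3 ≤ q k → sw b k ≤ sw a k →
  1 - sw a k < c * sw b k → tw a k ≤ om (q k) * (1 - tw b k)

def S_MUL : Prop := ∀ k a b (c : ℝ), 2 ≤ k → 0 ≤ c → c ≤ q k - 1 → sw b k ≤ sw a k →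
  ∃ g κ, Step k a g (min (c * sw b k) (1 - sw a k)) κ ∧
    tw a k - tw g k ≤ th (q k) * (1 - tw b k) ∧ κ * (q k - 2) ≤ 1 - tw b k

def S_ADDP : Prop := ∀ k a b, 2 ≤ k → sw b k ≤ tw a k → ∃ g κ, Step k a g (sw b k) κ ∧
  (tw a k - tw g k) * (q k ^ 2 - 1) ≤ q k ^ 2 * ((1 - sw a k) * (1 - tw b k)) ∧
  κ * ((q k - 1) * (q k - 2)) ≤ q k * ((1 - sw a k) * (1 - tw b k))

def S_AUX : Prop := ∀ k a b, 1 ≤ k → sw b k ≤ tw a k →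
  sw b k * (q k - 1) ≤ q k * ((1 - sw a k) * (1 - tw b k)) ∧
  (sw b k ≤ 1 / q k → sw b k * (q k - 1) ^ 3 ≤ q k ^ 2 * ((1 - sw a k) * (1 - tw b k)))

/-- the multiplier used at level `k` -/
noncomputable def cm (k : ℕ) : ℝ := if k = 1 then 2 else q (k + 1) - 1

def S_LIA : Prop := ∀ k fl a b, 1 ≤ k → sw b (k + 2) ≤ tw a (k + 2) →
  tw b (k + 2) ≤ 1 / q (k + 2) → Good k fl (.J a) (.I b)

def S_LIB : Prop := ∀ k fl a b, 1 ≤ k → sw b (k + 2) ≤ tw a (k + 2) →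
  sw b (k + 2) ≤ 1 / q (k + 2) → GoodC k fl (.J a) (.I b)

def S_LIC : Prop := ∀ k fl a b, 1 ≤ k → sw b (k + 2) ≤ sw a (k + 2) →
  sw a (k + 2) + cm k * sw b (k + 2) ≤ 1 → Good k fl (.I a) (.I b)

def S_LID : Prop := ∀ k fl a b, 1 ≤ k → k ≤ 2 → sw b (k + 2) ≤ sw a (k + 2) →
  1 < sw a (k + 2) + cm k * sw b (k + 2) → Good k fl (.I a) (.I b)

def S_LIE : Prop := ∀ k fl a b, 3 ≤ k → sw b (k + 2) ≤ sw a (k + 2) →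
  1 < sw a (k + 2) + cm k * sw b (k + 2) → Good k fl (.I a) (.I b)

def S_LI : Prop := ∀ k fl e1 e2, 1 ≤ k → sw e2 (k + 1) ≤ sw e1 (k + 1) →
  sw e2 (k + 1) ≤ tw e1 (k + 1) → Good k fl e1 e2

def S_COR : Prop := ∀ n k (S T : Set (Gam n k)) (c : Gam n k), 1 ≤ k →
  Cc k * ms (Nb S) * ms (Nb T) ≤ ms {x | x ∈ Nb S ∧ x + c ∈ Nb T}

def S_COR3 : Prop := ∀ n (S T : Set (Gam (n + 1) 1)) (c : Gam (n + 1) 1),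
  (∀ v w, v ≠ w → 5 / 4 ≤ ms (sec (Nb S) v) + ms (sec (Nb S) w)) →
  43 / 80 * ms (Nb T) ≤ ms {x | x ∈ Nb S ∧ x + c ∈ Nb T}

def S_SEC : Prop := ∀ n k (σ : St) (C : Cls k σ) (S T : Set (Gam (n + 1) k)) α γ
  (v0 : ZMod (pr k)) (m : ℝ), Cfg C S T α γ → σ.MT.Coprime (pr k) → m ≤ σ.u (pr k) →
  ∃ X1, Bd (sec S v0) (oth T v0) (σ.stepI (pr k) m) X1 ∧
    q k * obj C α γ = X1 + m * mu (fun x => α (C.ia k) (cons v0 x)) +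
      ∑ a, C.wA a * ∑ v ∈ univ.erase v0, mu (fun x => α a (cons v x)) +
      ∑ b, C.wB b * mu (fun x => γ b (cons v0 x))

def S_FORMS : Prop := ∀ n k fl (σ : St) (X : ℝ) (S T : Set (Gam (n + 1) k)) (v0 : ZMod (pr k))
  (e : Wd) (b c : ℝ), 1 ≤ k → Closed S T → Hyp k fl σ → Bd S T σ X →
  DomW (sec S v0) (oth T v0) e false → (∀ v, v ≠ v0 → ms (sec S v) ≤ b) → ms (sec T v0) ≤ c →
  c ≤ 1 → FIc k σ e b c (q k * X) ∧ FIu k σ e b c (q k * X) ∧ FI0 k σ e b c (q k * X)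

def S_STEP : Prop := ∀ n k, 1 ≤ k → Dom n (k + 1) → Dom (n + 1) k

/-- level `0`: both pairs without reduction -/
def F0 (e1 e2 : Wd) (U v Y : ℝ) : Prop := Y ≤ Vw e1 1 (st1 U v) + Vw e2 1 (st1 U v)

/-- level `0`: the form with the gain `g` -/
def FG (e1 e2 : Wd) (g U v Y : ℝ) : Prop :=
  Y ≤ Vw e1 1 (st1 (U - min U v) v) + U * sw e2 1 + (v - min U v) * tw e2 1 +
    min U v * (1 - g * (1 - tw e2 1))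

/-- the gain given by the correlation inequality -/
noncomputable def gf (e1 : Wd) : ℝ := 129 / 200 * (1 - sw e1 1)

/-- level `0`: the form for a small set `T` in the first pair -/
def FP (e1 e2 : Wd) (U v Y : ℝ) : Prop :=
  Y ≤ (U - min U v) * sw e1 1 + v * (37 / 400) + U * sw e2 1 + (v - min U v) * tw e2 1 +
    min U v * (1 - gf e1 * (1 - tw e2 1))

def Red (e1 e2 : Wd) : Prop := ∃ g L, L + sw e2 1 ≤ gf e1 * (1 - tw e2 1) ∧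
  ∀ u v, 0 ≤ u → 0 ≤ v → Vw e1 1 (st1 u v) + u * sw e2 1 - v * L ≤ Vw g 1 (st1 u v)

/-- the exceptional window -/
def Win0 (e1 e2 : Wd) : Prop := ∃ b g, 3 * sw e2 1 ≤ sw b 2 ∧ 49 / 100 ≤ tw b 2 ∧
  sw e1 1 ≤ 339 / 1000 ∧ 276 / 1000 ≤ tw e1 1 ∧ 48 * sw e2 1 ≤ 1 - tw e2 1 ∧
  1 - tw e2 1 ≤ 34 / 100 ∧ sw e1 1 + 2 * sw e2 1 ≤ sw g 1 ∧
  tw e1 1 - 511 / 1000 * (1 - tw e2 1) ≤ tw g 1 ∧ kap g 1 ≤ 1 / 3 ∧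
  ∀ u v, 0 ≤ u → 0 ≤ v → Vw e1 1 (st1 u v) + 2 * u * sw e2 1 -
    ((v - min u v) / 2 + v / 90 + min u v / 6) * (1 - tw e2 1) ≤ Vw g 1 (st1 u v)

def Win (e1 e2 : Wd) : Prop := ∃ b g, 3 * sw e2 1 ≤ sw b 2 ∧ 49 / 100 ≤ tw b 2 ∧
  (∀ U v Y, 0 ≤ U → 0 ≤ v → FG e1 e2 (43 / 80) U v Y → Y ≤ 2 * Vw g 0 (st0 U v)) ∧
  ∀ U v Y, 0 ≤ U → 0 ≤ v → FG e1 e2 (gf e1) U v Y → FP e1 e2 U v Y → Y ≤ 2 * Vw g 0 (st0 U v)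

def S_NUM : Prop :=
  (∀ w, 1 / 4 < tw w 2 → sw w 2 ≤ 3 / 100 ∧ sw w 2 ≤ 44 / 1000 * (1 - tw w 2)) ∧
  (∀ w, 3 / 8 < sw w 2 → tw w 2 ≤ 1 / 35) ∧ ∀ w, 6 / 35 < sw w 2 → tw w 2 ≤ 22 / 100

def S_L2I : Prop := ∀ a b, sw b 2 ≤ sw a 2 → 1 < tw (.I a) 1 + tw (.I b) 1 →
  Red (.I a) (.I b) ∨ Win0 (.I a) (.I b)

def S_L2J : Prop := ∀ a b, sw b 2 ≤ tw a 2 → 1 < sw (.J a) 1 + tw (.I b) 1 →
  Red (.J a) (.I b) ∨ Win0 (.J a) (.I b)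

def S_W12 : Prop := ∀ e1 e2, Win0 e1 e2 → Win e1 e2

def S_L2A : Prop := ∀ e1 e2, sw e2 1 ≤ sw e1 1 → sw e2 1 ≤ tw e1 1 →
  (∃ g, ∀ U v Y, 0 ≤ U → 0 ≤ v → F0 e1 e2 U v Y → FG e1 e2 (gf e1) U v Y →
    Y ≤ 2 * Vw g 0 (st0 U v)) ∨ Win e1 e2

/-- the gain of the bracket lemma -/
noncomputable def brk (x z1 z2 n1 n2 : ℝ) : ℝ :=
  max (43 / 50 * (1 - x) * n1 - (z1 + 2 * z2))
    (min (n1 - 2 * x + 43 / 50 * (1 - z1) * n2 - 2 * z2) (2 * n1 - 2 * x - (z1 + 2 * z2)))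

def S_W3 : Prop := ∀ h1 h2 z1 z2, 578 / 1000 ≤ sw h1 2 → sw h2 2 ≤ 6 / 35 → 49 / 100 ≤ tw z1 2 →
  sw z2 2 ≤ sw z1 2 → ∃ g, ∀ u v Y, 0 ≤ u → 0 ≤ v →
    FIc 1 (st1 u v) h1 (sw h2 2) (tw h2 2) Y →
    FIc 1 (st1 u v).swap h2.flip (tw h1 2) (sw h1 2) Y →
    Y + u * (sw z1 2 + 2 * sw z2 2) - v * min (2 * (1 - tw z1 2))
      (brk (sw h2 2) (sw z1 2) (sw z2 2) (1 - tw z1 2) (1 - tw z2 2)) ≤ 3 * Vw g 1 (st1 u v)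

def S_BR : Prop := ∀ n (SA TA SB TB : Set (Gam (n + 1) 1)) c αA γA αB γB (v0 x1 : ZMod (pr 1))
  (x z1 z2 n1 n2 : ℝ), Closed SA TA → Closed SB TB → Two SA TA SB TB c αA γA αB γB →
  (∀ v, v ≠ v0 → ms (sec SA v) ≤ x) → ms (sec SB x1) ≤ z1 → (∀ v, v ≠ x1 → ms (sec SB v) ≤ z2) →
  (∀ v, v ≠ x1 → ms (sec TB v) ≤ 1 - n1) → ms (sec TB x1) ≤ 1 - n2 → 0 ≤ n1 → 0 ≤ n2 → x ≤ 1 →
  z1 ≤ 1 → 3 * mu γB ≤ 3 - 2 * n1 ∧ 3 * mu αB ≤ z1 + 2 * z2 ∧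
    3 * (mu αA + mu αB + mu γB) ≤ 3 - brk x z1 z2 n1 n2

def S_TF : Prop := ∀ n (SA TA SB TB : Set (Gam n 1)) c e1 e2 αA γA αB γB (U v : ℝ),
  Closed SA TA → Closed SB TB → DomW SA TA e1 false → DomW SB TB e2 false →
  Two SA TA SB TB c αA γA αB γB → 0 ≤ U → 0 ≤ v →
  F0 e1 e2 U v (U * (mu αA + mu αB) + v * (mu γA + mu γB)) ∧
  FG e1 e2 (gf e1) U v (U * (mu αA + mu αB) + v * (mu γA + mu γB)) ∧
  (ms TA ≤ 37 / 400 → FP e1 e2 U v (U * (mu αA + mu αB) + v * (mu γA + mu γB))) ∧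
  (43 / 80 * ms (Nb SB) ≤ ms {x | x ∈ Nb TA ∧ x + c ∈ Nb SB} →
    FG e1 e2 (43 / 80) U v (U * (mu αA + mu αB) + v * (mu γA + mu γB)))

def S_TW3 : Prop := ∀ n (SA TA SB TB : Set (Gam (n + 1) 1)) c (v0 : ZMod (pr 1)) (h1 h2 b : Wd),
  Dom n 2 → Closed SA TA → Closed SB TB → DomW (sec SA v0) (oth TA v0) h1 false →
  DomW (oth SA v0) (sec TA v0) h2 true → 578 / 1000 ≤ sw h1 2 → sw h2 2 ≤ 6 / 35 →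
  3 * ms SB ≤ sw b 2 → 49 / 100 ≤ tw b 2 → Goal0 SA TA SB TB c

def S_TOPA : Prop := ∀ n (SA TA SB TB : Set (Gam (n + 1) 1)) c (e1 e2 : Wd),
  Dom n 2 → Closed SA TA → Closed SB TB → DomW SA TA e1 false → DomW SB TB e2 false →
  sw e2 1 ≤ sw e1 1 → sw e2 1 ≤ tw e1 1 → Goal0 SA TA SB TB c

def S_TOP : Prop := ∀ n (S T : Set (Gam (n + 2) 0)), Cross S T → ∃ w, ∀ α γ (U v : ℝ),
  Cfs S T α γ → 0 ≤ U → 0 ≤ v → U * mu α + v * mu γ ≤ Vw w 0 (st0 U v)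

def S_LOW : Prop := ∀ (w : Wd) n k, w.len ≤ n → ∃ S T : Set (Gam n k), Cross S T ∧
  ∀ (σ : St) (C : Cls k σ), Ok k σ → ∃ α γ, Cfg C S T α γ ∧ Vw w k σ ≤ obj C α γ

/-- product of the primes number `k`, ..., `k + n - 1` -/
noncomputable def PP (n k : ℕ) : ℕ := ∏ j ∈ range n, pr (k + j)

def S_CRT : Prop := ∀ n k, Function.Surjective (emb : ℕ → Gam n k) ∧
  (∀ a b, (emb a : Gam n k) = emb b ↔ a ≡ b [MOD PP n k]) ∧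
  (∀ f : Gam n k → ℝ, (∑ m ∈ range (PP n k), f (emb m)) / PP n k = mu f) ∧
  ∀ a u, Dis (emb a : Gam n k) (emb (a + u)) ↔ u.Coprime (PP n k)

def S_SEP : Prop := ∀ (K : Set (ℝ × ℝ)) (x y : ℝ), Convex ℝ K → (∀ p ∈ K, p.2 ≤ 1) →
  (∀ l, 0 ≤ l → ∃ p ∈ K, l * x + y ≤ l * p.1 + p.2) →
  ∀ ε, 0 < ε → ∃ p ∈ K, x - ε ≤ p.1 ∧ y - ε ≤ p.2

end Pool.Agent.P.MP_e86632_nt.Lex
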