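import Pool.Agent.P.MP_e86632_nt.Lex.Iface
import Pool.Agent.P.MP_e86632_nt.Model

/-! Statements linking the periodic model with the product groups. -/

namespace Pool.Agent.P.MP_e86632_nt.Lex

def S_CRTU : Prop := ∀ q α γ, 0 < q → Fs q α γ → ∃ (n : ℕ) (S T : Set (Gam (n + 2) 0))
  (α' γ' : Gam (n + 2) 0 → ℝ), Cross S T ∧ Cfs S T α' γ' ∧ mu α' = mean q α ∧ mu γ' = mean q γ

def S_CRTD : Prop := ∀ n (S T : Set (Gam n 0)) α γ, Cross S T → Cfs S T α γ →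
  ∃ q α' γ', 0 < q ∧ Fs q α' γ' ∧ mean q α' = mu α ∧ mean q γ' = mu γ

end Pool.Agent.P.MP_e86632_nt.Lex
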