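import Pool.Agent.P.MP_e86632_nt.Lex.Iface

/-! The one-level lemma for two words that start with `I`, without overflow. -/

namespace Pool.Agent.P.MP_e86632_nt.Lex

namespace Lic

lemma aux {A B A' B' Q : ℝ} (hQ : 0 < Q) (h : A' ≤ B') (e1 : A * Q = A') (e2 : B * Q = B') :
    A ≤ B := le_of_mul_le_mul_right (by rw [e1, e2]; exact h) hQ

lemma red (B3 : BW3) (B4 : BW4) {k : ℕ} (fl : Bool) {a b g : Wd} {κ c : ℝ}
    (hs : Step (k + 2) a g (c * sw b (k + 2)) κ) (h1 : q k - 1 ≤ c) (hb : 0 ≤ sw b (k + 2))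
    (h2 : (q k - 1) * (tw a (k + 2) - tw g (k + 2)) ≤ 1 - tw b (k + 2)) :
    ((q (k + 1) - 1) * (1 - tw b (k + 2)) * (1 - Cc (k + 1) * (1 - sw a (k + 2) / q (k + 1))) +
        2 * c * sw b (k + 2) + κ ≤ NS k fl * ((c - q k + 1) * sw b (k + 2)) + NT k fl *
        ((q (k + 1) - 1) * (1 - tw b (k + 2) - (q k - 1) * (tw a (k + 2) - tw g (k + 2)))) →
      Good k fl (.I a) (.I b)) ∧
    (sw a (k + 2) + 2 * c * sw b (k + 2) + κ ≤ NS k fl * ((c - q k + 1) * sw b (k + 2)) + NT k fl *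
        ((q (k + 1) - 1) * (1 - tw b (k + 2) - (q k - 1) * (tw a (k + 2) - tw g (k + 2)))) →
      Good k fl (.I a) (.I b)) := by
  have hI := B3.stepI (k + 1) a g _ _ hs
  have hQ := q_pos (k + 1)
  have hQ' := hQ.ne'
  have hQ1 : 0 ≤ q (k + 1) - 1 := by linarith [q_ge_two (k + 1)]
  have c1 : (q k - 1) * sw (.I b) (k + 1) ≤ c * sw b (k + 2) / q (k + 1) := by
    refine aux hQ (mul_le_mul_of_nonneg_right h1 hb) ?_ ?_
    · simp only [sw]; field_simp
    · field_simp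
  have c2 : (q k - 1) * (tw (.I a) (k + 1) - tw (.I g) (k + 1)) ≤ 1 - tw (.I b) (k + 1) := by
    refine aux hQ (mul_le_mul_of_nonneg_left h2 hQ1) ?_ ?_
    · simp only [tw]; field_simp; ring
    · simp only [tw]; field_simp; ring
  constructor
  · intro h
    refine (B4.redC k fl (.I a) (.I b) (.I g) _ _ hI c1 c2 (aux hQ h ?_ ?_)).good
    · simp only [sw, tw]; field_simp; ring
    · simp only [sw, tw]; field_simp; ring
  · intro h
    refine B4.redU k fl (.I a) (.I b) (.I g) _ _ hI c1 c2 (aux hQ h ?_ ?_)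
    · simp only [sw]; field_simp; ring
    · simp only [sw, tw]; field_simp; ring

lemma th_le {Q r : ℝ} (hQ : 11 ≤ Q) (h : Q + 2 ≤ r) : th r ≤ 1 / (Q + 1) + 1 / (Q + 3) ^ 2 := by
  unfold th om
  have h1 : 1 / (r - 1) ≤ 1 / (Q + 1) := one_div_le_one_div_of_le (by linarith) (by linarith)
  have h2 : (r + 2 + 1) / ((r + 2) ^ 2 * (r + 2 - 1)) ≤ 1 / (r + 1) ^ 2 := by
    have h4 : 0 < r + 2 - 1 := by linarith
    have h5 : 0 < r + 2 := by linarith
    have h6 : 0 < r + 1 := by linarith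
    rw [div_le_div_iff₀ (by positivity) (by positivity)]
    nlinarith
  have h3 : 1 / (r + 1) ^ 2 ≤ 1 / (Q + 3) ^ 2 :=
    one_div_le_one_div_of_le (by positivity) (by nlinarith)
  linarith

lemma L_ge {p Q r : ℝ} (hp : 1 ≤ p) (hQ : 11 ≤ Q) (h1 : p + 2 ≤ Q) (h : Q + 2 ≤ r) :
    27 / 10 ≤ (Q - 1) * (1 - (p - 1) * th r) := by
  have h2 := th_le hQ h
  have h0 : 0 ≤ 1 / (Q + 1) + 1 / (Q + 3) ^ 2 := by positivity
  have h3 : (p - 1) * th r ≤ (Q - 3) * (1 / (Q + 1) + 1 / (Q + 3) ^ 2) :=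
    (mul_le_mul_of_nonneg_left h2 (by linarith)).trans
      (mul_le_mul_of_nonneg_right (by linarith) h0)
  refine le_trans ?_ (mul_le_mul_of_nonneg_left (sub_le_sub_left h3 1) (by linarith))
  have a1 : 0 < Q + 1 := by linarith
  have a2 : 0 < Q + 3 := by linarith
  refine aux (Q := (Q + 1) * (Q + 3) ^ 2) (by positivity)
    (A' := 27 / 10 * ((Q + 1) * (Q + 3) ^ 2))
    (B' := 4 * (Q - 1) * (Q + 3) ^ 2 - (Q - 1) * (Q - 3) * (Q + 1)) ?_ rfl ?_
  · have : 0 ≤ (Q - 11) ^ 3 := pow_nonneg (by linarith) 3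
    nlinarith
  · field_simp; ring

lemma sav_le {Q C s φ A : ℝ} (hQ : 1 ≤ Q) (hC : 0 ≤ C) (hs : s ≤ 1) (hφ : 0 ≤ φ)
    (h : (Q - 1) * (1 - C * (1 - 1 / Q)) ≤ A) : (Q - 1) * φ * (1 - C * (1 - s / Q)) ≤ A * φ := by
  have h1 : s / Q ≤ 1 / Q := div_le_div_of_nonneg_right hs (by linarith)
  have h2 : (Q - 1) * (1 - C * (1 - s / Q)) ≤ (Q - 1) * (1 - C * (1 - 1 / Q)) :=
    mul_le_mul_of_nonneg_left (by nlinarith) (by linarith)
  calc _ = (Q - 1) * (1 - C * (1 - s / Q)) * φ := by ring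
    _ ≤ _ := mul_le_mul_of_nonneg_right (h2.trans h) hφ

lemma sav_big {Q : ℝ} (hQ : 11 ≤ Q) :
    0 ≤ 1 - 1 / (2 * (Q - 2)) ∧ (Q - 1) * (1 - (1 - 1 / (2 * (Q - 2))) * (1 - 1 / Q)) ≤ 8 / 5 := by
  have a1 : 0 < Q - 2 := by linarith
  have a2 : 0 < Q := by linarith
  constructor
  · have : 1 / (2 * (Q - 2)) ≤ 1 := by rw [div_le_one (by linarith)]; linarith
    linarith
  · refine aux (Q := 2 * (Q - 2) * Q) (by positivity) (A' := (Q - 1) * (3 * Q - 5))
      (B' := 8 / 5 * (2 * (Q - 2) * Q)) (by nlinarith) ?_ rfl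
    field_simp; ring

lemma W_ge {p Q t φ D L : ℝ} (hp : 1 ≤ p) (hQ : 1 < Q) (hφ : 0 ≤ φ) (hD : D ≤ t * φ) (hL0 : 0 ≤ L)
    (hL : L ≤ (Q - 1) * (1 - (p - 1) * t)) :
    L * φ ≤ (Q - 1) * (φ - (p - 1) * D) ∧ (p - 1) * D ≤ φ := by
  have h1 : (p - 1) * D ≤ (p - 1) * (t * φ) := mul_le_mul_of_nonneg_left hD (by linarith)
  have h2 : L * φ ≤ (Q - 1) * (φ - (p - 1) * D) :=
    calc L * φ ≤ (Q - 1) * (1 - (p - 1) * t) * φ := mul_le_mul_of_nonneg_right hL hφ
      _ = (Q - 1) * (φ - (p - 1) * (t * φ)) := by ring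
      _ ≤ _ := mul_le_mul_of_nonneg_left (by linarith) (by linarith)
  refine ⟨h2, ?_⟩
  have h3 : 0 ≤ (Q - 1) * (φ - (p - 1) * D) := (mul_nonneg hL0 hφ).trans h2
  have := nonneg_of_mul_nonneg_right h3 (by linarith : 0 < Q - 1)
  linarith

end Lic

open Lic in
theorem t_LIC (B1 : BW1) (B3 : BW3) (B4 : BW4) (hM : S_MUL) : S_LIC := by
  intro k fl a b hk hba hov
  have q1 := q_succ hk
  have q2 : q (k + 1) + 2 ≤ q (k + 2) := q_succ (k := k + 1) (by omega)
  have q3 := q_ge_three hk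
  have hc : q k - 1 ≤ cm k ∧ cm k ≤ q (k + 2) - 1 := by
    unfold cm
    split_ifs with h
    · subst h; rw [q_one, q_three]; norm_num
    · constructor <;> linarith
  obtain ⟨g, κ, hs, hD, hκ⟩ := hM (k + 2) a b (cm k) (by omega) (by linarith [hc.1]) hc.2 hba
  rw [min_eq_left (by linarith)] at hs
  have sb0 := B1.s0 b (k + 2)
  have sa1 : sw a (k + 2) ≤ 1 := by linarith [B1.st a (k + 2), B1.t0 a (k + 2)]
  have φ0 : 0 ≤ 1 - tw b (k + 2) := by linarith [B1.st b (k + 2)]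
  have hd : sw b (k + 2) * (q (k + 2) - 1) ≤ 1 - tw b (k + 2) ∨ tw b (k + 2) ≤ 1 / q (k + 2) :=
    (B1.dich b (k + 2)).imp (fun h => (B1.low b _ h).2) id
  have R := fun h => red B3 B4 fl hs hc.1 sb0 h
  have W := fun L h0 h => W_ge (p := q k) (Q := q (k + 1)) (L := L) (by linarith) (by linarith)
    φ0 hD h0 h
  have S := fun A h0 h => sav_le (Q := q (k + 1)) (C := Cc (k + 1)) (A := A) (by linarith) h0 sa1
    φ0 h
  obtain rfl | rfl | hk3 : k = 1 ∨ k = 2 ∨ 3 ≤ k := by omega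
  · have e : cm 1 = 2 := by simp [cm]
    have e2 : q (1 + 1) = 5 := q_two
    have e3 : q (1 + 2) = 7 := q_three
    have e4 : Cc (1 + 1) = 43 / 50 := Cc_two
    simp only [e, e2, e3, e4, q_one, NS_one, NT_one] at hov hκ hd R W S
    obtain ⟨w1, w2⟩ := W (5 / 2) (by norm_num) (by norm_num [th, om])
    have s1 := S (5 / 4) (by norm_num) (by norm_num)
    rcases hd with hd | hd
    · exact (R w2).1 (by linarith)
    · exact (R w2).2 (by linarith)
  · have e : cm 2 = 6 := by simp only [cm]; norm_num [q_three]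
    have e2 : q (2 + 1) = 7 := q_three
    have e3 : q (2 + 2) = 11 := q_four
    have e4 : Cc (2 + 1) = 459 / 500 := Cc_three
    have e5 : q (2 - 1) = 3 := q_one
    simp only [e, e2, e3, e4, q_two] at hov hκ hd R W S
    obtain ⟨w1, w2⟩ := W 3 (by norm_num) (by norm_num [th, om])
    have s1 := S (13 / 10) (by norm_num) (by norm_num)
    rcases hd with hd | hd
    · refine (R w2).1 ?_
      cases fl <;> simp only [NS, NT, e5, if_true, Bool.false_eq_true, if_false] <;> linarith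
    · refine (R w2).2 ?_
      cases fl <;> simp only [NS, NT, e5, if_true, Bool.false_eq_true, if_false] <;> linarith
  · have e : cm k = q (k + 1) - 1 := by unfold cm; rw [if_neg (by omega)]
    have q4 : 11 ≤ q (k + 1) := q_ge_eleven (by omega)
    have q5 : 5 ≤ q (k - 1) := q_ge_five (by omega)
    have q6 : q (k + 1) - 1 ≤ (q (k - 1) - 1) * (q (k + 1) - q k) := by
      have := q_gap (k := k - 1) (by omega)
      rwa [show k - 1 + 2 = k + 1 by omega, show k - 1 + 1 = k by omega] at this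
    obtain ⟨w1, w2⟩ := W (27 / 10) (by norm_num) (L_ge (by linarith) q4 q1 q2)
    have e4 := Cc_ge (k := k + 1) (by omega)
    have s1 := S (8 / 5) (by rw [e4]; exact (sav_big q4).1) (by rw [e4]; exact (sav_big q4).2)
    have R' := R w2
    have k0 : 0 ≤ κ := hs.2.1
    have k1 : κ * 11 ≤ 1 - tw b (k + 2) :=
      (mul_le_mul_of_nonneg_left (by linarith) k0).trans hκ
    have g1 : cm k * sw b (k + 2) ≤ (q (k - 1) - 1) * ((cm k - q k + 1) * sw b (k + 2)) := by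
      rw [← mul_assoc]
      refine mul_le_mul_of_nonneg_right ?_ sb0
      rw [e]; linarith
    have g2 : 0 ≤ (cm k - q k + 1) * sw b (k + 2) := mul_nonneg (by linarith [hc.1]) sb0
    have g3 := mul_le_mul_of_nonneg_right (by linarith : 4 ≤ q (k - 1) - 1)
      ((mul_nonneg (by norm_num) φ0).trans w1)
    rcases hd with hd | hd
    · have g4 : cm k * sw b (k + 2) ≤ 1 - tw b (k + 2) := by
        rw [mul_comm]; exact (mul_le_mul_of_nonneg_left hc.2 sb0).trans hd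
      refine R'.1 ?_
      cases fl <;> simp only [NS, NT, if_true, Bool.false_eq_true, if_false] <;> linarith
    · have g4 : 1 / q (k + 2) ≤ 1 / 13 := one_div_le_one_div_of_le (by norm_num) (by linarith)
      refine R'.2 ?_
      cases fl <;> simp only [NS, NT, if_true, Bool.false_eq_true, if_false] <;> linarith

end Pool.Agent.P.MP_e86632_nt.Lex
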