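import Pool.Agent.P.MP_e86632_nt.Lex.Iface

/-! The induction over the odd primes. -/

namespace Pool.Agent.P.MP_e86632_nt.Lex

open Finset

theorem t_LI (B1 : BW1) (hA : S_LIA) (hB : S_LIB) (hC : S_LIC) (hD : S_LID) (hE : S_LIE) :
    S_LI := by
  intro k fl e1 e2 hk h1 h2
  have hq := q_pos (k + 1)
  have h3 := (B1.ord _ _ _).1 h1
  have hlow : sw e2 (k + 1) ≤ 1 / q (k + 1) := by
    rcases B1.dich e2 (k + 1) with h | h
    exacts [h, h2.trans (h3.trans h)]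
  obtain ⟨b, eb⟩ := B1.asI _ _ hlow
  rcases B1.dich e1 (k + 1) with h | h
  · obtain ⟨a, ea⟩ := B1.asI _ _ h
    refine Good.congr ?_ ea eb
    rw [ea.1, eb.1] at h1
    have h4 : sw b (k + 2) ≤ sw a (k + 2) := (div_le_div_iff_of_pos_right hq).1 h1
    rcases le_or_gt (sw a (k + 2) + cm k * sw b (k + 2)) 1 with h5 | h5
    · exact hC k fl a b hk h4 h5
    · rcases le_or_gt k 2 with h6 | h6
      exacts [hD k fl a b hk h6 h4 h5, hE k fl a b h6 h4 h5]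
  · obtain ⟨a, ea⟩ := B1.asJ _ _ h
    refine Good.congr ?_ ea eb
    rw [ea.2.1, eb.1] at h2
    have h4 : sw b (k + 2) ≤ tw a (k + 2) := (div_le_div_iff_of_pos_right hq).1 h2
    rcases B1.dich b (k + 2) with h5 | h5
    exacts [(hB k fl a b hk h4 h5).good, hA k fl a b hk h4 h5]

lemma sum_le_of {k : ℕ} (f : ZMod (pr k) → ℝ) (v0 : ZMod (pr k)) {a b : ℝ} (h0 : f v0 ≤ a)
    (h : ∀ v, v ≠ v0 → f v ≤ b) : ∑ v, f v ≤ a + (q k - 1) * b := by
  rw [← add_sum_erase _ _ (mem_univ v0)]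
  have := sum_le_card_nsmul (univ.erase v0) f b fun v hv => h v (ne_of_mem_erase hv)
  rw [card_erase_of_mem (mem_univ _), card_univ, ZMod.card, nsmul_eq_mul,
    Nat.cast_sub (pr_prime k).one_le, Nat.cast_one] at this
  exact add_le_add h0 this

lemma core (B1 : BW1) (hF : S_FORMS) (hL : S_LI) {n k : ℕ} (hk : 1 ≤ k)
    {S T : Set (Gam (n + 1) k)} (hc : Closed S T) (v0 : ZMod (pr k)) {e1 e2 : Wd}
    (hd : DomW (sec S v0) (oth T v0) e1 false) (h1 : ∀ v, v ≠ v0 → ms (sec S v) ≤ sw e2 (k + 1))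
    (h2 : ms (sec T v0) ≤ tw e2 (k + 1)) (h3 : sw e2 (k + 1) ≤ sw e1 (k + 1))
    (h4 : sw e2 (k + 1) ≤ tw e1 (k + 1)) (fl : Bool) : ∃ w, DomW S T w fl := by
  obtain ⟨g, ⟨t1, t2⟩, hg⟩ := hL k fl e1 e2 hk h3 h4
  have hq := q_pos k
  refine ⟨g, le_of_mul_le_mul_left ?_ hq, le_of_mul_le_mul_left ?_ hq, fun σ X hh hb => ?_⟩
  · rw [ms_succ]
    exact (sum_le_of _ v0 hd.1 h1).trans t1
  · rw [ms_succ]
    exact (sum_le_of _ v0 h2 fun v hv => (ms_mono (sec_sub_oth T hv)).trans hd.2.1).trans t2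
  · obtain ⟨f1, f2, f3⟩ := hF n k fl σ X S T v0 e1 _ _ hk hc hh hb hd h1 h2
      (by linarith [B1.st e2 (k + 1), B1.s0 e2 (k + 1)])
    exact le_of_mul_le_mul_left (hg σ _ hh f1 f2 f3) hq

/-- the mirror image of `core` -/
lemma core' (B1 : BW1) (hF : S_FORMS) (hL : S_LI) {n k : ℕ} (hk : 1 ≤ k)
    {S T : Set (Gam (n + 1) k)} (hc : Closed S T) (w0 : ZMod (pr k)) {e1 e2 : Wd}
    (hd : DomW (oth S w0) (sec T w0) e2 true) (h1 : ∀ v, v ≠ w0 → ms (sec T v) ≤ tw e1 (k + 1))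
    (h2 : ms (sec S w0) ≤ sw e1 (k + 1)) (h3 : tw e1 (k + 1) ≤ tw e2 (k + 1))
    (h4 : tw e1 (k + 1) ≤ sw e2 (k + 1)) (fl : Bool) : ∃ w, DomW S T w fl := by
  obtain ⟨w, hw⟩ := core B1 hF hL hk hc.ng (-w0) (e1 := e2.flip) (e2 := e1.flip)
    (by simpa [sec_ng, oth_ng] using hd.ng)
    (fun v hv => by
      rw [sec_ng, ms_ng, sw_flip]; exact h1 _ fun e => hv (by rw [← e, neg_neg]))
    (by simpa [sec_ng, ms_ng] using h2) (by simpa using h3) (by simpa using h4) (!fl)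
  exact ⟨w.flip, by simpa using hw.ng⟩

theorem t_STEP (B1 : BW1) (hF : S_FORMS) (hL : S_LI) : S_STEP := by
  intro n k hk hD S' T' hc' fl
  obtain ⟨S, T, s1, s2, hc⟩ := hc'.closure
  suffices ∃ w, DomW S T w fl by
    obtain ⟨w, hw⟩ := this
    exact ⟨w, hw.mono s1 s2⟩
  obtain ⟨v0, hv0⟩ := Finite.exists_max fun v => ms (sec S v)
  obtain ⟨w0, hw0⟩ := Finite.exists_max fun v => ms (sec T v)
  obtain ⟨e1, d1⟩ := hD _ _ (hc.cross.secI v0) false
  obtain ⟨e2, d2⟩ := hD _ _ (hc.cross.secJ w0) true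
  have a1 : ∀ v, ms (sec S v) ≤ sw e1 (k + 1) := fun v => (hv0 v).trans d1.1
  have a2 : ∀ v, ms (sec T v) ≤ tw e2 (k + 1) := fun v => (hw0 v).trans d2.2.1
  have a3 : ∀ v, v ≠ v0 → ms (sec S v) ≤ sw e2 (k + 1) := fun v hv => by
    by_cases h : v0 = w0
    · exact (ms_mono (sec_sub_oth S (h ▸ hv))).trans d2.1
    · exact (hv0 v).trans ((ms_mono (sec_sub_oth S h)).trans d2.1)
  have a4 : ∀ v, v ≠ w0 → ms (sec T v) ≤ tw e1 (k + 1) := fun v hv => by
    by_cases h : w0 = v0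
    · exact (ms_mono (sec_sub_oth T (h ▸ hv))).trans d1.2.1
    · exact (hw0 v).trans ((ms_mono (sec_sub_oth T h)).trans d1.2.1)
  rcases le_total (sw e2 (k + 1)) (sw e1 (k + 1)) with h | h
  · rcases le_total (sw e2 (k + 1)) (tw e1 (k + 1)) with h' | h'
    · exact core B1 hF hL hk hc v0 d1 a3 (a2 v0) h h' fl
    · exact core' B1 hF hL hk hc w0 d2 a4 (a1 w0) ((B1.ord _ _ _).1 h) h' fl
  · have h2 := (B1.ord _ _ _).1 h
    rcases le_total (sw e1 (k + 1)) (tw e1 (k + 1)) with h' | h'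
    · exact core B1 hF hL hk hc v0 d1 (fun v _ => a1 v) ((a2 v0).trans h2) le_rfl h' fl
    · exact core' B1 hF hL hk hc w0 d2 (fun v _ => a2 v) ((a1 w0).trans h) le_rfl
        (h2.trans (h'.trans h)) fl

lemma dom_zero (k : ℕ) : Dom 0 k := by
  have key : ∀ (T : Set (Gam 0 k)) fl, DomW (∅ : Set (Gam 0 k)) T .bot fl := fun T fl =>
    ⟨ms_empty.le, ms_le_one _, fun σ X hh hb => by
      have := hb.pure
      rw [ms_empty] at this
      have h2 := mul_le_mul_of_nonneg_left (ms_le_one T) hh.1.WT0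
      simp only [Vw]
      linarith⟩
  intro S T hc fl
  rcases S.eq_empty_or_nonempty with rfl | ⟨s, hs⟩
  · exact ⟨_, key T fl⟩
  · have : T = ∅ := Set.eq_empty_of_forall_notMem fun t ht => hc s hs t ht (dis_zero _ _)
    subst this
    exact ⟨_, by simpa using (key (ng S) (!fl)).ng.mono (S := S) (T := ∅) (by simp) (by simp)⟩

theorem dom_all (h : S_STEP) (n : ℕ) : ∀ k, 1 ≤ k → Dom n k := by
  induction n with
  | zero => exact fun k _ => dom_zero k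
  | succ n ih => exact fun k hk => h n k hk (ih _ (by omega))

end Pool.Agent.P.MP_e86632_nt.Lex
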