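import Pool.Agent.P.MP_e86632_nt.Lex.Final
import Pool.Agent.P.MP_e86632_nt.Lex.Env

/-! Truncation of the words: an explicit rate of convergence. -/

namespace Pool.Agent.P.MP_e86632_nt.Lex

open Finset

def trunc : ℕ → Wd → Wd → Wd
  | 0, _, e => e
  | _ + 1, .bot, _ => .bot
  | _ + 1, .top, _ => .top
  | n + 1, .I w, e => .I (trunc n w e)
  | n + 1, .J w, e => .J (trunc n w e)

lemma trunc_len (n : ℕ) : ∀ (w e : Wd), e.len = 0 → (trunc n w e).len ≤ n := by
  induction n with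
  | zero => intro w e h; exact h.le
  | succ n ih => intro w e h; cases w <;> simp [trunc, Wd.len, ih _ e h]

lemma trunc_bd (n : ℕ) : ∀ (w : Wd) (k : ℕ), ∃ a b : ℝ, 0 < a ∧ 0 < b ∧
    a * b = ∏ j ∈ range n, q (k + j) ∧ ∀ σ, Ok k σ →
      Vw w k σ ≤ Vw (trunc n w .bot) k σ + σ.WS / a ∧
      Vw w k σ ≤ Vw (trunc n w .top) k σ + σ.WT / b := by
  induction n with
  | zero =>
    intro w k
    refine ⟨1, 1, one_pos, one_pos, by simp, fun σ h => ?_⟩
    have h1 := bw3.up w k σ h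
    have h2 := bw1.st w k
    have h3 := mul_le_mul_of_nonneg_left (show sw w k ≤ 1 by linarith [bw1.t0 w k]) h.WS0
    have h4 := mul_le_mul_of_nonneg_left (show tw w k ≤ 1 by linarith [bw1.s0 w k]) h.WT0
    simp only [trunc, Vw, div_one]
    constructor <;> linarith
  | succ n ih =>
    intro w k
    have hq := q_pos k
    have hP : 0 < ∏ j ∈ range (n + 1), q (k + j) := prod_pos fun _ _ => q_pos _
    have hs : ∏ j ∈ range (n + 1), q (k + j) = q k * ∏ j ∈ range n, q (k + 1 + j) := by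
      rw [prod_range_succ', mul_comm]
      simp only [add_zero, add_assoc, add_comm 1]
    cases w with
    | bot => exact ⟨_, 1, hP, one_pos, mul_one _, fun σ h =>
        ⟨le_add_of_nonneg_right (div_nonneg h.WS0 hP.le),
          le_add_of_nonneg_right (div_nonneg h.WT0 zero_le_one)⟩⟩
    | top => exact ⟨_, 1, hP, one_pos, mul_one _, fun σ h =>
        ⟨le_add_of_nonneg_right (div_nonneg h.WS0 hP.le),
          le_add_of_nonneg_right (div_nonneg h.WT0 zero_le_one)⟩⟩
    | I w =>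
      obtain ⟨a, b, ha, hb, hab, h⟩ := ih w (k + 1)
      refine ⟨q k * a, b, by positivity, hb, by rw [hs, ← hab]; ring, fun σ ho => ?_⟩
      obtain ⟨h1, h2⟩ := h (sI σ k) (bw2.okI k σ _ ho (ho.mw0 le_rfl) le_rfl)
      have m0 := div_nonneg (ho.mw0 le_rfl) ha.le
      have t0 := div_nonneg ho.WT0 hb.le
      simp only [trunc, Vw, sI_WS, sI_WT, sub_div, mul_div_assoc] at h1 h2 ⊢
      rw [mul_comm (q k) a, ← div_div, ← add_div, div_add' _ _ _ hq.ne',
        div_le_div_iff_of_pos_right hq, div_le_div_iff_of_pos_right hq]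
      constructor <;> nlinarith
    | J w =>
      obtain ⟨a, b, ha, hb, hab, h⟩ := ih w (k + 1)
      refine ⟨a, q k * b, ha, by positivity, by rw [hs, ← hab]; ring, fun σ ho => ?_⟩
      obtain ⟨h1, h2⟩ := h (sJ σ k) (bw2.okJ k σ _ ho (ho.mw0 le_rfl) le_rfl)
      have m0 := div_nonneg (ho.mw0 le_rfl) hb.le
      have t0 := div_nonneg ho.WS0 ha.le
      simp only [trunc, Vw, sJ_WS, sJ_WT, sub_div, mul_div_assoc] at h1 h2 ⊢
      rw [mul_comm (q k) b, ← div_div, div_add' _ _ _ hq.ne', ← add_div,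
        div_le_div_iff_of_pos_right hq, div_le_div_iff_of_pos_right hq]
      constructor <;> nlinarith

lemma loS (w : Wd) : ∀ k σ, Ok k σ → σ.WS * sw w k ≤ Vw w k σ := by
  induction w with
  | bot => intro k σ h; simpa [sw, Vw] using h.WT0
  | top => intro k σ h; simp [sw, Vw]
  | I w ih =>
    intro k σ h
    have h1 := ih (k + 1) (sI σ k) (bw2.okI k σ _ h (h.mw0 le_rfl) le_rfl)
    have h2 := mul_le_mul_of_nonneg_left
      (show sw w (k + 1) ≤ 1 by linarith [bw1.st w (k + 1), bw1.t0 w (k + 1)]) (h.mw0 le_rfl)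
    have h3 := h.mw_WT le_rfl
    simp only [sw, Vw, sI_WS] at h1 ⊢
    rw [← mul_div_assoc, div_le_div_iff_of_pos_right (q_pos k)]
    linarith
  | J w ih =>
    intro k σ h
    have h1 := ih (k + 1) (sJ σ k) (bw2.okJ k σ _ h (h.mw0 le_rfl) le_rfl)
    have := q_pos k
    simp only [sw, Vw, sJ_WS] at h1 ⊢
    rw [le_div_iff₀ this]
    have e : σ.WS * (1 / q k + (1 - 1 / q k) * sw w (k + 1)) * q k =
      σ.WS + (q k - 1) * σ.WS * sw w (k + 1) := by field_simp
    linarith

lemma V_eq (l : ℝ) (L : List Bool) : V l L = Vw (toW L) 0 (st0 l 1) := val_eq L _ _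

lemma env_bdd (n : ℕ) (x : ℝ) : BddAbove (envSet n x) :=
  ⟨1, by
    rintro y ⟨L, -, h⟩
    have h1 := h 0 le_rfl
    have h2 := bw3.up (toW L) 0 _ (ok_st0 le_rfl zero_le_one)
    rw [V_eq] at h1
    simp only [st0_WS, st0_WT] at h2
    linarith [bw1.st (toW L) 0, bw1.s0 (toW L) 0]⟩

lemma env_nonneg (n : ℕ) (x : ℝ) : 0 ≤ env n x := by
  rcases (envSet n x).eq_empty_or_nonempty with h | ⟨y, L, hL, h⟩
  · simp [env, h]
  refine le_csSup (env_bdd n x) ⟨L, hL, fun l hl => ?_⟩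
  have hx : x ≤ sw (toW L) 0 := by
    by_contra hc
    have hd : 0 < x - sw (toW L) 0 := sub_pos.2 (not_le.1 hc)
    have hl : 0 ≤ (|y| + 2) / (x - sw (toW L) 0) := by positivity
    have h1 := h _ hl
    have h2 := bw3.up (toW L) 0 _ (ok_st0 hl zero_le_one)
    have h3 := div_mul_cancel₀ (|y| + 2) hd.ne'
    rw [V_eq] at h1
    simp only [st0_WS, st0_WT] at h2
    linarith [bw1.st (toW L) 0, bw1.s0 (toW L) 0, neg_abs_le y]
  have := loS (toW L) 0 _ (ok_st0 hl zero_le_one)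
  rw [V_eq, add_zero]
  exact (mul_le_mul_of_nonneg_left hx hl).trans this

lemma le_env {n : ℕ} {w : Wd} (hw : w.len ≤ n) {x y : ℝ}
    (h : ∀ l, 0 ≤ l → l * x + y ≤ Vw w 0 (st0 l 1)) : y ≤ env n x := by
  rcases exists_list w with ⟨L, h1, hL⟩ | hL
  · exact le_csSup (env_bdd n x) ⟨L, h1.trans hw, fun l hl => (h l hl).trans_eq (hL _ _)⟩
  · exact le_trans (by simpa [hL] using h 0 le_rfl) (env_nonneg n x)

theorem env_le_G (n : ℕ) {x : ℝ} (hx : x < 1) : env n x ≤ G x :=
  Real.sSup_le (by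
    rintro y ⟨L, -, h⟩
    exact down (w := toW L) hx fun l hl => (h l hl).trans_eq (V_eq l L)) (G_nonneg hx.le)

theorem G_le_env (n : ℕ) {x ε : ℝ} (hx : x < 1) (hε : 0 < ε)
    (h : 1 ≤ ε ^ 2 * ∏ k ∈ range n, (pr k : ℝ)) : G x ≤ env n (x - ε) + ε :=
  G_le hx.le fun q' α γ hq hf h1 => by
    obtain ⟨w, hw⟩ := up hq hf
    obtain ⟨a, b, ha, hb, hab, ht⟩ := trunc_bd n w 0
    simp only [zero_add, q] at hab
    rw [← hab] at h
    by_cases hc : 1 ≤ ε * a
    · refine le_trans (le_env (trunc_len n w .bot rfl) fun l hl => ?_) (le_add_of_nonneg_right hε.le)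
      have h2 := (ht _ (ok_st0 hl zero_le_one)).1
      have h3 : l / a ≤ l * ε := by rw [div_le_iff₀ ha]; nlinarith
      have h4 := mul_le_mul_of_nonneg_left h1 hl
      simp only [st0_WS] at h2
      linarith [hw l hl]
    · refine sub_le_iff_le_add.1 (le_env (trunc_len n w .top rfl) fun l hl => ?_)
      have h2 := (ht _ (ok_st0 hl zero_le_one)).2
      have h3 : 1 / b ≤ ε := by
        rw [div_le_iff₀ hb]
        by_contra hb'
        have := mul_lt_one_of_nonneg_of_lt_one_left (by positivity) (not_le.1 hc) (not_le.1 hb').le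
        nlinarith
      have h4 := mul_le_mul_of_nonneg_left h1 hl
      simp only [st0_WT] at h2
      nlinarith [hw l hl, mul_nonneg hl hε.le]

end Pool.Agent.P.MP_e86632_nt.Lex
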