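import Pool.Agent.P.MP_e86632_nt.Lex.Defs

/-! Words with two terminal letters, their measures and values; facts on consecutive primes. -/

namespace Pool.Agent.P.MP_e86632_nt.Lex

/-- the `k`-th prime as a real number -/
noncomputable def q (k : ℕ) : ℝ := (pr k : ℝ)

lemma pr_prime (k : ℕ) : (pr k).Prime := Nat.prime_nth_prime k
lemma pr_lt {i j : ℕ} (h : i < j) : pr i < pr j :=
  (Nat.nth_lt_nth Nat.infinite_setOfPred_prime).2 h
lemma pr_inj {i j : ℕ} (h : pr i = pr j) : i = j :=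
  Nat.nth_injective Nat.infinite_setOfPred_prime h
lemma pr_surj {p : ℕ} (hp : p.Prime) : ∃ j, pr j = p := ⟨_, Nat.nth_count hp⟩
lemma pr_zero : pr 0 = 2 := Nat.nth_prime_zero_eq_two
lemma pr_one : pr 1 = 3 := Nat.nth_prime_one_eq_three
lemma pr_two : pr 2 = 5 := Nat.nth_prime_two_eq_five
lemma pr_three : pr 3 = 7 := Nat.nth_prime_three_eq_seven
lemma pr_four : pr 4 = 11 := Nat.nth_prime_four_eq_eleven
lemma q_zero : q 0 = 2 := by simp [q, pr_zero]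
lemma q_one : q 1 = 3 := by simp [q, pr_one]
lemma q_two : q 2 = 5 := by simp [q, pr_two]
lemma q_three : q 3 = 7 := by simp [q, pr_three]
lemma q_four : q 4 = 11 := by simp [q, pr_four]
lemma pr_le {i j : ℕ} (h : i ≤ j) : pr i ≤ pr j := by
  rcases h.lt_or_eq with h | rfl
  exacts [(pr_lt h).le, le_rfl]
lemma q_le {i j : ℕ} (h : i ≤ j) : q i ≤ q j := by unfold q; exact_mod_cast pr_le h
lemma q_ge_two (k : ℕ) : 2 ≤ q k := q_zero ▸ q_le (Nat.zero_le k)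
lemma q_pos (k : ℕ) : 0 < q k := by linarith [q_ge_two k]
lemma q_ge_three {k : ℕ} (h : 1 ≤ k) : 3 ≤ q k := q_one ▸ q_le h
lemma q_ge_five {k : ℕ} (h : 2 ≤ k) : 5 ≤ q k := q_two ▸ q_le h
lemma q_ge_seven {k : ℕ} (h : 3 ≤ k) : 7 ≤ q k := q_three ▸ q_le h
lemma q_ge_eleven {k : ℕ} (h : 4 ≤ k) : 11 ≤ q k := q_four ▸ q_le h
lemma q_succ_one (k : ℕ) : q k + 1 ≤ q (k + 1) := by
  unfold q; exact_mod_cast pr_lt (Nat.lt_succ_self k)
lemma pr_odd {k : ℕ} (h : 1 ≤ k) : pr k % 2 = 1 :=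
  ((pr_prime k).eq_two_or_odd).resolve_left (by have := pr_le h; rw [pr_one] at this; omega)
lemma pr_succ {k : ℕ} (h : 1 ≤ k) : pr k + 2 ≤ pr (k + 1) := by
  have h1 := pr_odd h
  have h2 := pr_odd (k := k + 1) (by omega)
  have h3 := pr_lt (Nat.lt_succ_self k)
  simp only [Nat.succ_eq_add_one] at h3
  omega
lemma q_succ {k : ℕ} (h : 1 ≤ k) : q k + 2 ≤ q (k + 1) := by
  unfold q; exact_mod_cast pr_succ h
lemma pr_coprime {i j : ℕ} (h : i ≠ j) : (pr i).Coprime (pr j) :=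
  (Nat.coprime_primes (pr_prime i) (pr_prime j)).2 fun e => h (pr_inj e)

lemma pr_bertrand (k : ℕ) : pr (k + 1) ≤ 2 * pr k := by
  obtain ⟨p, hp, h1, h2⟩ := Nat.exists_prime_lt_and_le_two_mul (pr k) (pr_prime k).ne_zero
  obtain ⟨j, rfl⟩ := pr_surj hp
  have : k < j := by
    by_contra h
    exact absurd (pr_le (not_lt.1 h)) (not_le.2 h1)
  exact (pr_le this).trans h2

/-- the inequality `N * gap ≥ p' - 1` for `N = (previous prime) - 1` -/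
lemma q_gap {k : ℕ} (h : 2 ≤ k) :
    q (k + 2) - 1 ≤ (q k - 1) * (q (k + 2) - q (k + 1)) := by
  have ha : 5 ≤ pr k := pr_two ▸ pr_le h
  have hb := pr_bertrand k
  have h1 := pr_odd (k := k + 1) (by omega)
  have h2 := pr_succ (k := k + 1) (by omega)
  have h3 := pr_succ (k := k) (by omega)
  have key : pr (k + 1) + 3 ≤ pr (k + 1 + 1) ∨ pr (k + 1) + 3 ≤ 2 * pr k := by
    by_contra hc
    push Not at hc
    have e1 : pr (k + 1) + 1 = 2 * pr k := by omega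
    have e2 : pr (k + 1 + 1) = 2 * pr k + 1 := by omega
    have d : 3 ∣ pr k ∨ 3 ∣ pr (k + 1) ∨ 3 ∣ pr (k + 1 + 1) := by
      rcases (by omega : pr k % 3 = 0 ∨ pr k % 3 = 1 ∨ pr k % 3 = 2) with d | d | d
      · left; omega
      · right; right; omega
      · right; left; omega
    rcases d with d | d | d <;>
      have := (Nat.prime_dvd_prime_iff_eq Nat.prime_three (pr_prime _)).1 d <;> omega
  have ha' : (5 : ℝ) ≤ q k := by unfold q; exact_mod_cast ha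
  have hb' : q (k + 1) + 1 ≤ 2 * q k := by
    unfold q; exact_mod_cast (by omega : pr (k + 1) + 1 ≤ 2 * pr k)
  have h2' := q_succ (k := k + 1) (by omega)
  rcases key with k1 | k1
  · have : q (k + 1) + 3 ≤ q (k + 2) := by unfold q; exact_mod_cast k1
    nlinarith
  · have : q (k + 1) + 3 ≤ 2 * q k := by unfold q; exact_mod_cast k1
    nlinarith

/-- words: `bot` (everything goes to `T`), `top` (everything goes to `S`), letters `I`, `J` -/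
inductive Wd : Type
  | bot : Wd
  | top : Wd
  | I : Wd → Wd
  | J : Wd → Wd

/-- measure of the set `S` of a word -/
noncomputable def sw : Wd → ℕ → ℝ
  | .bot, _ => 0
  | .top, _ => 1
  | .I w, k => sw w (k + 1) / q k
  | .J w, k => 1 / q k + (1 - 1 / q k) * sw w (k + 1)

/-- measure of the set `T` of a word -/
noncomputable def tw : Wd → ℕ → ℝ
  | .bot, _ => 1
  | .top, _ => 0
  | .I w, k => 1 / q k + (1 - 1 / q k) * tw w (k + 1)
  | .J w, k => tw w (k + 1) / q k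

/-- total measure of the conflicts of a word -/
noncomputable def kap : Wd → ℕ → ℝ
  | .bot, _ => 0
  | .top, _ => 0
  | .I w, k => (sw w (k + 1) + kap w (k + 1)) / q k
  | .J w, k => (tw w (k + 1) + kap w (k + 1)) / q k

/-- the weight `m` at level `k` -/
noncomputable def mw (σ : St) (k : ℕ) : ℝ := σ.m (pr k)
noncomputable def sI (σ : St) (k : ℕ) : St := σ.stepI (pr k) (mw σ k)
noncomputable def sJ (σ : St) (k : ℕ) : St := σ.stepJ (pr k) (mw σ k)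
/-- step `I` without reduction -/
noncomputable def sI0 (σ : St) (k : ℕ) : St := σ.stepI (pr k) 0

/-- value of a word -/
noncomputable def Vw : Wd → ℕ → St → ℝ
  | .bot, _, σ => σ.WT
  | .top, _, σ => σ.WS
  | .I w, k, σ => (σ.WT + Vw w (k + 1) (sI σ k)) / q k
  | .J w, k, σ => (σ.WS + Vw w (k + 1) (sJ σ k)) / q k

def Wd.flip : Wd → Wd
  | .bot => .top
  | .top => .bot
  | .I w => .J w.flip
  | .J w => .I w.flip

def Wd.len : Wd → ℕ
  | .bot => 0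
  | .top => 0
  | .I w => w.len + 1
  | .J w => w.len + 1

def St.swap (σ : St) : St := ⟨σ.MT, σ.MS, σ.WT, σ.WS, σ.v, σ.u⟩

@[simp] lemma flip_flip (w : Wd) : w.flip.flip = w := by
  induction w <;> simp_all [Wd.flip]
@[simp] lemma swap_swap (σ : St) : σ.swap.swap = σ := rfl
@[simp] lemma swap_WS (σ : St) : σ.swap.WS = σ.WT := rfl
@[simp] lemma swap_WT (σ : St) : σ.swap.WT = σ.WS := rfl
@[simp] lemma mw_swap (σ : St) (k : ℕ) : mw σ.swap k = mw σ k := min_comm _ _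
@[simp] lemma sw_flip (w : Wd) : ∀ k, sw w.flip k = tw w k := by
  induction w <;> simp_all [Wd.flip, sw, tw]
@[simp] lemma tw_flip (w : Wd) : ∀ k, tw w.flip k = sw w k := by
  induction w <;> simp_all [Wd.flip, sw, tw]
@[simp] lemma kap_flip (w : Wd) : ∀ k, kap w.flip k = kap w k := by
  induction w <;> simp_all [Wd.flip, kap]
lemma sI_swap (σ : St) (k : ℕ) : sI σ.swap k = (sJ σ k).swap := by
  unfold sI sJ; rw [mw_swap]; rfl
lemma sJ_swap (σ : St) (k : ℕ) : sJ σ.swap k = (sI σ k).swap := by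
  unfold sI sJ; rw [mw_swap]; rfl
lemma Vw_flip (w : Wd) : ∀ k (σ : St), Vw w.flip k σ.swap = Vw w k σ := by
  induction w with
  | bot => intro k σ; rfl
  | top => intro k σ; rfl
  | I w ih => intro k σ; simp only [Wd.flip, Vw, sJ_swap, ih, swap_WS]
  | J w ih => intro k σ; simp only [Wd.flip, Vw, sI_swap, ih, swap_WT]
lemma Vw_flip' (w : Wd) (k : ℕ) (σ : St) : Vw w.flip k σ = Vw w k σ.swap := by
  rw [← Vw_flip w k σ.swap, swap_swap]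

@[simp] lemma sI_WS (σ : St) (k : ℕ) : (sI σ k).WS = σ.WS - mw σ k := rfl
@[simp] lemma sI_WT (σ : St) (k : ℕ) : (sI σ k).WT = (q k - 1) * σ.WT := rfl
@[simp] lemma sJ_WS (σ : St) (k : ℕ) : (sJ σ k).WS = (q k - 1) * σ.WS := rfl
@[simp] lemma sJ_WT (σ : St) (k : ℕ) : (sJ σ k).WT = σ.WT - mw σ k := rfl
@[simp] lemma sI0_WS (σ : St) (k : ℕ) : (sI0 σ k).WS = σ.WS := sub_zero _
@[simp] lemma sI0_WT (σ : St) (k : ℕ) : (sI0 σ k).WT = (q k - 1) * σ.WT := rfl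
lemma mw_sI0 (σ : St) (k j : ℕ) : mw (sI0 σ k) j = mw σ j := by
  simp [mw, sI0, St.m, St.stepI]

/-- numerical order of words: `b ≤ a` -/
def Le (k : ℕ) (b a : Wd) : Prop := sw b k ≤ sw a k ∧ tw a k ≤ tw b k

/-- words with the same measures and values -/
def Eqv (k : ℕ) (a b : Wd) : Prop :=
  sw a k = sw b k ∧ tw a k = tw b k ∧ ∀ σ, Vw a k σ = Vw b k σ

/-- invariant of the states -/
structure Ok (k : ℕ) (σ : St) : Prop where
  cS : ∀ j, k ≤ j → σ.MS.Coprime (pr j)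
  cT : ∀ j, k ≤ j → σ.MT.Coprime (pr j)
  u0 : ∀ j, k ≤ j → 0 ≤ σ.u (pr j)
  v0 : ∀ j, k ≤ j → 0 ≤ σ.v (pr j)
  uper : ∀ i j, k ≤ i → k ≤ j → pr i ≡ pr j [MOD σ.MS] → σ.u (pr i) = σ.u (pr j)
  vper : ∀ i j, k ≤ i → k ≤ j → pr i ≡ pr j [MOD σ.MT] → σ.v (pr i) = σ.v (pr j)
  usum : ∀ F : Finset ℕ, (∀ j ∈ F, k ≤ j) →
    (∀ i ∈ F, ∀ j ∈ F, pr i ≡ pr j [MOD σ.MS] → i = j) → ∑ j ∈ F, σ.u (pr j) ≤ σ.WS
  vsum : ∀ F : Finset ℕ, (∀ j ∈ F, k ≤ j) →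
    (∀ i ∈ F, ∀ j ∈ F, pr i ≡ pr j [MOD σ.MT] → i = j) → ∑ j ∈ F, σ.v (pr j) ≤ σ.WT

lemma Ok.swap {k : ℕ} {σ : St} (h : Ok k σ) : Ok k σ.swap :=
  ⟨h.cT, h.cS, h.v0, h.u0, h.vper, h.uper, h.vsum, h.usum⟩
lemma Ok.WS0 {k : ℕ} {σ : St} (h : Ok k σ) : 0 ≤ σ.WS := by
  simpa using h.usum ∅ (by simp) (by simp)
lemma Ok.WT0 {k : ℕ} {σ : St} (h : Ok k σ) : 0 ≤ σ.WT := h.swap.WS0
lemma Ok.u_le {k : ℕ} {σ : St} (h : Ok k σ) {j : ℕ} (hj : k ≤ j) : σ.u (pr j) ≤ σ.WS := by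
  simpa using h.usum {j} (by simpa) (by simp)
lemma Ok.v_le {k : ℕ} {σ : St} (h : Ok k σ) {j : ℕ} (hj : k ≤ j) : σ.v (pr j) ≤ σ.WT :=
  h.swap.u_le hj
lemma Ok.mw0 {k : ℕ} {σ : St} (h : Ok k σ) {j : ℕ} (hj : k ≤ j) : 0 ≤ mw σ j :=
  le_min (h.u0 j hj) (h.v0 j hj)
lemma Ok.mw_WS {k : ℕ} {σ : St} (h : Ok k σ) {j : ℕ} (hj : k ≤ j) : mw σ j ≤ σ.WS :=
  (min_le_left _ _).trans (h.u_le hj)
lemma Ok.mw_WT {k : ℕ} {σ : St} (h : Ok k σ) {j : ℕ} (hj : k ≤ j) : mw σ j ≤ σ.WT :=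
  (min_le_right _ _).trans (h.v_le hj)

/-- `m` bounds all the weights `mw` from level `k` on -/
def MB (k : ℕ) (σ : St) (m : ℝ) : Prop := ∀ j, k ≤ j → mw σ j ≤ m

lemma MB.swap {k : ℕ} {σ : St} {m : ℝ} (h : MB k σ m) : MB k σ.swap m := fun j hj => by
  rw [mw_swap]; exact h j hj
lemma MB.nonneg {k : ℕ} {σ : St} {m : ℝ} (h : MB k σ m) (ho : Ok k σ) : 0 ≤ m :=
  (ho.mw0 le_rfl).trans (h k le_rfl)

/-- passing from `a` to `a'` gains `ξ` on the `S` side at the cost of conflicts of measure `κ` -/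
def Step (k : ℕ) (a a' : Wd) (ξ κ : ℝ) : Prop :=
  0 ≤ ξ ∧ 0 ≤ κ ∧ sw a k + ξ ≤ sw a' k ∧ tw a' k ≤ tw a k ∧
    ∀ σ m, Ok k σ → MB k σ m →
      Vw a k σ - σ.WT * (tw a k - tw a' k) + σ.WS * ξ - m * κ ≤ Vw a' k σ

lemma Step.congr {k : ℕ} {a b a' : Wd} {ξ κ : ℝ} (h : Step k b a' ξ κ) (e : Eqv k a b) :
    Step k a a' ξ κ := by
  obtain ⟨e1, e2, e3⟩ := e
  unfold Step at *
  simp only [e1, e2, e3]
  exact h

lemma Step.mono {k : ℕ} {a a' : Wd} {ξ κ ξ' κ' : ℝ} (h : Step k a a' ξ κ) (h0 : 0 ≤ ξ')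
    (h1 : ξ' ≤ ξ) (h2 : κ ≤ κ') : Step k a a' ξ' κ' := by
  obtain ⟨a1, a2, a3, a4, a5⟩ := h
  refine ⟨h0, a2.trans h2, by linarith, a4, fun σ m ho hm => ?_⟩
  have := a5 σ m ho hm
  have b1 := mul_le_mul_of_nonneg_left h1 ho.WS0
  have b2 := mul_le_mul_of_nonneg_left h2 (hm.nonneg ho)
  linarith

/-- correlation constants -/
noncomputable def Cc (k : ℕ) : ℝ :=
  if k = 1 then 129 / 200 else if k = 2 then 43 / 50 else if k = 3 then 459 / 500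
  else 1 - 1 / (2 * (q k - 2))

lemma Cc_one : Cc 1 = 129 / 200 := by simp [Cc]
lemma Cc_two : Cc 2 = 43 / 50 := by simp [Cc]
lemma Cc_three : Cc 3 = 459 / 500 := by simp [Cc]
lemma Cc_ge {k : ℕ} (h : 4 ≤ k) : Cc k = 1 - 1 / (2 * (q k - 2)) := by
  unfold Cc; rw [if_neg (by omega), if_neg (by omega), if_neg (by omega)]

noncomputable def om (r : ℝ) : ℝ := (r + 1) / (r ^ 2 * (r - 1))
noncomputable def th (r : ℝ) : ℝ := 1 / (r - 1) + om (r + 2)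

/-- multiplicities: `fl = true` means that the `S` side has many classes -/
noncomputable def NS (k : ℕ) (fl : Bool) : ℝ := if fl then q (k - 1) - 1 else 1
noncomputable def NT (k : ℕ) (fl : Bool) : ℝ := if fl then 1 else q (k - 1) - 1

/-- hypothesis on the states at level `k ≥ 1` -/
def Hyp (k : ℕ) (fl : Bool) (σ : St) : Prop :=
  Ok k σ ∧ (∃ m, MB k σ m ∧ NS k fl * m ≤ σ.WS ∧ NT k fl * m ≤ σ.WT) ∧
    (k ≤ 2 → ∀ j, k ≤ j → σ.u (pr j) = σ.u (pr k) ∧ σ.v (pr j) = σ.v (pr k)) ∧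
    (k ≤ 1 → σ.MS ∣ 2 ∧ σ.MT ∣ 2)

lemma Hyp.swap {k : ℕ} {fl : Bool} {σ : St} (h : Hyp k fl σ) : Hyp k (!fl) σ.swap := by
  obtain ⟨h1, ⟨m, h2, h3, h4⟩, h5, h6⟩ := h
  refine ⟨h1.swap, ⟨m, h2.swap, ?_, ?_⟩, fun hk j hj => (h5 hk j hj).symm, fun hk => (h6 hk).symm⟩
  · cases fl <;> simpa [NS, NT] using h4
  · cases fl <;> simpa [NS, NT] using h3

/-- the state at level `0` -/
def st0 (U v : ℝ) : St := ⟨1, 1, U, v, fun _ => U, fun _ => v⟩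

/-- states at level `1` with one class on each side -/
def st1 (u v : ℝ) : St := ⟨1, 2, u, v, fun _ => u, fun _ => v⟩

@[simp] lemma st0_WS (U v : ℝ) : (st0 U v).WS = U := rfl
@[simp] lemma st0_WT (U v : ℝ) : (st0 U v).WT = v := rfl
@[simp] lemma st1_WS (u v : ℝ) : (st1 u v).WS = u := rfl
@[simp] lemma st1_WT (u v : ℝ) : (st1 u v).WT = v := rfl
@[simp] lemma mw_st0 (U v : ℝ) (k : ℕ) : mw (st0 U v) k = min U v := rfl
@[simp] lemma mw_st1 (u v : ℝ) (k : ℕ) : mw (st1 u v) k = min u v := rfl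
lemma st0_swap (U v : ℝ) : (st0 U v).swap = st0 v U := rfl
lemma stepI_st0 (U v m : ℝ) : (st0 U v).stepI (pr 0) m = st1 (U - m) v := by
  simp only [St.stepI, st0, st1, pr_zero, Nat.modEq_one, if_true]
  norm_num
lemma Vw_I_st0 (g : Wd) (U v : ℝ) :
    2 * Vw (.I g) 0 (st0 U v) = v + Vw g 1 (st1 (U - min U v) v) := by
  simp only [Vw, sI, stepI_st0, mw_st0, q_zero, st0_WT]
  ring

lemma ok_const (k : ℕ) {u v : ℝ} (hu : 0 ≤ u) (hv : 0 ≤ v) {a b : ℕ}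
    (ha : ∀ j, k ≤ j → a.Coprime (pr j)) (hb : ∀ j, k ≤ j → b.Coprime (pr j))
    (ha' : ∀ i j, k ≤ i → k ≤ j → pr i ≡ pr j [MOD a])
    (hb' : ∀ i j, k ≤ i → k ≤ j → pr i ≡ pr j [MOD b]) :
    Ok k ⟨a, b, u, v, fun _ => u, fun _ => v⟩ := by
  have key : ∀ (c : ℕ) (x : ℝ), 0 ≤ x → (∀ i j, k ≤ i → k ≤ j → pr i ≡ pr j [MOD c]) →
      ∀ F : Finset ℕ, (∀ j ∈ F, k ≤ j) → (∀ i ∈ F, ∀ j ∈ F, pr i ≡ pr j [MOD c] → i = j) →
      ∑ _j ∈ F, x ≤ x := by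
    intro c x hx hc F h1 h2
    have : F.card ≤ 1 := Finset.card_le_one.2 fun i hi j hj =>
      h2 i hi j hj (hc i j (h1 i hi) (h1 j hj))
    have : (F.card : ℝ) ≤ 1 := by exact_mod_cast this
    rw [Finset.sum_const, nsmul_eq_mul]
    nlinarith
  exact ⟨ha, hb, fun _ _ => hu, fun _ _ => hv, fun _ _ _ _ _ => rfl, fun _ _ _ _ _ => rfl,
    key a u hu ha', key b v hv hb'⟩

lemma ok_st0 {U v : ℝ} (hU : 0 ≤ U) (hv : 0 ≤ v) : Ok 0 (st0 U v) :=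
  ok_const 0 hU hv (fun _ _ => Nat.coprime_one_left _) (fun _ _ => Nat.coprime_one_left _)
    (fun _ _ _ _ => Nat.modEq_one) (fun _ _ _ _ => Nat.modEq_one)

lemma pr_modEq_two {i j : ℕ} (hi : 1 ≤ i) (hj : 1 ≤ j) : pr i ≡ pr j [MOD 2] := by
  unfold Nat.ModEq; rw [pr_odd hi, pr_odd hj]

lemma ok_st1 {u v : ℝ} (hu : 0 ≤ u) (hv : 0 ≤ v) : Ok 1 (st1 u v) :=
  ok_const 1 hu hv (fun _ _ => Nat.coprime_one_left _)
    (fun j hj => pr_zero ▸ pr_coprime (i := 0) (j := j) (by omega))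
    (fun _ _ _ _ => Nat.modEq_one) (fun _ _ hi hj => pr_modEq_two hi hj)

lemma NS_one (fl : Bool) : NS 1 fl = 1 := by cases fl <;> simp [NS, q_zero]; norm_num
lemma NT_one (fl : Bool) : NT 1 fl = 1 := by cases fl <;> simp [NT, q_zero]; norm_num

lemma hyp_st1 (fl : Bool) {u v : ℝ} (hu : 0 ≤ u) (hv : 0 ≤ v) : Hyp 1 fl (st1 u v) :=
  ⟨ok_st1 hu hv, ⟨min u v, fun _ _ => le_rfl, by simp [NS_one], by simp [NT_one]⟩,
    fun _ _ _ => ⟨rfl, rfl⟩, fun _ => ⟨one_dvd _, dvd_rfl⟩⟩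

lemma Hyp.flag {fl fl' : Bool} {σ : St} (h : Hyp 1 fl σ) : Hyp 1 fl' σ := by
  unfold Hyp at *
  simp only [NS_one, NT_one] at *
  exact h

/-- upper bound, form `I` with the correlation term -/
def FIc (k : ℕ) (σ : St) (e : Wd) (b c X : ℝ) : Prop :=
  X ≤ Vw e (k + 1) (sI σ k) + (q k - 1) * σ.WS * b + (σ.WT - mw σ k) * c +
    mw σ k * (1 - Cc (k + 1) * (1 - sw e (k + 1)) * (1 - c))

/-- upper bound, form `I` with the union term -/
def FIu (k : ℕ) (σ : St) (e : Wd) (b c X : ℝ) : Prop :=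
  X ≤ Vw e (k + 1) (sI σ k) + (q k - 1) * σ.WS * b + (σ.WT - mw σ k) * c +
    mw σ k * (sw e (k + 1) + c)

/-- upper bound, form `I` without reduction -/
def FI0 (k : ℕ) (σ : St) (e : Wd) (b c X : ℝ) : Prop :=
  X ≤ Vw e (k + 1) (sI0 σ k) + (q k - 1) * σ.WS * b + σ.WT * c

/-- the target word dominates the measures -/
def Tgt (k : ℕ) (e : Wd) (b c : ℝ) (g : Wd) : Prop :=
  sw e (k + 1) + (q k - 1) * b ≤ q k * sw g k ∧ c + (q k - 1) * tw e (k + 1) ≤ q k * tw g k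

/-- conclusion of the one-level lemmas -/
def Good (k : ℕ) (fl : Bool) (e1 e2 : Wd) : Prop :=
  ∃ g, Tgt k e1 (sw e2 (k + 1)) (tw e2 (k + 1)) g ∧ ∀ σ X, Hyp k fl σ →
    FIc k σ e1 (sw e2 (k + 1)) (tw e2 (k + 1)) X → FIu k σ e1 (sw e2 (k + 1)) (tw e2 (k + 1)) X →
    FI0 k σ e1 (sw e2 (k + 1)) (tw e2 (k + 1)) X → X ≤ q k * Vw g k σ

/-- the same conclusion from the correlation form alone -/
def GoodC (k : ℕ) (fl : Bool) (e1 e2 : Wd) : Prop :=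
  ∃ g, Tgt k e1 (sw e2 (k + 1)) (tw e2 (k + 1)) g ∧ ∀ σ X, Hyp k fl σ →
    FIc k σ e1 (sw e2 (k + 1)) (tw e2 (k + 1)) X → X ≤ q k * Vw g k σ

lemma GoodC.good {k : ℕ} {fl : Bool} {e1 e2 : Wd} (h : GoodC k fl e1 e2) : Good k fl e1 e2 := by
  obtain ⟨g, h1, h2⟩ := h
  exact ⟨g, h1, fun σ X hh h3 _ _ => h2 σ X hh h3⟩

lemma Good.congr {k : ℕ} {fl : Bool} {e1 e2 e1' e2' : Wd} (h : Good k fl e1' e2')
    (h1 : Eqv (k + 1) e1 e1') (h2 : Eqv (k + 1) e2 e2') : Good k fl e1 e2 := by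
  unfold Good Tgt FIc FIu FI0 at *
  simp only [h1.1, h1.2.1, h1.2.2, h2.1, h2.2.1]
  exact h

end Pool.Agent.P.MP_e86632_nt.Lex
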